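import Mathlib

/-!
The block inequality for semisimple algebras with a twist.
-/

set_option autoImplicit false
set_option linter.unusedSectionVars false

namespace Run7.h292

section

variable {N : ℕ} {m : Fin N → ℕ}

/-- the trace of two sided multiplication in a product of matrix algebras -/
lemma trace_mulLeftRight_pi (a b : Π i, Matrix (Fin (m i)) (Fin (m i)) ℂ) :
    LinearMap.trace ℂ _ (LinearMap.mulLeftRight ℂ (a, b)) =
      ∑ i, (a i).trace * (b i).trace := by
  classical
  let B := Pi.basis (fun i => Matrix.stdBasis ℂ (Fin (m i)) (Fin (m i)))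
  have hrep : ∀ (x : Π i, Matrix (Fin (m i)) (Fin (m i)) ℂ) (Y : Fin N) (i j : Fin (m Y)),
      B.repr x ⟨Y, (i, j)⟩ = x Y i j := by
    intro x Y i j
    rfl
  rw [LinearMap.trace_eq_matrix_trace ℂ B, Matrix.trace, Fintype.sum_sigma]
  refine Finset.sum_congr rfl fun Y _ => ?_
  rw [Fintype.sum_prod_type, Matrix.trace, Matrix.trace, Finset.sum_mul]
  refine Finset.sum_congr rfl fun i _ => ?_
  rw [Finset.mul_sum]
  refine Finset.sum_congr rfl fun j _ => ?_
  rw [Matrix.diag_apply, LinearMap.toMatrix_apply, hrep, LinearMap.mulLeftRight_apply]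
  have h1 : B ⟨Y, (i, j)⟩ = Pi.single Y (Matrix.single i j (1 : ℂ)) := by
    rw [Pi.basis_apply, Matrix.stdBasis_eq_single]
  rw [h1]
  change (a Y * (Pi.single Y (Matrix.single i j (1 : ℂ)) :
    Π i, Matrix (Fin (m i)) (Fin (m i)) ℂ) Y * b Y) i j = _
  rw [Pi.single_eq_same, Matrix.mul_apply, Finset.sum_eq_single j]
  · rw [Matrix.mul_single_apply_same, mul_one]
    rfl
  · intro k _ hk
    rw [Matrix.mul_single_apply_of_ne (hbj := hk), zero_mul]
  · intro h; exact absurd (Finset.mem_univ _) h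

/-- the trace of an idempotent matrix is a natural number -/
lemma exists_trace_idem {k : ℕ} {p : Matrix (Fin k) (Fin k) ℂ} (hp : p * p = p) :
    ∃ r : ℕ, p.trace = r := by
  have h : IsIdempotentElem (Matrix.toLin' p) := by
    unfold IsIdempotentElem
    change Matrix.toLin' p ∘ₗ Matrix.toLin' p = _
    rw [← Matrix.toLin'_mul, hp]
  refine ⟨Module.finrank ℂ (LinearMap.range (Matrix.toLin' p)), ?_⟩
  rw [← (LinearMap.IsIdempotentElem.isProj_range _ h).trace, Matrix.trace_toLin'_eq]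

/-- a primitive idempotent matrix has trace one -/
lemma trace_primitive {k : ℕ} {e : Matrix (Fin k) (Fin k) ℂ} (he : e ≠ 0) (hee : e * e = e)
    (hprim : ∀ a, ∃ c : ℂ, e * a * e = c • e) : e.trace = 1 := by
  obtain ⟨i, j, hij⟩ : ∃ i j, e i j ≠ 0 := by
    by_contra hcon
    push Not at hcon
    exact he (Matrix.ext hcon)
  -- take `a = single j i 1`
  obtain ⟨c, hc⟩ := hprim (Matrix.single j i 1)
  have h1 : ∀ a b, e a j * e i b = c * e a b := by
    intro a b
    have := congrFun (congrFun hc a) b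
    rw [Matrix.smul_apply, smul_eq_mul, Matrix.mul_apply, Finset.sum_eq_single i] at this
    · rw [Matrix.mul_single_apply_same, mul_one] at this
      exact this
    · intro l _ hl
      rw [Matrix.mul_single_apply_of_ne (hbj := hl), zero_mul]
    · intro h; exact absurd (Finset.mem_univ _) h
  have h2 : ∑ a, e i a * e a j = e i j := by
    rw [← Matrix.mul_apply, hee]
  have h3 := h1 i j
  have hc0 : c = e i j := by
    have : e i j * (e i j - c) = 0 := by linear_combination h3
    rcases mul_eq_zero.mp this with h | h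
    · exact absurd h hij
    · linear_combination -h
  have h4 : c * e.trace = e i j := by
    rw [Matrix.trace, Finset.mul_sum, ← h2]
    refine Finset.sum_congr rfl fun a _ => ?_
    rw [Matrix.diag_apply, ← h1]
    ring
  rw [hc0] at h4
  exact mul_left_cancel₀ hij (by rw [h4, mul_one])

lemma cos_ineq {z : ℂ} (hz : ‖z‖ = 1) : 0 ≤ (3 + 4 * z + z * z).re := by
  have h1 : z.re ^ 2 + z.im ^ 2 = 1 := by
    have := Complex.sq_norm z
    rw [hz, Complex.normSq_apply] at this
    nlinarith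
  simp
  nlinarith [sq_nonneg (1 + z.re)]

/-- (B) -/
theorem block_ineq {A : Type*} [Ring A] [Algebra ℂ A] [FiniteDimensional ℂ A]
    [IsSemisimpleRing A] {r : ℕ} (p : Fin r → A) (hp : ∀ i, p i * p i = p i) (d : Fin r → ℂ)
    (φ : ℂ ≃+* ℂ) (hd : ∀ i, (φ (d i)).im = 0) (τ : A → ℂ)
    (hτ : ∀ a, τ a = ∑ i, d i * LinearMap.trace ℂ A (LinearMap.mulLeftRight ℂ (a, p i)))
    (t : A) (ht : ∀ a, t * a = a * t)
    (hθ : ∀ μ : ℂ, Module.End.HasEigenvalue (LinearMap.mulLeft ℂ t) μ → ‖φ μ‖ = 1)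
    (e : A) (he : e ≠ 0) (hee : e * e = e) (het : t * e = e)
    (hprim : ∀ a, ∃ c : ℂ, e * a * e = c • e) :
    8 * ‖φ (τ e)‖ ^ 2 ≤
      (φ (∑ i, d i * (3 * τ (p i) + 4 * τ (t * p i) + τ (t * t * p i)))).re := by
  classical
  obtain ⟨N, m, hm, ⟨E⟩⟩ := IsSemisimpleRing.exists_algEquiv_pi_matrix_of_isAlgClosed ℂ A
  -- traces
  have htr : ∀ a b : A, LinearMap.trace ℂ A (LinearMap.mulLeftRight ℂ (a, b)) =
      ∑ Y, (E a Y).trace * (E b Y).trace := by
    intro a b
    rw [← trace_mulLeftRight_pi (E a) (E b),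
      ← LinearMap.trace_conj' (LinearMap.mulLeftRight ℂ (a, b)) E.toLinearEquiv]
    congr 1
    refine LinearMap.ext fun x => ?_
    simp [LinearEquiv.conj_apply]
  choose ρ hρ using fun i Y => exists_trace_idem (p := E (p i) Y) (by
    rw [← Pi.mul_apply, ← map_mul, hp])
  obtain ⟨D, hD⟩ : ∃ D : Fin N → ℂ, D = fun Y => ∑ i, d i * (ρ i Y : ℂ) := ⟨_, rfl⟩
  have hτ' : ∀ a, τ a = ∑ Y, D Y * (E a Y).trace := by
    intro a
    rw [hτ]
    simp_rw [htr, hρ, hD, Finset.mul_sum, Finset.sum_mul]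
    rw [Finset.sum_comm]
    refine Finset.sum_congr rfl fun Y _ => Finset.sum_congr rfl fun i _ => ?_
    ring
  have hDreal : ∀ Y, (φ (D Y)).im = 0 := by
    intro Y
    rw [hD]
    simp only [map_sum, map_mul, map_natCast, Complex.im_sum]
    refine Finset.sum_eq_zero fun i _ => ?_
    rw [Complex.mul_im, hd]
    simp
  -- the twist is a scalar in each block
  have hsc : ∀ Y, ∃ μ : ℂ, E t Y = μ • 1 := by
    intro Y
    have h1 : E t Y ∈ Set.range (Matrix.scalar (Fin (m Y))) := by
      refine Matrix.mem_range_scalar_of_commute_single fun i j _ => ?_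
      have h2 := ht (E.symm (Pi.single Y (Matrix.single i j 1)))
      have h3 := congrArg (fun x => E x Y) h2
      simp only [map_mul, AlgEquiv.apply_symm_apply, Pi.mul_apply, Pi.single_eq_same] at h3
      exact h3.symm
    obtain ⟨μ, hμ⟩ := h1
    exact ⟨μ, by rw [← hμ]; simp [Matrix.scalar_apply, Matrix.smul_one_eq_diagonal]⟩
  choose θ hθY using hsc
  have hθ1 : ∀ Y, ‖φ (θ Y)‖ = 1 := by
    intro Y
    apply hθ
    refine Module.End.hasEigenvalue_of_hasEigenvector (x := E.symm (Pi.single Y 1)) ⟨?_, ?_⟩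
    · rw [Module.End.mem_eigenspace_iff, LinearMap.mulLeft_apply]
      apply E.injective
      rw [map_mul, map_smul, AlgEquiv.apply_symm_apply]
      ext Z : 1
      by_cases hZ : Z = Y
      · subst hZ
        rw [Pi.mul_apply, Pi.smul_apply, Pi.single_eq_same, mul_one, hθY]
      · rw [Pi.mul_apply, Pi.smul_apply, Pi.single_eq_of_ne hZ, mul_zero, smul_zero]
    · intro h0
      have h1 : (Pi.single Y 1 : Π i, Matrix (Fin (m i)) (Fin (m i)) ℂ) = 0 := by
        have := congrArg E h0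
        rwa [AlgEquiv.apply_symm_apply, map_zero] at this
      have h2 := congrFun h1 Y
      rw [Pi.single_eq_same] at h2
      have := hm Y
      exact one_ne_zero h2
  -- the right hand side
  have hpow : ∀ i Y, (E (t * p i) Y).trace = θ Y * ρ i Y := by
    intro i Y
    rw [map_mul, Pi.mul_apply, hθY, smul_mul_assoc, one_mul, Matrix.trace_smul, hρ, smul_eq_mul]
  have hpow2 : ∀ i Y, (E (t * t * p i) Y).trace = θ Y * θ Y * ρ i Y := by
    intro i Y
    rw [mul_assoc, map_mul, Pi.mul_apply, hθY, smul_mul_assoc, one_mul, Matrix.trace_smul, hpow,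
      smul_eq_mul, mul_assoc]
  have hrhs : ∑ i, d i * (3 * τ (p i) + 4 * τ (t * p i) + τ (t * t * p i)) =
      ∑ Y, D Y * D Y * (3 + 4 * θ Y + θ Y * θ Y) := by
    have h1 : ∀ i, d i * (3 * τ (p i) + 4 * τ (t * p i) + τ (t * t * p i)) =
        ∑ Y, d i * ρ i Y * (D Y * (3 + 4 * θ Y + θ Y * θ Y)) := by
      intro i
      rw [hτ' (p i), hτ' (t * p i), hτ' (t * t * p i), Finset.mul_sum, Finset.mul_sum,
        ← Finset.sum_add_distrib, ← Finset.sum_add_distrib, Finset.mul_sum]
      refine Finset.sum_congr rfl fun Y _ => ?_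
      rw [hρ, hpow, hpow2]
      ring
    simp_rw [h1]
    rw [Finset.sum_comm]
    refine Finset.sum_congr rfl fun Y _ => ?_
    rw [← Finset.sum_mul, mul_assoc, hD]
  -- the block of `e`
  obtain ⟨Y₀, hY₀⟩ : ∃ Y, E e Y ≠ 0 := by
    by_contra hcon
    push Not at hcon
    apply he
    apply E.injective
    rw [map_zero]
    exact funext hcon
  have hne : ∀ Y, Y ≠ Y₀ → E e Y = 0 := by
    obtain ⟨c, hc⟩ := hprim (E.symm (Pi.single Y₀ 1))
    have h1 : ∀ Y, (E e * (Pi.single Y₀ 1 : Π i, Matrix (Fin (m i)) (Fin (m i)) ℂ) * E e) Y =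
        c • E e Y := by
      intro Y
      have := congrArg (fun x => E x Y) hc
      simpa using this
    have h2 := h1 Y₀
    rw [Pi.mul_apply, Pi.mul_apply, Pi.single_eq_same, mul_one, ← Pi.mul_apply, ← map_mul, hee]
      at h2
    have hc1 : c = 1 := by
      have h3 : (c - 1) • E e Y₀ = 0 := by rw [sub_smul, ← h2, one_smul, sub_self]
      have := (smul_eq_zero.mp h3).resolve_right hY₀
      linear_combination this
    intro Y hY
    have h4 := h1 Y
    rw [Pi.mul_apply, Pi.mul_apply, Pi.single_eq_of_ne hY, mul_zero, zero_mul, hc1, one_smul] at h4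
    exact h4.symm
  have htre : (E e Y₀).trace = 1 := by
    refine trace_primitive hY₀ (by rw [← Pi.mul_apply, ← map_mul, hee]) fun a => ?_
    obtain ⟨c, hc⟩ := hprim (E.symm (Pi.single Y₀ a))
    refine ⟨c, ?_⟩
    have := congrArg (fun x => E x Y₀) hc
    simpa using this
  have hτe : τ e = D Y₀ := by
    rw [hτ', Finset.sum_eq_single Y₀]
    · rw [htre, mul_one]
    · intro Y _ hY
      rw [hne Y hY, Matrix.trace_zero, mul_zero]
    · intro h; exact absurd (Finset.mem_univ _) h
  have hθ0 : θ Y₀ = 1 := by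
    have h1 := congrArg (fun x => E x Y₀) het
    simp only [map_mul, Pi.mul_apply] at h1
    rw [hθY, smul_mul_assoc, one_mul] at h1
    have h3 : (θ Y₀ - 1) • E e Y₀ = 0 := by rw [sub_smul, h1, one_smul, sub_self]
    have := (smul_eq_zero.mp h3).resolve_right hY₀
    linear_combination this
  rw [hrhs, hτe, map_sum, Complex.re_sum]
  have hterm : ∀ Y, (φ (D Y * D Y * (3 + 4 * θ Y + θ Y * θ Y))).re =
      (φ (D Y)).re ^ 2 * (3 + 4 * φ (θ Y) + φ (θ Y) * φ (θ Y)).re := by
    intro Y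
    have h3 : φ 3 = 3 := map_ofNat φ 3
    have h4 : φ 4 = 4 := map_ofNat φ 4
    rw [map_mul, map_mul, map_add, map_add, map_mul, map_mul, h3, h4]
    have h5 : φ (D Y) = ((φ (D Y)).re : ℂ) := by
      apply Complex.ext
      · simp
      · simp [hDreal Y]
    rw [h5, ← Complex.ofReal_mul, Complex.re_ofReal_mul, Complex.ofReal_re, sq]
  simp_rw [hterm]
  have hnn : ∀ Y ∈ Finset.univ, 0 ≤ (φ (D Y)).re ^ 2 *
      (3 + 4 * φ (θ Y) + φ (θ Y) * φ (θ Y)).re := fun Y _ =>
    mul_nonneg (sq_nonneg _) (cos_ineq (hθ1 Y))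
  refine le_trans ?_ (Finset.single_le_sum hnn (Finset.mem_univ Y₀))
  rw [hθ0, map_one]
  have h6 : ‖φ (D Y₀)‖ ^ 2 = (φ (D Y₀)).re ^ 2 := by
    rw [Complex.sq_norm, Complex.normSq_apply, hDreal]
    ring
  rw [h6]
  norm_num
  linarith

end

end Run7.h292
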