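import Pool.Agent.Run7.h292.Vafa2

/-!
Vafa's lemma, third part.
-/

set_option autoImplicit false
set_option linter.unusedSectionVars false

open CategoryTheory CategoryTheory.Limits MonoidalCategory ExactPairing

namespace Run7.h292

universe v u

section

variable {C : Type u} [Category.{v} C] [Abelian C] [Linear ℂ C]
  [hfd : ∀ X Y : C, FiniteDimensional ℂ (X ⟶ Y)]
  [MonoidalCategory C] [MonoidalPreadditive C] [MonoidalLinear ℂ C] [RigidCategory C]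
  (φ : ℂ ≃+* ℂ)

/-- the double braiding -/
def db (A B : Center C) : A.1 ⊗ B.1 ⟶ A.1 ⊗ B.1 := (A.2.β B.1).hom ≫ (B.2.β A.1).hom

instance (A B : Center C) : IsIso (db A B) := by unfold db; infer_instance

lemma db_tensor (A A' B : Center C) : db (A ⊗ A') B =
    ((α_ A.1 A'.1 B.1 ≪≫ whiskerLeftIso A.1 (A'.2.β B.1) ≪≫ (α_ _ _ _).symm).hom ≫
      db A B ▷ A'.1 ≫
      (α_ A.1 A'.1 B.1 ≪≫ whiskerLeftIso A.1 (A'.2.β B.1) ≪≫ (α_ _ _ _).symm).inv) ≫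
    ((α_ A.1 A'.1 B.1).hom ≫ A.1 ◁ db A' B ≫ (α_ A.1 A'.1 B.1).inv) := by
  have e0 : ((A ⊗ A').2.β B.1).hom = (α_ A.1 A'.1 B.1).hom ≫ A.1 ◁ (A'.2.β B.1).hom ≫
      (α_ _ _ _).inv ≫ (A.2.β B.1).hom ▷ A'.1 ≫ (α_ _ _ _).hom := by
    rw [Center.tensor_β]; simp
  have e1 : (B.2.β (A ⊗ A').1).hom = (α_ _ _ _).inv ≫ (B.2.β A.1).hom ▷ A'.1 ≫ (α_ _ _ _).hom ≫
      A.1 ◁ (B.2.β A'.1).hom ≫ (α_ _ _ _).inv := B.2.monoidal A.1 A'.1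
  have e2 : db (A ⊗ A') B = ((α_ A.1 A'.1 B.1).hom ≫ A.1 ◁ (A'.2.β B.1).hom ≫
      (α_ _ _ _).inv ≫ (A.2.β B.1).hom ▷ A'.1 ≫ (α_ _ _ _).hom) ≫
      (α_ _ _ _).inv ≫ (B.2.β A.1).hom ▷ A'.1 ≫ (α_ _ _ _).hom ≫
      A.1 ◁ (B.2.β A'.1).hom ≫ (α_ _ _ _).inv := by
    rw [← e0, ← e1]; rfl
  rw [e2]
  unfold db
  simp

lemma LL_db_tensor (G : C) (A A' B : Center C) : LL φ G (db (A ⊗ A') B) =
    LL φ (G ⊗ (ᘁ(A'.1) : C)) (db A B) + LL φ (((A.1)ᘁ : C) ⊗ G) (db A' B) := by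
  have h1 : IsIso ((α_ A.1 A'.1 B.1 ≪≫ whiskerLeftIso A.1 (A'.2.β B.1) ≪≫ (α_ _ _ _).symm).hom ≫
      db A B ▷ A'.1 ≫
      (α_ A.1 A'.1 B.1 ≪≫ whiskerLeftIso A.1 (A'.2.β B.1) ≪≫ (α_ _ _ _).symm).inv) := by
    infer_instance
  have h2 : IsIso ((α_ A.1 A'.1 B.1).hom ≫ A.1 ◁ db A' B ≫ (α_ A.1 A'.1 B.1).inv) := by
    infer_instance
  rw [db_tensor]
  refine (LL_comp φ G (X := (A.1 ⊗ A'.1) ⊗ B.1) _ _).trans ?_
  rw [LL_conj, LL_conj φ G (α_ A.1 A'.1 B.1), LL_right, LL_left]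

variable (θ : ∀ W : Center C, W ≅ W)
  (rib : ∀ W W' : Center C, (θ (W ⊗ W')).hom =
      ((θ W).hom ⊗ₘ (θ W').hom) ≫ (β_ W W').hom ≫ (β_ W' W).hom)

/-- the logarithmic determinant of the twist -/
noncomputable def LT (G : C) (W : Center C) : ℝ := LL φ G (θ W).hom.f

instance isIso_θ (W : Center C) : IsIso (θ W).hom.f :=
  ⟨(θ W).inv.f, by rw [← Center.comp_f, Iso.hom_inv_id]; rfl,
    by rw [← Center.comp_f, Iso.inv_hom_id]; rfl⟩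

include rib in
lemma LT_tensor (G : C) (A B : Center C) : LT φ θ G (A ⊗ B) =
    LT φ θ (G ⊗ (ᘁ(B.1) : C)) A + LT φ θ (((A.1)ᘁ : C) ⊗ G) B + LL φ G (db A B) := by
  have h1 : (θ (A ⊗ B)).hom.f = ((θ A).hom.f ▷ B.1 ≫ A.1 ◁ (θ B).hom.f) ≫ db A B := by
    rw [rib A B]
    rw [Center.comp_f, Center.tensor_f, MonoidalCategory.tensorHom_def]
    rfl
  have h2 : IsIso ((θ A).hom.f ▷ B.1 ≫ A.1 ◁ (θ B).hom.f) := by
    have := isIso_θ θ A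
    have := isIso_θ θ B
    infer_instance
  have h3 : IsIso ((θ A).hom.f ▷ B.1) := by
    have := isIso_θ θ A
    infer_instance
  have h4 : IsIso (A.1 ◁ (θ B).hom.f) := by
    have := isIso_θ θ B
    infer_instance
  unfold LT
  rw [h1]
  refine (LL_comp φ G (X := A.1 ⊗ B.1) _ _).trans ?_
  rw [LL_comp, LL_right, LL_left]

lemma LT_bound (b : ℝ)
    (h : ∀ (W : Center C) (G : C) (μ : ℂ), Module.End.HasEigenvalue (post G (θ W).hom.f) μ →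
      |Real.log ‖φ μ‖| ≤ b) (G : C) (W : Center C) : |LT φ θ G W| ≤ b * NN G W.1 := by
  have := isIso_θ θ W
  rw [abs_le]
  constructor
  · rw [← neg_mul]
    exact le_log_det φ _ (-b) (det_post_ne_zero G _) fun μ hμ => (abs_le.mp (h W G μ hμ)).1
  · exact log_det_le φ _ b (det_post_ne_zero G _) fun μ hμ => (abs_le.mp (h W G μ hμ)).2

include rib in
lemma four_strands (b s : ℝ) (hs : s = 1 ∨ s = -1)
    (h : ∀ (W : Center C) (G : C) (μ : ℂ), Module.End.HasEigenvalue (post G (θ W).hom.f) μ →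
      |Real.log ‖φ μ‖| ≤ b) (Y : Center C)
    (hY : ∀ G : C, s * LT φ θ G Y = b * NN G Y.1) (G : C) :
    b * NN G (((Y ⊗ Y) ⊗ Y) ⊗ Y).1 ≤ 0 := by
  have hb : ∀ G W, s * LT φ θ G W ≤ b * NN G W.1 ∧ -(b * NN G W.1) ≤ s * LT φ θ G W := by
    intro G W
    have := abs_le.mp (LT_bound φ θ b h G W)
    rcases hs with rfl | rfl
    · constructor <;> linarith [this.1, this.2]
    · constructor <;> linarith [this.1, this.2]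
  have hR : ∀ (G : C) (A B : Center C), NN (G ⊗ (ᘁ(B.1) : C)) A.1 = NN G (A ⊗ B).1 :=
    fun G A B => (NN_right G A.1 B.1).symm
  have hL : ∀ (G : C) (A B : Center C), NN ((A.1ᘁ : C) ⊗ G) B.1 = NN G (A ⊗ B).1 :=
    fun G A B => (NN_left G B.1 A.1).symm
  -- double braiding of two strands
  have d2 : ∀ G, s * LL φ G (db Y Y) ≤ -(b * NN G (Y ⊗ Y).1) := by
    intro G
    have h1 := LT_tensor φ θ rib G Y Y
    have h2 := (hb G (Y ⊗ Y)).1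
    have h3 := hY (G ⊗ (ᘁ(Y.1) : C))
    have h4 := hY ((Y.1ᘁ : C) ⊗ G)
    rw [hR] at h3
    rw [hL] at h4
    have h5 : s * LT φ θ G (Y ⊗ Y) = s * LT φ θ (G ⊗ (ᘁ(Y.1) : C)) Y +
        s * LT φ θ ((Y.1ᘁ : C) ⊗ G) Y + s * LL φ G (db Y Y) := by rw [h1]; ring
    linarith
  have d3 : ∀ G, s * LL φ G (db (Y ⊗ Y) Y) ≤ -2 * (b * NN G ((Y ⊗ Y) ⊗ Y).1) := by
    intro G
    have h1 := LL_db_tensor φ G Y Y Y
    have h2 := d2 (G ⊗ (ᘁ(Y.1) : C))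
    have h3 := d2 ((Y.1ᘁ : C) ⊗ G)
    rw [hR] at h2
    rw [hL] at h3
    have h4 : NN G (Y ⊗ (Y ⊗ Y)).1 = NN G ((Y ⊗ Y) ⊗ Y).1 := NN_iso G (α_ Y.1 Y.1 Y.1).symm
    rw [h4] at h3
    have h5 : s * LL φ G (db (Y ⊗ Y) Y) = s * LL φ (G ⊗ (ᘁ(Y.1) : C)) (db Y Y) +
        s * LL φ ((Y.1ᘁ : C) ⊗ G) (db Y Y) := by rw [h1]; ring
    linarith
  have d4 : ∀ G, s * LL φ G (db ((Y ⊗ Y) ⊗ Y) Y) ≤ -3 * (b * NN G (((Y ⊗ Y) ⊗ Y) ⊗ Y).1) := by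
    intro G
    have h1 := LL_db_tensor φ G (Y ⊗ Y) Y Y
    have h2 := d3 (G ⊗ (ᘁ(Y.1) : C))
    have h3 := d2 (((Y ⊗ Y).1ᘁ : C) ⊗ G)
    rw [hR] at h2
    rw [hL] at h3
    have h4 : NN G ((Y ⊗ Y) ⊗ (Y ⊗ Y)).1 = NN G (((Y ⊗ Y) ⊗ Y) ⊗ Y).1 :=
      NN_iso G (α_ (Y.1 ⊗ Y.1) Y.1 Y.1).symm
    rw [h4] at h3
    have h5 : s * LL φ G (db ((Y ⊗ Y) ⊗ Y) Y) = s * LL φ (G ⊗ (ᘁ(Y.1) : C)) (db (Y ⊗ Y) Y) +
        s * LL φ (((Y ⊗ Y).1ᘁ : C) ⊗ G) (db Y Y) := by rw [h1]; ring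
    linarith
  have t3 : ∀ G, s * LT φ θ G ((Y ⊗ Y) ⊗ Y) ≤ 0 := by
    intro G
    have h1 := LT_tensor φ θ rib G (Y ⊗ Y) Y
    have h2 := (hb (G ⊗ (ᘁ(Y.1) : C)) (Y ⊗ Y)).1
    have h3 := hY (((Y ⊗ Y).1ᘁ : C) ⊗ G)
    have h4 := d3 G
    rw [hR] at h2
    rw [hL] at h3
    have h5 : s * LT φ θ G ((Y ⊗ Y) ⊗ Y) = s * LT φ θ (G ⊗ (ᘁ(Y.1) : C)) (Y ⊗ Y) +
        s * LT φ θ (((Y ⊗ Y).1ᘁ : C) ⊗ G) Y + s * LL φ G (db (Y ⊗ Y) Y) := by rw [h1]; ring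
    linarith
  have h1 := LT_tensor φ θ rib G ((Y ⊗ Y) ⊗ Y) Y
  have h2 := t3 (G ⊗ (ᘁ(Y.1) : C))
  have h3 := hY ((((Y ⊗ Y) ⊗ Y).1ᘁ : C) ⊗ G)
  have h4 := d4 G
  have h6 := (hb G (((Y ⊗ Y) ⊗ Y) ⊗ Y)).2
  rw [hL] at h3
  have h5 : s * LT φ θ G (((Y ⊗ Y) ⊗ Y) ⊗ Y) = s * LT φ θ (G ⊗ (ᘁ(Y.1) : C)) ((Y ⊗ Y) ⊗ Y) +
        s * LT φ θ ((((Y ⊗ Y) ⊗ Y).1ᘁ : C) ⊗ G) Y + s * LL φ G (db ((Y ⊗ Y) ⊗ Y) Y) := by
    rw [h1]; ring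
  linarith

/-- a tensor product of nonzero objects is nonzero -/
lemma tensor_ne_zero' [Simple (𝟙_ C)] {X Y : C} (hX : 𝟙 X ≠ 0) (hY : 𝟙 Y ≠ 0) :
    𝟙 (X ⊗ Y) ≠ 0 := by
  intro h0
  have h1 : ε_ X (Xᘁ : C) ≠ 0 := by
    intro h
    apply hX
    have h2 : 𝟙 X = 𝟙 _ ⊗≫ (η_ X (Xᘁ : C) ▷ X ⊗≫ X ◁ ε_ X (Xᘁ : C)) ⊗≫ 𝟙 _ := by
      rw [evaluation_coevaluation'']; monoidal
    have h3 : (η_ X (Xᘁ : C) ▷ X ⊗≫ X ◁ ε_ X (Xᘁ : C)) = 0 := by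
      rw [h]
      simp [monoidalComp]
    rw [h2, h3]
    simp [monoidalComp]
  have h2 : Epi (ε_ X (Xᘁ : C)) := epi_of_nonzero_to_simple h1
  have h3 : Epi (ε_ X (Xᘁ : C) ▷ Y) := by
    have := Functor.preservesEpimorphisms_of_adjunction (tensorRightAdjunction Y (Yᘁ : C))
    exact (tensorRight Y).map_epi (ε_ X (Xᘁ : C))
  have h4 : ε_ X (Xᘁ : C) ▷ Y = 0 := by
    have h5 : ε_ X (Xᘁ : C) ▷ Y = (α_ _ _ _).hom ≫ (Xᘁ : C) ◁ 𝟙 (X ⊗ Y) ≫ (α_ _ _ _).inv ≫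
        ε_ X (Xᘁ : C) ▷ Y := by simp
    rw [h5, h0]
    simp
  have h5 : 𝟙 (𝟙_ C ⊗ Y) = 0 := by
    rw [← cancel_epi (ε_ X (Xᘁ : C) ▷ Y), h4, zero_comp, zero_comp]
  apply hY
  have h6 : 𝟙 Y = (λ_ Y).inv ≫ 𝟙 (𝟙_ C ⊗ Y) ≫ (λ_ Y).hom := by simp
  rw [h6, h5]
  simp

variable (nat : ∀ {W W' : Center C} (f : W ⟶ W'), f ≫ (θ W').hom = (θ W).hom ≫ f)

include rib nat in
/-- **Vafa's lemma**: the eigenvalues of the twist have absolute value one in every complex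
embedding. -/
theorem vafa [Simple (𝟙_ C)]
    (T : Finset ℂ) (hT : ∀ (W : Center C) (G : C) (μ : ℂ),
      Module.End.HasEigenvalue (post G (θ W).hom.f) μ → μ ∈ T)
    (W : Center C) (G : C) (μ : ℂ)
    (hμ : Module.End.HasEigenvalue (post G (θ W).hom.f) μ) : ‖φ μ‖ = 1 := by
  classical
  let E : Finset ℂ := T.filter fun μ => ∃ (W : Center C) (G : C),
    Module.End.HasEigenvalue (post G (θ W).hom.f) μ
  have hE : ∀ (W : Center C) (G : C) (μ : ℂ),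
      Module.End.HasEigenvalue (post G (θ W).hom.f) μ → μ ∈ E := fun W G μ h =>
    Finset.mem_filter.mpr ⟨hT W G μ h, W, G, h⟩
  have hEne : E.Nonempty := ⟨μ, hE W G μ hμ⟩
  obtain ⟨μ₀, hμ₀, hmax⟩ := Finset.exists_max_image E (fun μ => |Real.log ‖φ μ‖|) hEne
  set b := |Real.log ‖φ μ₀‖| with hb
  have hbound : ∀ (W : Center C) (G : C) (μ : ℂ),
      Module.End.HasEigenvalue (post G (θ W).hom.f) μ → |Real.log ‖φ μ‖| ≤ b := fun W G μ h =>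
    hmax μ (hE W G μ h)
  obtain ⟨-, W₀, G₀, h₀⟩ := Finset.mem_filter.mp hμ₀
  obtain ⟨a, ha⟩ := h₀.exists_hasEigenvector
  obtain ⟨Y, hY0, hY⟩ := exists_block θ nat W₀ a ha.2 (Module.End.mem_eigenspace_iff.mp ha.1)
  obtain ⟨s, hs, hsb⟩ : ∃ s : ℝ, (s = 1 ∨ s = -1) ∧ s * Real.log ‖φ μ₀‖ = b := by
    rcases le_total 0 (Real.log ‖φ μ₀‖) with h | h
    · exact ⟨1, Or.inl rfl, by rw [one_mul, hb, abs_of_nonneg h]⟩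
    · exact ⟨-1, Or.inr rfl, by rw [neg_one_mul, hb, abs_of_nonpos h]⟩
  have hYG : ∀ G : C, s * LT φ θ G Y = b * NN G Y.1 := by
    intro G
    have := isIso_θ θ Y
    have h1 : LT φ θ G Y = Real.log ‖φ μ₀‖ * NN G Y.1 := by
      refine le_antisymm ?_ ?_
      · exact log_det_le φ _ _ (det_post_ne_zero G _) fun ν hν => by rw [hY G ν hν]
      · exact le_log_det φ _ _ (det_post_ne_zero G _) fun ν hν => by rw [hY G ν hν]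
    rw [h1, ← mul_assoc, hsb]
  have h4 := four_strands φ θ rib b s hs hbound Y hYG (((Y ⊗ Y) ⊗ Y) ⊗ Y).1
  have hpos : 0 < NN (((Y ⊗ Y) ⊗ Y) ⊗ Y).1 (((Y ⊗ Y) ⊗ Y) ⊗ Y).1 :=
    NN_pos (tensor_ne_zero' (tensor_ne_zero' (tensor_ne_zero' hY0 hY0) hY0) hY0)
  have hb0 : b ≤ 0 := by
    have : (0 : ℝ) < NN (((Y ⊗ Y) ⊗ Y) ⊗ Y).1 (((Y ⊗ Y) ⊗ Y) ⊗ Y).1 := by exact_mod_cast hpos
    nlinarith
  have h5 : Real.log ‖φ μ‖ = 0 := by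
    have := hbound W G μ hμ
    exact abs_eq_zero.mp (le_antisymm (this.trans hb0) (abs_nonneg _))
  have h6 : μ ≠ 0 := by
    rintro rfl
    have := isIso_θ θ W
    obtain ⟨c, hc⟩ := hμ.exists_hasEigenvector
    have hc1 : c ≫ (θ W).hom.f = (0 : ℂ) • c := Module.End.mem_eigenspace_iff.mp hc.1
    rw [zero_smul] at hc1
    apply hc.2
    rw [← cancel_mono (θ W).hom.f, hc1, zero_comp]
  have h7 : 0 < ‖φ μ‖ := by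
    rw [norm_pos_iff]
    simpa using h6
  rcases Real.log_eq_zero.mp h5 with h | h | h
  · exact absurd h h7.ne'
  · exact h
  · linarith

end

end Run7.h292
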