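import Pool.Agent.Run7.h292.Idem
import Pool.Agent.Run7.h292.Block
import Pool.Agent.Run7.h292.Vafa3

/-!
The endomorphism algebra of the object of the centre induced from the sum of all simple objects.
-/

set_option autoImplicit false
set_option linter.unusedSectionVars false

open CategoryTheory CategoryTheory.Limits MonoidalCategory ExactPairing
open Pool.Agent.Helper781.Fusion (Dec IsSimpleList exists_scalar finrank_simple hom_zero sum_dec)

namespace Run7.h292

universe v u

section

variable {C : Type u} [Category.{v} C] [Abelian C] [Linear ℂ C]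
  [MonoidalCategory C] [MonoidalPreadditive C] [MonoidalLinear ℂ C] [RigidCategory C]
  [hfd : ∀ X Y : C, FiniteDimensional ℂ (X ⟶ Y)] [Simple (𝟙_ C)] (p : Pivotal C)
variable {n : ℕ} {S : Fin n → C} (hS : IsSimples S) (dec : ∀ Z, Dec S Z) {o : Fin n}
  (uo : S o ≅ 𝟙_ C)

/-- the eigenvalues of the twist have absolute value one in every embedding -/
lemma vafa_tw (hS : IsSimples S) (dec : ∀ Z, Dec S Z) (φ : ℂ ≃+* ℂ) (X G : C) (μ : ℂ)
    (hμ : Module.End.HasEigenvalue (post G (twX p S dec X)) μ) : ‖φ μ‖ = 1 := by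
  obtain ⟨T, hT⟩ := exists_spec p hS dec
  exact vafa φ (twI p hS dec) (twI_rib p hS dec) (twI_nat p hS dec) T
    (fun W G μ h => hT W G μ h) (Ind hS dec X) G μ hμ

/-- naturality of the twist on induced objects -/
lemma twX_nat (hS : IsSimples S) {X Y : C} {g : TX S X ⟶ TX S Y} (hg : Cen dec X Y g) :
    g ≫ twX p S dec Y = twX p S dec X ≫ g :=
  tw_nat p (W := Ind hS dec X) (W' := Ind hS dec Y) ⟨g, hg⟩

/-- the endomorphism algebra of the induced object in the centre -/
def AA (X : C) : Subalgebra ℂ (End (TX S X)) where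
  carrier := {f | Cen dec X X (show TX S X ⟶ TX S X from f)}
  mul_mem' hf hg := Cen.comp hg hf
  add_mem' hf hg := Cen.add hf hg
  algebraMap_mem' c := (Cen.id X).smul c

instance (X : C) : FiniteDimensional ℂ (AA (S := S) dec X) :=
  FiniteDimensional.finiteDimensional_subalgebra _

variable {dec} in
/-- a member of the algebra as a morphism -/
def mf {X : C} (a : AA (S := S) dec X) : TX S X ⟶ TX S X := a.1

variable {dec} in
lemma mf_cen {X : C} (a : AA (S := S) dec X) : Cen dec X X (mf a) := a.2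

variable {dec} in
lemma mf_mul {X : C} (a b : AA (S := S) dec X) : mf (a * b) = mf b ≫ mf a := rfl

variable {dec} in
lemma mf_smul {X : C} (c : ℂ) (a : AA (S := S) dec X) : mf (c • a) = c • mf a := rfl

variable {dec} in
lemma mf_ext {X : C} {a b : AA (S := S) dec X} (h : mf a = mf b) : a = b := Subtype.ext h

variable {dec} in
/-- the trace on the algebra -/
noncomputable def ta {X : C} (a : AA (S := S) dec X) : ℂ := p.tr (TX S X) (mf a)

lemma tr_nilpotent (hS : IsSimples S) (dec : ∀ Z, Dec S Z) {X : C} (a : End X)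
    (ha : IsNilpotent a) : p.tr X a = 0 := by
  rw [p.tr_eq hS dec]
  refine Finset.sum_eq_zero fun i _ => ?_
  have h1 : IsNilpotent (postAlg (S i) X a) := ha.map (postAlg (S i) X)
  have h2 := LinearMap.isNilpotent_trace_of_isNilpotent h1
  have h3 : LinearMap.trace ℂ _ (postAlg (S i) X a) = 0 := h2.eq_zero
  have h4 : LinearMap.trace ℂ _ (post (S i) a) = 0 := h3
  rw [h4, mul_zero]

include hS in
lemma ta_nondeg (hs : p.IsSpherical) (hD : gd p S ≠ 0) {X : C} (a : AA (S := S) dec X)
    (h : ∀ b : AA (S := S) dec X, ta p (a * b) = 0) : a = 0 := by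
  apply mf_ext
  refine p.tr_nondeg hS dec _ fun f => ?_
  rw [p.tr_comm]
  let W := Ind hS dec X
  let a' : W ⟶ W := ⟨mf a, mf_cen a⟩
  have h1 : EE p S W W (f ≫ mf a) = EE p S W W f ≫ mf a := EE_post p W W W f a'
  have h2 : p.tr (TX S X) (EE p S W W (f ≫ mf a)) = gd p S * p.tr (TX S X) (f ≫ mf a) :=
    tr_EE p W (f ≫ mf a)
  have h3 : p.tr (TX S X) (EE p S W W f ≫ mf a) = 0 :=
    h ⟨EE p S W W f, fun U => EE_comm p hS dec hs W W f U⟩
  rw [h1] at h2
  have h4 : gd p S * p.tr (TX S X) (f ≫ mf a) = 0 := h2.symm.trans h3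
  exact (mul_eq_zero.mp h4).resolve_left hD

include hS in
/-- the algebra is semisimple -/
lemma AA_semisimple (hs : p.IsSpherical) (hD : gd p S ≠ 0) (X : C) :
    IsSemisimpleRing (AA (S := S) dec X) := by
  have hart : IsArtinianRing (AA (S := S) dec X) := IsArtinianRing.of_finite ℂ _
  rw [IsArtinianRing.isSemisimpleRing_iff_jacobson]
  have hnil : IsNilpotent (Ring.jacobson (AA (S := S) dec X)) := IsSemiprimaryRing.isNilpotent
  rw [eq_bot_iff]
  intro a ha
  rw [Submodule.mem_bot]
  refine ta_nondeg p hS dec hs hD a fun b => ?_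
  have hab : a * b ∈ Ring.jacobson (AA (S := S) dec X) := Ideal.mul_mem_right _ _ ha
  have hn : IsNilpotent (a * b) := by
    obtain ⟨k, hk⟩ := hnil
    refine ⟨k, ?_⟩
    have := Ideal.pow_mem_pow hab k
    rw [hk] at this
    exact this
  have hn' : IsNilpotent (show End (TX S X) from (a * b).1) := by
    obtain ⟨k, hk⟩ := hn
    refine ⟨k, ?_⟩
    have := congrArg Subtype.val hk
    exact this
  exact tr_nilpotent p hS dec _ hn'

/-! ### the trace in terms of the algebra -/

lemma lft_add {X Y : C} (a b : X ⟶ TX S Y) :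
    lft hS dec (a + b) = lft hS dec a + lft hS dec b := by
  refine cen_ext hS dec (lft_cen hS dec _) ((lft_cen hS dec _).add (lft_cen hS dec _)) ?_
  rw [eta_lft, Preadditive.comp_add, eta_lft, eta_lft]

/-- restriction -/
noncomputable def Rm {X Y : C} (i : Y ⟶ X) : AA (S := S) dec X →ₗ[ℂ] (Y ⟶ TX S X) where
  toFun x := i ≫ eta dec X ≫ mf x
  map_add' x y := by
    change i ≫ eta dec X ≫ (mf x + mf y) = _
    simp
  map_smul' c x := by
    change i ≫ eta dec X ≫ (c • mf x) = _
    simp

/-- extension -/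
noncomputable def Jm {X Y : C} (q : X ⟶ Y) : (Y ⟶ TX S X) →ₗ[ℂ] AA (S := S) dec X where
  toFun g := ⟨Im hS dec q ≫ lft hS dec g, (Im_cen hS dec q).comp (lft_cen hS dec g)⟩
  map_add' g h := by
    apply mf_ext
    change Im hS dec q ≫ lft hS dec (g + h) = Im hS dec q ≫ lft hS dec g + Im hS dec q ≫ lft hS dec h
    rw [lft_add, Preadditive.comp_add]
  map_smul' c g := by
    apply mf_ext
    change Im hS dec q ≫ lft hS dec (c • g) = c • (Im hS dec q ≫ lft hS dec g)
    rw [lft_smul, Linear.comp_smul]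

/-- the idempotent of a summand -/
noncomputable def pid {X Y : C} (i : Y ⟶ X) (q : X ⟶ Y) : AA (S := S) dec X :=
  ⟨Im hS dec (q ≫ i), Im_cen hS dec _⟩

lemma trace_mlr {X Y : C} (i : Y ⟶ X) (q : X ⟶ Y) (hiq : i ≫ q = 𝟙 Y) (a : AA (S := S) dec X) :
    LinearMap.trace ℂ _ (LinearMap.mulLeftRight ℂ (a, pid hS dec i q)) =
      LinearMap.trace ℂ _ (post Y (mf a)) := by
  have h1 : LinearMap.mulLeftRight ℂ (a, pid hS dec i q) =
      Jm hS dec q ∘ₗ (post Y (mf a) ∘ₗ Rm dec i) := by
    ext x : 1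
    apply mf_ext
    change Im hS dec (q ≫ i) ≫ mf x ≫ mf a =
      Im hS dec q ≫ lft hS dec ((i ≫ eta dec X ≫ mf x) ≫ mf a)
    rw [← Im_comp]
    have h2 : lft hS dec ((i ≫ eta dec X ≫ mf x) ≫ mf a) = Im hS dec i ≫ mf x ≫ mf a := by
      unfold Im
      rw [lft_comp hS dec _ ((mf_cen x).comp (mf_cen a))]
      simp only [Category.assoc]
    rw [h2, Category.assoc]
  have h3 : Rm dec i ∘ₗ Jm hS dec q = LinearMap.id := by
    ext g
    change i ≫ eta dec X ≫ Im hS dec q ≫ lft hS dec g = g
    rw [← Category.assoc (eta dec X), eta_Im, Category.assoc, eta_lft, ← Category.assoc, hiq,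
      Category.id_comp]
  rw [h1, LinearMap.trace_comp_comm', LinearMap.comp_assoc, h3, LinearMap.comp_id]

end

end Run7.h292
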