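import Pool.Agent.Run7.h292.Ind

/-!
Averaging and the handle slide.
-/

set_option autoImplicit false
set_option linter.unusedSectionVars false

open CategoryTheory CategoryTheory.Limits MonoidalCategory ExactPairing
open Pool.Agent.Helper781.Fusion (Dec IsSimpleList exists_scalar finrank_simple hom_zero sum_dec)

namespace Run7.h292

universe v u

/-- Decomposition with dual bases for every simple object. -/
structure Dec2 {C : Type u} [Category.{v} C] [Preadditive C] {n : ℕ} (S : Fin n → C) (Z : C) where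
  ix : Fin n → Type
  [fin : ∀ l, Fintype (ix l)]
  [deq : ∀ l, DecidableEq (ix l)]
  y : ∀ l, ix l → (S l ⟶ Z)
  x : ∀ l, ix l → (Z ⟶ S l)
  same : ∀ l b, y l b ≫ x l b = 𝟙 (S l)
  diff : ∀ l b b', b ≠ b' → y l b ≫ x l b' = 0
  sum : ∑ l, ∑ b, x l b ≫ y l b = 𝟙 Z

attribute [instance] Dec2.fin Dec2.deq

/-- regroup a decomposition -/
noncomputable def Dec2.ofDec {C : Type u} [Category.{v} C] [Abelian C] {n : ℕ} {S : Fin n → C}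
    {Z : C} (d : Dec S Z) : Dec2 S Z where
  ix l := {b : Fin d.n // d.idx b = l}
  fin l := inferInstance
  deq l := inferInstance
  y l b := eqToHom (by rw [b.2]) ≫ d.inc b.1
  x l b := d.prj b.1 ≫ eqToHom (by rw [b.2])
  same := by
    rintro l ⟨b, rfl⟩
    simp [d.same]
  diff := by
    rintro l ⟨b, rfl⟩ ⟨b', h⟩ hne
    have hne' : b ≠ b' := fun h => hne (Subtype.ext h)
    simp only [eqToHom_refl, Category.id_comp]
    rw [← Category.assoc, d.diff b b' hne', zero_comp]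
  sum := by
    rw [← d.sum]
    have e : ∀ l, ∑ b : {b : Fin d.n // d.idx b = l}, (d.prj b.1 ≫ eqToHom (by rw [b.2])) ≫
        eqToHom (by rw [b.2]) ≫ d.inc b.1 =
        ∑ b ∈ Finset.univ.filter (fun b => d.idx b = l), d.prj b ≫ d.inc b := by
      intro l
      rw [Finset.sum_subtype (Finset.univ.filter (fun b => d.idx b = l)) (p := fun b => d.idx b = l)
        (by simp)]
      refine Finset.sum_congr rfl fun b _ => ?_
      simp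
    rw [Finset.sum_congr rfl fun l _ => e l]
    exact Finset.sum_fiberwise_of_maps_to (fun _ _ => Finset.mem_univ _) _

section

variable {C : Type u} [Category.{v} C] [Abelian C] [Linear ℂ C]
  [MonoidalCategory C] [MonoidalPreadditive C] [MonoidalLinear ℂ C] [RightRigidCategory C]
  [hfd : ∀ X Y : C, FiniteDimensional ℂ (X ⟶ Y)] [Simple (𝟙_ C)] (p : Pivotal C)
variable {n : ℕ} {S : Fin n → C} (hS : IsSimples S) (dec : ∀ Z, Dec S Z)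

/-- bending -/
noncomputable def xt {K L U : C} (x : K ⊗ U ⟶ L) : K ⟶ L ⊗ (Uᘁ : C) :=
  𝟙 _ ⊗≫ K ◁ η_ U (Uᘁ : C) ⊗≫ x ▷ (Uᘁ : C)

/-- bending -/
noncomputable def yt {K L U : C} (y : L ⟶ K ⊗ U) : L ⊗ (Uᘁ : C) ⟶ K :=
  y ▷ (Uᘁ : C) ⊗≫ K ◁ p.ev' U ⊗≫ 𝟙 _

lemma xt_yt {K K' L U : C} (x : K ⊗ U ⟶ L) (y : L ⟶ K' ⊗ U) :
    xt x ≫ yt p y = p.rtr U (x ≫ y) := by
  unfold xt yt Pivotal.rtr
  monoidal

lemma xt_bend {K L U : C} (x : K ⊗ U ⟶ L) :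
    xt x ▷ U ⊗≫ L ◁ ε_ U (Uᘁ : C) ⊗≫ 𝟙 _ = x := by
  unfold xt
  calc
    _ = 𝟙 _ ⊗≫ K ◁ η_ U (Uᘁ : C) ▷ U ⊗≫ (x ▷ ((Uᘁ : C) ⊗ U) ≫ L ◁ ε_ U (Uᘁ : C)) ⊗≫ 𝟙 _ := by
      monoidal
    _ = 𝟙 _ ⊗≫ K ◁ (η_ U (Uᘁ : C) ▷ U ⊗≫ U ◁ ε_ U (Uᘁ : C)) ⊗≫ x := by
      rw [← whisker_exchange]; monoidal
    _ = _ := by rw [evaluation_coevaluation'']; monoidal

lemma yt_bend {K L U : C} (y : L ⟶ K ⊗ U) :
    𝟙 _ ⊗≫ L ◁ p.co' U ⊗≫ yt p y ▷ U = y := by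
  unfold yt
  calc
    _ = 𝟙 _ ⊗≫ (L ◁ p.co' U ≫ y ▷ ((Uᘁ : C) ⊗ U)) ⊗≫ K ◁ p.ev' U ▷ U ⊗≫ 𝟙 _ := by
      monoidal
    _ = y ⊗≫ K ◁ (U ◁ p.co' U ⊗≫ p.ev' U ▷ U) ⊗≫ 𝟙 _ := by
      rw [whisker_exchange]; monoidal
    _ = _ := by rw [p.zig1]; monoidal

lemma xt_surj {K L U : C} (h : K ⟶ L ⊗ (Uᘁ : C)) :
    h = xt (h ▷ U ⊗≫ L ◁ ε_ U (Uᘁ : C) ⊗≫ 𝟙 _) := by
  unfold xt
  symm
  calc
    _ = 𝟙 _ ⊗≫ (K ◁ η_ U (Uᘁ : C) ≫ h ▷ (U ⊗ (Uᘁ : C))) ⊗≫ L ◁ ε_ U (Uᘁ : C) ▷ (Uᘁ : C) ⊗≫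
        𝟙 _ := by monoidal
    _ = h ⊗≫ L ◁ ((Uᘁ : C) ◁ η_ U (Uᘁ : C) ⊗≫ ε_ U (Uᘁ : C) ▷ (Uᘁ : C)) ⊗≫ 𝟙 _ := by
      rw [whisker_exchange]; monoidal
    _ = _ := by rw [coevaluation_evaluation'']; monoidal

lemma xt_smul {K L U : C} (c : ℂ) (x : K ⊗ U ⟶ L) : xt (c • x) = c • xt x := by
  unfold xt
  simp [monoidalComp]

lemma xt_sum {K L U : C} {ι : Type*} (s : Finset ι) (x : ι → (K ⊗ U ⟶ L)) :
    xt (∑ i ∈ s, x i) = ∑ i ∈ s, xt (x i) := by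
  unfold xt
  rw [sum_whiskerRight]
  simp only [monoidalComp, Preadditive.comp_sum]

include hS dec in
lemma xt_yt_scalar (hs : p.IsSpherical) (k l : Fin n) {U : C} (D : Dec2 S (S k ⊗ U))
    (b b' : D.ix l) :
    p.dm (S k) • (xt (D.x l b) ≫ yt p (D.y l b')) =
      if b = b' then p.dm (S l) • 𝟙 (S k) else 0 := by
  have := hS.simple k
  have := hS.simple l
  have e1 := sc_spec (xt (D.x l b) ≫ yt p (D.y l b'))
  set c := sc (S k) (xt (D.x l b) ≫ yt p (D.y l b')) with hc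
  have e2 : p.dm (S k) * c = p.tr _ (D.y l b' ≫ D.x l b) := by
    rw [p.tr_comm, ← p.tr_rtr hs hS dec, ← xt_yt, e1, map_smul, smul_eq_mul, mul_comm]
    rfl
  rw [e1, smul_smul, e2]
  split_ifs with h
  · subst h
    rw [D.same]
    rfl
  · rw [D.diff l b' b (fun h' => h h'.symm), map_zero, zero_smul]

/-- expansion in the dual basis -/
lemma Dec2.expand {Z : C} (D : Dec2 S Z) (hS : IsSimples S) (l : Fin n) (x : Z ⟶ S l) :
    ∃ c : D.ix l → ℂ, x = ∑ b, c b • D.x l b := by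
  have := hS.simple l
  refine ⟨fun b => sc (S l) (D.y l b ≫ x), ?_⟩
  have e1 : x = ∑ l', ∑ b, D.x l' b ≫ D.y l' b ≫ x := by
    simp_rw [← Category.assoc, ← Preadditive.sum_comp]
    rw [D.sum, Category.id_comp]
  conv_lhs => rw [e1]
  rw [Finset.sum_eq_single l]
  · refine Finset.sum_congr rfl fun b _ => ?_
    conv_lhs => rw [sc_spec (D.y l b ≫ x)]
    rw [Linear.comp_smul, Category.comp_id]
  · intro l' _ hl
    refine Finset.sum_eq_zero fun b _ => ?_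
    rw [hom_zero hS.list hl (D.y l' b ≫ x), comp_zero]
  · intro h; exact absurd (Finset.mem_univ _) h

include hS dec in
/-- the completeness relation -/
lemma complete (hs : p.IsSpherical) (l : Fin n) (U : C) (D : ∀ k, Dec2 S (S k ⊗ U)) :
    ∑ k, ∑ b : (D k).ix l, p.dm (S k) • (yt p ((D k).y l b) ≫ xt ((D k).x l b)) =
      p.dm (S l) • 𝟙 (S l ⊗ (Uᘁ : C)) := by
  set g := ∑ k, ∑ b : (D k).ix l, p.dm (S k) • (yt p ((D k).y l b) ≫ xt ((D k).x l b)) with hg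
  have key2 : ∀ k (b : (D k).ix l), xt ((D k).x l b) ≫ g = p.dm (S l) • xt ((D k).x l b) := by
    intro k b
    rw [hg, Preadditive.comp_sum, Finset.sum_eq_single k]
    · rw [Preadditive.comp_sum, Finset.sum_eq_single b]
      · rw [Linear.comp_smul, ← Category.assoc, ← Linear.smul_comp,
          xt_yt_scalar p hS dec hs k l (D k) b b, if_pos rfl, Linear.smul_comp, Category.id_comp]
      · intro b' _ hb
        rw [Linear.comp_smul, ← Category.assoc, ← Linear.smul_comp,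
          xt_yt_scalar p hS dec hs k l (D k) b b', if_neg hb.symm, zero_comp]
      · intro h; exact absurd (Finset.mem_univ _) h
    · intro k' _ hk
      rw [Preadditive.comp_sum]
      refine Finset.sum_eq_zero fun b' _ => ?_
      rw [Linear.comp_smul, ← Category.assoc, hom_zero hS.list hk.symm
        (xt ((D k).x l b) ≫ yt p ((D k').y l b')), zero_comp, smul_zero]
    · intro h; exact absurd (Finset.mem_univ _) h
  have key3 : ∀ k (h : S k ⟶ S l ⊗ (Uᘁ : C)), h ≫ g = p.dm (S l) • h := by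
    intro k h
    obtain ⟨c, hc⟩ := (D k).expand hS l (h ▷ U ⊗≫ S l ◁ ε_ U (Uᘁ : C) ⊗≫ 𝟙 _)
    have e1 : h = ∑ b, c b • xt ((D k).x l b) := by
      rw [xt_surj h, hc, xt_sum]
      refine Finset.sum_congr rfl fun b _ => xt_smul _ _
    rw [e1, Preadditive.sum_comp, Finset.smul_sum]
    refine Finset.sum_congr rfl fun b _ => ?_
    rw [Linear.smul_comp, key2, smul_comm]
  calc g = (∑ b, (dec (S l ⊗ (Uᘁ : C))).prj b ≫ (dec (S l ⊗ (Uᘁ : C))).inc b) ≫ g := by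
        rw [(dec _).sum, Category.id_comp]
    _ = p.dm (S l) • ∑ b, (dec (S l ⊗ (Uᘁ : C))).prj b ≫ (dec (S l ⊗ (Uᘁ : C))).inc b := by
        rw [Preadditive.sum_comp, Finset.smul_sum]
        refine Finset.sum_congr rfl fun b _ => ?_
        rw [Category.assoc, key3, Linear.comp_smul]
    _ = _ := by rw [(dec _).sum]

/-- The integral of a natural family. -/
noncomputable def intg (S : Fin n → C) {A A' : C} (B : ∀ V : C, V ⊗ A ⟶ V ⊗ A') : A ⟶ A' :=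
  ∑ k, p.dm (S k) • p.ltr (S k) (B (S k))

/-- The core of the handle slide. -/
lemma slide_core {K L U A A' : C} (x : K ⊗ U ⟶ L) (y : L ⟶ K ⊗ U) (B : L ⊗ A ⟶ L ⊗ A') :
    p.ltr K ((α_ _ _ _).inv ≫ x ▷ A ≫ B ≫ y ▷ A' ≫ (α_ _ _ _).hom) =
      p.ltr (L ⊗ (Uᘁ : C)) ((𝟙 _ ⊗≫ L ◁ ε_ U (Uᘁ : C) ▷ A ⊗≫ B ⊗≫ L ◁ p.co' U ▷ A' ⊗≫ 𝟙 _) ≫
        (yt p y ≫ xt x) ▷ (U ⊗ A')) := by
  have h1 : (α_ K U A).inv ≫ x ▷ A ≫ B ≫ y ▷ A' ≫ (α_ K U A').hom =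
      xt x ▷ (U ⊗ A) ≫ ((𝟙 _ ⊗≫ L ◁ ε_ U (Uᘁ : C) ▷ A ⊗≫ B ⊗≫ L ◁ p.co' U ▷ A' ⊗≫ 𝟙 _) ≫
        (yt p y) ▷ (U ⊗ A')) := by
    calc
      _ = 𝟙 _ ⊗≫ (xt x ▷ U ⊗≫ L ◁ ε_ U (Uᘁ : C) ⊗≫ 𝟙 L) ▷ A ⊗≫ B ⊗≫
          (𝟙 L ⊗≫ L ◁ p.co' U ⊗≫ yt p y ▷ U) ▷ A' ⊗≫ 𝟙 _ := by
        rw [xt_bend, yt_bend]; monoidal
      _ = _ := by monoidal
  rw [h1, p.ltr_slide, comp_whiskerRight, Category.assoc]

include hS dec in
/-- handle slide -/
lemma handle_slide (hs : p.IsSpherical) {A A' : C} (B : ∀ V : C, V ⊗ A ⟶ V ⊗ A')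
    (hB : ∀ {V V' : C} (h : V ⟶ V'), h ▷ A ≫ B V' = B V ≫ h ▷ A') (U : C) :
    ∑ k, p.dm (S k) • p.ltr (S k) ((α_ _ _ _).inv ≫ B (S k ⊗ U) ≫ (α_ _ _ _).hom) =
      U ◁ intg p S B := by
  let D : ∀ k, Dec2 S (S k ⊗ U) := fun k => Dec2.ofDec (dec _)
  let Θ : ∀ l, (S l ⊗ (Uᘁ : C)) ⊗ (U ⊗ A) ⟶ (S l ⊗ (Uᘁ : C)) ⊗ (U ⊗ A') := fun l =>
    𝟙 _ ⊗≫ S l ◁ ε_ U (Uᘁ : C) ▷ A ⊗≫ B (S l) ⊗≫ S l ◁ p.co' U ▷ A' ⊗≫ 𝟙 _
  have step1 : ∀ k, B (S k ⊗ U) = ∑ l, ∑ b, (D k).x l b ▷ A ≫ B (S l) ≫ (D k).y l b ▷ A' := by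
    intro k
    have : ∀ l b, (D k).x l b ▷ A ≫ B (S l) ≫ (D k).y l b ▷ A' =
        ((D k).x l b ≫ (D k).y l b) ▷ A ≫ B (S k ⊗ U) := by
      intro l b
      rw [← hB, comp_whiskerRight, Category.assoc]
    simp_rw [this, ← Preadditive.sum_comp, ← sum_whiskerRight]
    rw [(D k).sum, id_whiskerRight, Category.id_comp]
  have step2 : ∀ k, p.ltr (S k) ((α_ _ _ _).inv ≫ B (S k ⊗ U) ≫ (α_ _ _ _).hom) =
      ∑ l, ∑ b, p.ltr (S l ⊗ (Uᘁ : C)) (Θ l ≫ (yt p ((D k).y l b) ≫ xt ((D k).x l b)) ▷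
        (U ⊗ A')) := by
    intro k
    rw [step1]
    simp only [Preadditive.sum_comp, Preadditive.comp_sum, Category.assoc]
    rw [p.ltr_sum]
    refine Finset.sum_congr rfl fun l _ => ?_
    rw [p.ltr_sum]
    refine Finset.sum_congr rfl fun b _ => ?_
    exact slide_core p _ _ _
  have step3 : ∀ l, ∑ k, ∑ b, p.dm (S k) • p.ltr (S l ⊗ (Uᘁ : C))
      (Θ l ≫ (yt p ((D k).y l b) ≫ xt ((D k).x l b)) ▷ (U ⊗ A')) =
      p.dm (S l) • p.ltr (S l ⊗ (Uᘁ : C)) (Θ l) := by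
    intro l
    have e := complete p hS dec hs l U D
    have e2 : p.ltr (S l ⊗ (Uᘁ : C)) (Θ l ≫ (∑ k, ∑ b : (D k).ix l, p.dm (S k) •
        (yt p ((D k).y l b) ≫ xt ((D k).x l b))) ▷ (U ⊗ A')) =
        p.ltr (S l ⊗ (Uᘁ : C)) (Θ l ≫ (p.dm (S l) • 𝟙 (S l ⊗ (Uᘁ : C))) ▷ (U ⊗ A')) := by
      rw [e]
    simp only [sum_whiskerRight, MonoidalLinear.smul_whiskerRight, Preadditive.comp_sum,
      Linear.comp_smul, id_whiskerRight, Category.comp_id, p.ltr_smul, p.ltr_sum] at e2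
    exact e2
  have step4 : ∀ l, p.ltr (S l ⊗ (Uᘁ : C)) (Θ l) = U ◁ p.ltr (S l) (B (S l)) := by
    intro l
    rw [p.ltr_tensor, ← p.ltr_dual]
    congr 1
    have e1 : (α_ _ _ _).inv ≫ Θ l ≫ (α_ _ _ _).hom =
        S l ◁ ((α_ _ _ _).inv ≫ ε_ U (Uᘁ : C) ▷ A ≫ (λ_ A).hom) ≫ B (S l) ≫
        S l ◁ ((λ_ A').inv ≫ p.co' U ▷ A' ≫ (α_ _ _ _).hom) := by
      simp only [Θ]
      monoidal
    rw [e1, p.ltr_pre, p.ltr_post]
    simp only [Category.assoc]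
  calc _ = ∑ k, ∑ l, ∑ b, p.dm (S k) • p.ltr (S l ⊗ (Uᘁ : C))
        (Θ l ≫ (yt p ((D k).y l b) ≫ xt ((D k).x l b)) ▷ (U ⊗ A')) := by
        refine Finset.sum_congr rfl fun k _ => ?_
        rw [step2, Finset.smul_sum]
        refine Finset.sum_congr rfl fun l _ => ?_
        rw [Finset.smul_sum]
    _ = ∑ l, p.dm (S l) • U ◁ p.ltr (S l) (B (S l)) := by
        rw [Finset.sum_comm]
        refine Finset.sum_congr rfl fun l _ => ?_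
        rw [step3, step4]
    _ = _ := by
        unfold intg
        rw [whiskerLeft_sum]
        simp only [MonoidalLinear.whiskerLeft_smul]

end

end Run7.h292
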