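import Pool.Agent.Run7.h292.Avg

/-!
The averaging operator on the centre and the trace formula.
-/

set_option autoImplicit false
set_option linter.unusedSectionVars false

open CategoryTheory CategoryTheory.Limits MonoidalCategory ExactPairing
open Pool.Agent.Helper781.Fusion (Dec IsSimpleList exists_scalar finrank_simple hom_zero sum_dec)

namespace Run7.h292

universe v u

section

variable {C : Type u} [Category.{v} C] [Abelian C] [Linear ℂ C]
  [MonoidalCategory C] [MonoidalPreadditive C] [MonoidalLinear ℂ C] [RigidCategory C]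
  [hfd : ∀ X Y : C, FiniteDimensional ℂ (X ⟶ Y)] [Simple (𝟙_ C)] (p : Pivotal C)
variable {n : ℕ} {S : Fin n → C} (hS : IsSimples S) (dec : ∀ Z, Dec S Z)

/-- conjugation by the half-braidings -/
noncomputable def BV (W W' : Center C) (f : W.1 ⟶ W'.1) (V : C) : V ⊗ W.1 ⟶ V ⊗ W'.1 :=
  (W.2.β V).inv ≫ f ▷ V ≫ (W'.2.β V).hom

lemma β_inv_nat (W : Center C) {V V' : C} (h : V ⟶ V') :
    h ▷ W.1 ≫ (W.2.β V').inv = (W.2.β V).inv ≫ W.1 ◁ h := by
  rw [Iso.eq_inv_comp, ← Category.assoc, Iso.comp_inv_eq, W.2.naturality]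

lemma BV_nat (W W' : Center C) (f : W.1 ⟶ W'.1) {V V' : C} (h : V ⟶ V') :
    h ▷ W.1 ≫ BV W W' f V' = BV W W' f V ≫ h ▷ W'.1 := by
  unfold BV
  rw [← Category.assoc, β_inv_nat, Category.assoc, Category.assoc, Category.assoc,
    ← W'.2.naturality, whisker_exchange_assoc]

lemma BV_tensor (W W' : Center C) (f : W.1 ⟶ W'.1) (V U : C) :
    BV W W' f (V ⊗ U) = (α_ _ _ _).hom ≫ V ◁ (W.2.β U).inv ≫ (α_ _ _ _).inv ≫
      BV W W' f V ▷ U ≫ (α_ _ _ _).hom ≫ V ◁ (W'.2.β U).hom ≫ (α_ _ _ _).inv := by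
  have h1 : (W.2.β (V ⊗ U)).inv = (α_ _ _ _).hom ≫ V ◁ (W.2.β U).inv ≫ (α_ _ _ _).inv ≫
      (W.2.β V).inv ▷ U ≫ (α_ _ _ _).hom := by
    rw [← cancel_epi (W.2.β (V ⊗ U)).hom, Iso.hom_inv_id, W.2.monoidal]
    simp
  unfold BV
  rw [h1, W'.2.monoidal]
  simp only [comp_whiskerRight, Category.assoc, whiskerRight_tensor]
  simp

/-- averaging over the centre -/
noncomputable def EE (S : Fin n → C) (W W' : Center C) (f : W.1 ⟶ W'.1) : W.1 ⟶ W'.1 :=
  intg p S (BV W W' f)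

include hS dec in
/-- the average is a morphism of the centre -/
lemma EE_comm (hs : p.IsSpherical) (W W' : Center C) (f : W.1 ⟶ W'.1) (U : C) :
    EE p S W W' f ▷ U ≫ (W'.2.β U).hom = (W.2.β U).hom ≫ U ◁ EE p S W W' f := by
  have h := handle_slide p hS dec hs (BV W W' f) (fun h => BV_nat W W' f h) U
  have h2 : ∀ k, p.ltr (S k) ((α_ _ _ _).inv ≫ BV W W' f (S k ⊗ U) ≫ (α_ _ _ _).hom) =
      (W.2.β U).inv ≫ (p.ltr (S k) (BV W W' f (S k)) ▷ U) ≫ (W'.2.β U).hom := by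
    intro k
    rw [← p.ltr_whisker, ← p.ltr_post, ← p.ltr_pre, BV_tensor]
    congr 1
    simp
  simp_rw [h2] at h
  change _ = U ◁ EE p S W W' f at h
  rw [← h]
  have h3 : ∀ k, p.dm (S k) • (W.2.β U).inv ≫ (p.ltr (S k) (BV W W' f (S k)) ▷ U) ≫
      (W'.2.β U).hom = (W.2.β U).inv ≫ ((p.dm (S k) • p.ltr (S k) (BV W W' f (S k))) ▷ U) ≫
      (W'.2.β U).hom := by
    intro k
    simp
  simp_rw [h3]
  rw [← Preadditive.comp_sum, ← Preadditive.sum_comp, ← sum_whiskerRight]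
  simp only [Iso.hom_inv_id_assoc]
  rfl

lemma EE_pre (W₀ W W' : Center C) (g : W₀ ⟶ W) (f : W.1 ⟶ W'.1) :
    EE p S W₀ W' (g.f ≫ f) = g.f ≫ EE p S W W' f := by
  unfold EE intg
  rw [Preadditive.comp_sum]
  refine Finset.sum_congr rfl fun k _ => ?_
  rw [Linear.comp_smul, ← p.ltr_pre]
  congr 2
  unfold BV
  rw [comp_whiskerRight]
  have := g.comm (S k)
  have h2 : (W₀.2.β (S k)).inv ≫ g.f ▷ S k = S k ◁ g.f ≫ (W.2.β (S k)).inv := by
    rw [Iso.inv_comp_eq, ← Category.assoc, ← this, Category.assoc, Iso.hom_inv_id,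
      Category.comp_id]
  rw [Category.assoc, ← Category.assoc, h2, Category.assoc]

lemma EE_post (W W' W₁ : Center C) (f : W.1 ⟶ W'.1) (g : W' ⟶ W₁) :
    EE p S W W₁ (f ≫ g.f) = EE p S W W' f ≫ g.f := by
  unfold EE intg
  rw [Preadditive.sum_comp]
  refine Finset.sum_congr rfl fun k _ => ?_
  rw [Linear.smul_comp, ← p.ltr_post]
  congr 2
  unfold BV
  rw [comp_whiskerRight, Category.assoc, Category.assoc, Category.assoc, g.comm]

/-- the global dimension -/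
noncomputable def gd (S : Fin n → C) : ℂ := ∑ k, p.dm (S k) ^ 2

lemma EE_central (W W' : Center C) (g : W ⟶ W') : EE p S W W' g.f = gd p S • g.f := by
  unfold EE intg gd
  rw [Finset.sum_smul]
  refine Finset.sum_congr rfl fun k _ => ?_
  have h1 : BV W W' g.f (S k) = S k ◁ g.f := by
    unfold BV
    rw [g.comm, Iso.inv_hom_id_assoc]
  rw [h1, p.ltr_whiskerLeft, smul_smul, sq]

lemma tr_EE (W : Center C) (f : W.1 ⟶ W.1) : p.tr W.1 (EE p S W W f) = gd p S * p.tr W.1 f := by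
  unfold EE intg gd
  rw [map_sum, Finset.sum_mul]
  refine Finset.sum_congr rfl fun k _ => ?_
  rw [map_smul, ← p.tr_ltr]
  unfold BV
  rw [p.tr_comm, Category.assoc, Iso.hom_inv_id, Category.comp_id, p.tr_ltr, p.ltr_tr, map_smul,
    smul_eq_mul, smul_eq_mul]
  unfold Pivotal.dm
  ring

/-! ### the projection `T X ⟶ X` -/

variable {o : Fin n} (uo : S o ≅ 𝟙_ C)

open Classical in
/-- the map `S k ⟶ 1` -/
noncomputable def vk (uo : S o ≅ 𝟙_ C) (k : Fin n) : S k ⟶ 𝟙_ C :=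
  if h : k = o then eqToHom (by rw [h]) ≫ uo.hom else 0

open Classical in
/-- the map `1 ⟶ S k` -/
noncomputable def wk (uo : S o ≅ 𝟙_ C) (k : Fin n) : 𝟙_ C ⟶ S k :=
  if h : k = o then uo.inv ≫ eqToHom (by rw [h]) else 0

lemma vk_o : vk uo o = uo.hom := by
  unfold vk
  simp

lemma wk_o : wk uo o = uo.inv := by
  unfold wk
  simp

/-- the swap through the unit component -/
noncomputable def aa (uo : S o ≅ 𝟙_ C) (X : C) (k : Fin n) : X ⊗ S k ⟶ S k ⊗ X :=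
  X ◁ vk uo k ≫ (ρ_ X).hom ≫ (λ_ X).inv ≫ wk uo k ▷ X

/-- the swap through the unit component, for all objects -/
noncomputable def aU (dec : ∀ Z, Dec S Z) (uo : S o ≅ 𝟙_ C) (X U : C) : X ⊗ U ⟶ U ⊗ X :=
  ext dec (aa uo X) U

lemma aU_eq (X U : C) : aU dec uo X U = ∑ b, X ◁ ((dec U).prj b ≫ vk uo _) ≫ (ρ_ X).hom ≫
    (λ_ X).inv ≫ (wk uo _ ≫ (dec U).inc b) ▷ X := by
  unfold aU ext aa
  refine Finset.sum_congr rfl fun b _ => ?_
  simp

include hS in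
lemma aU_nat (X : C) {U U' : C} (h : U ⟶ U') :
    X ◁ h ≫ aU dec uo X U' = aU dec uo X U ≫ h ▷ X := ext_nat hS dec _ h

lemma aU_zero (X U : C) (h : ∀ f : U ⟶ 𝟙_ C, f = 0) : aU dec uo X U = 0 := by
  rw [aU_eq]
  refine Finset.sum_eq_zero fun b _ => ?_
  rw [h ((dec U).prj b ≫ vk uo _)]
  simp

include hS in
lemma aU_unit (X : C) : aU dec uo X (𝟙_ C) = (ρ_ X).hom ≫ (λ_ X).inv := by
  have h1 := aU_nat hS dec uo X uo.hom
  have h2 : aU dec uo X (S o) = aa uo X o := ext_simple hS dec _ o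
  rw [h2] at h1
  unfold aa at h1
  rw [vk_o, wk_o] at h1
  simp only [Category.assoc] at h1
  rw [← comp_whiskerRight, uo.inv_hom_id, id_whiskerRight, Category.comp_id] at h1
  exact (cancel_epi (X ◁ uo.hom)).mp h1

/-- the projection `T X ⟶ X` -/
noncomputable def pi' (dec : ∀ Z, Dec S Z) (uo : S o ≅ 𝟙_ C) (X : C) : TX S X ⟶ X :=
  (ρ_ _).inv ≫ ind X (fun k => X ◁ (ρ_ (S k)).hom ≫ aU dec uo X (S k))

include hS in
lemma jj_pi (X U : C) : jj dec X U ≫ U ◁ pi' dec uo X = aU dec uo X U := by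
  have h := jj_ind hS dec X (A := 𝟙_ C) (B := X)
    (fun U => X ◁ (ρ_ U).hom ≫ aU dec uo X U) ?_ U
  · calc
      _ = 𝟙 _ ⊗≫ (𝟙 (X ⊗ (U ⊗ 𝟙_ C)) ⊗≫ jj dec X U ▷ (𝟙_ C) ⊗≫ U ◁ ind X (fun k =>
        X ◁ (ρ_ (S k)).hom ≫ aU dec uo X (S k))) := by
          unfold pi'; monoidal
      _ = _ := by rw [h]; monoidal
  · intro U U' f
    rw [Category.assoc, ← aU_nat hS, ← MonoidalCategory.whiskerLeft_comp_assoc,
      rightUnitor_naturality, MonoidalCategory.whiskerLeft_comp_assoc]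

include hS in
lemma eta_pi (X : C) : eta dec X ≫ pi' dec uo X = 𝟙 X := by
  unfold eta
  calc
    _ = (ρ_ X).inv ≫ (jj dec X (𝟙_ C) ≫ (𝟙_ C) ◁ pi' dec uo X) ≫ (λ_ _).hom := by
      simp
    _ = _ := by rw [jj_pi hS, aU_unit hS]; simp

/-- Maps from the left dual to the unit. -/
lemma leftDual_zero (U : C) (h : ∀ f : 𝟙_ C ⟶ U, f = 0) (f : (ᘁU : C) ⟶ 𝟙_ C) : f = 0 := by
  let E := tensorRightHomEquiv (𝟙_ C) (ᘁU : C) U (𝟙_ C)
  have h1 : E ((λ_ _).hom ≫ f) = E 0 := by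
    have e1 : E ((λ_ _).hom ≫ f) ≫ (λ_ U).hom = 0 := h _
    have e2 : E 0 ≫ (λ_ U).hom = 0 := h _
    rw [← cancel_mono (λ_ U).hom, e1, e2]
  have h2 := E.injective h1
  rw [← cancel_epi (λ_ _).hom, h2, comp_zero]

/-- the inverse half-braiding of the induced object -/
noncomputable def bti (dec : ∀ Z, Dec S Z) (X U : C) : U ⊗ TX S X ⟶ TX S X ⊗ U :=
  laxInv (bt dec X) U

include hS in
lemma bt_bti (X U : C) : bt dec X U ≫ bti dec X U = 𝟙 _ :=
  lax_hom_inv (bt dec X) (bt_nat hS dec X) (bt_unit hS dec X) (bt_mon hS dec X) U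

include hS in
lemma bti_bt (X U : C) : bti dec X U ≫ bt dec X U = 𝟙 _ :=
  lax_inv_hom (bt dec X) (bt_nat hS dec X) (bt_unit hS dec X) (bt_mon hS dec X) U

lemma Ind_β_inv (X U : C) : ((Ind hS dec X).2.β U).inv = bti dec X U := rfl

include hS in
lemma bti_nat (X : C) {V V' : C} (h : V ⟶ V') :
    h ▷ TX S X ≫ bti dec X V' = bti dec X V ≫ TX S X ◁ h :=
  β_inv_nat (Ind hS dec X) h

include hS in
lemma bti_unit (X : C) : bti dec X (𝟙_ C) = (λ_ _).hom ≫ (ρ_ _).inv := by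
  have h1 := bt_bti hS dec X (𝟙_ C)
  rw [bt_unit hS] at h1
  rw [← cancel_epi (λ_ (TX S X)).inv, ← cancel_epi (ρ_ (TX S X)).hom, ← Category.assoc, h1]
  simp

/-- the reversed swap -/
noncomputable def qU (dec : ∀ Z, Dec S Z) (uo : S o ≅ 𝟙_ C) (X U : C) :
    U ⊗ X ⟶ X ⊗ U :=
  U ◁ eta dec X ≫ bti dec X U ≫ pi' dec uo X ▷ U

include hS in
lemma qU_nat (X : C) {U V : C} (h : U ⟶ V) :
    h ▷ X ≫ qU dec uo X V = qU dec uo X U ≫ X ◁ h := by
  unfold qU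
  rw [← whisker_exchange_assoc, ← Category.assoc (h ▷ TX S X), bti_nat hS]
  simp only [Category.assoc]
  rw [whisker_exchange]

include hS in
lemma qU_unit (X : C) : qU dec uo X (𝟙_ C) = (λ_ _).hom ≫ (ρ_ _).inv := by
  unfold qU
  rw [bti_unit hS]
  calc
    _ = 𝟙 _ ⊗≫ (eta dec X ≫ pi' dec uo X) ⊗≫ 𝟙 _ := by monoidal
    _ = _ := by rw [eta_pi hS]; monoidal

include hS in
lemma qU_zero (X U : C) (h : ∀ f : 𝟙_ C ⟶ U, f = 0) : qU dec uo X U = 0 := by
  unfold qU bti laxInv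
  calc
    _ = 𝟙 _ ⊗≫ U ◁ (eta dec X ▷ (𝟙_ C) ≫ TX S X ◁ η_ (ᘁU : C) U) ⊗≫
        U ◁ bt dec X (ᘁU : C) ▷ U ⊗≫ (ε_ (ᘁU : C) U ▷ (TX S X ⊗ U) ≫ (𝟙_ C) ◁ pi' dec uo X ▷ U) ⊗≫
        𝟙 _ := by monoidal
    _ = 𝟙 _ ⊗≫ U ◁ X ◁ η_ (ᘁU : C) U ⊗≫
        U ◁ (((eta dec X ▷ (ᘁU : C) ≫ bt dec X (ᘁU : C)) ≫ (ᘁU : C) ◁ pi' dec uo X) ▷ U) ⊗≫
        ε_ (ᘁU : C) U ▷ (X ⊗ U) ⊗≫ 𝟙 _ := by
      rw [← whisker_exchange, ← whisker_exchange]; monoidal
    _ = _ := by
      rw [eta_bt hS, jj_pi hS, aU_zero dec uo X (ᘁU : C) (leftDual_zero U h)]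
      simp [monoidalComp]

include hS in
/-- the average of the projection to the unit component -/
lemma eta_EE (X : C) : eta dec X ≫ intg p S (fun V => bti dec X V ≫
    (pi' dec uo X ≫ eta dec X) ▷ V ≫ bt dec X V) = eta dec X := by
  have h0 : ∀ k, k ≠ o → ∀ f : 𝟙_ C ⟶ S k, f = 0 := by
    intro k hk f
    have := hom_zero hS.list hk.symm (uo.hom ≫ f)
    rw [← cancel_epi uo.hom, this, comp_zero]
  have h1 : ∀ k, S k ◁ eta dec X ≫ bti dec X (S k) ≫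
      (pi' dec uo X ≫ eta dec X) ▷ (S k) ≫ bt dec X (S k) =
      qU dec uo X (S k) ≫ jj dec X (S k) := by
    intro k
    unfold qU
    rw [comp_whiskerRight, Category.assoc, eta_bt hS]
    simp only [Category.assoc]
  unfold intg
  rw [Preadditive.comp_sum, Finset.sum_eq_single o]
  · have e8 : p.dm (S o) = 1 := p.dm_of_iso_unit uo
    rw [e8, one_smul, ← p.ltr_pre, h1]
    have e3 : qU dec uo X (S o) ≫ jj dec X (S o) =
        uo.hom ▷ X ≫ (𝟙_ C ◁ eta dec X) ≫ uo.inv ▷ TX S X := by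
      have e4 := qU_nat hS dec uo X uo.hom
      have e5 := jj_nat hS dec X uo.inv
      have e6 : qU dec uo X (S o) = uo.hom ▷ X ≫ qU dec uo X (𝟙_ C) ≫ X ◁ uo.inv := by
        rw [← Category.assoc, e4, Category.assoc, ← MonoidalCategory.whiskerLeft_comp,
          uo.hom_inv_id]
        simp
      rw [e6, Category.assoc, Category.assoc, e5, qU_unit hS]
      have e7 : ((λ_ X).hom ≫ (ρ_ X).inv) ≫ jj dec X (𝟙_ C) = 𝟙_ C ◁ eta dec X := by
        unfold eta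
        monoidal
      rw [← Category.assoc ((λ_ X).hom ≫ (ρ_ X).inv), e7]
    rw [e3, p.ltr_slide, Category.assoc, ← comp_whiskerRight, uo.inv_hom_id, id_whiskerRight,
      Category.comp_id, p.ltr_whiskerLeft, p.dm_unit, one_smul]
  · intro k _ hk
    rw [Linear.comp_smul, ← p.ltr_pre, h1, qU_zero hS dec uo X (S k) (h0 k hk), zero_comp]
    have e3 : p.ltr (S k) (0 : S k ⊗ X ⟶ S k ⊗ TX S X) = 0 := (p.ltrL _ _ _).map_zero
    rw [e3, smul_zero]
  · intro h; exact absurd (Finset.mem_univ _) h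

include hS in
lemma EE_pi_eta (hs : p.IsSpherical) (X : C) :
    intg p S (fun V => bti dec X V ≫
    (pi' dec uo X ≫ eta dec X) ▷ V ≫ bt dec X V) = 𝟙 (TX S X) := by
  have h1 := lift_unique' hS dec (Ind hS dec X)
    (intg p S (fun V => bti dec X V ≫ (pi' dec uo X ≫ eta dec X) ▷ V ≫ bt dec X V))
    (EE_comm p hS dec hs (Ind hS dec X) (Ind hS dec X) (pi' dec uo X ≫ eta dec X))
  have h2 := lift_unique' hS dec (Ind hS dec X) (𝟙 (TX S X)) (by
    intro U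
    change 𝟙 (TX S X) ▷ U ≫ bt dec X U = bt dec X U ≫ U ◁ 𝟙 _
    simp)
  have h3 : lift S (Ind hS dec X) (eta dec X) = 𝟙 (TX S X) :=
    (congrArg (lift S (Ind hS dec X)) (Category.comp_id (eta dec X))).symm.trans h2
  have h4 : lift S (Ind hS dec X) (eta dec X) =
      intg p S (fun V => bti dec X V ≫ (pi' dec uo X ≫ eta dec X) ▷ V ≫ bt dec X V) :=
    (congrArg (lift S (Ind hS dec X)) (eta_EE p hS dec uo X)).symm.trans h1
  exact h4.symm.trans h3

include hS in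
/-- the trace formula -/
lemma tr_formula (hs : p.IsSpherical) (X : C) (a : TX S X ⟶ TX S X)
    (ha : ∀ U, a ▷ U ≫ bt dec X U = bt dec X U ≫ U ◁ a) :
    p.tr (TX S X) a = gd p S * p.tr X (eta dec X ≫ a ≫ pi' dec uo X) := by
  let W := Ind hS dec X
  let a' : W ⟶ W := ⟨a, ha⟩
  have h0 := EE_pre p (S := S) W W W a' (pi' dec uo X ≫ eta dec X)
  have h1 : a = EE p S W W (a ≫ (pi' dec uo X ≫ eta dec X)) := by
    refine ((Category.comp_id a).symm.trans ?_).trans h0.symm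
    exact congrArg (fun z => a ≫ z) (EE_pi_eta p hS dec uo hs X).symm
  have h2 := tr_EE p (S := S) W (a ≫ (pi' dec uo X ≫ eta dec X))
  have h3 : p.tr (TX S X) a = gd p S * p.tr (TX S X) (a ≫
      (pi' dec uo X ≫ eta dec X)) := (congrArg (p.tr (TX S X)) h1).trans h2
  rw [h3, ← Category.assoc, p.tr_comm, ← Category.assoc]

end

end Run7.h292
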