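import Mathlib

/-!
Definitions for the global dimensions of spherical fusion categories.
-/

set_option autoImplicit false

open CategoryTheory CategoryTheory.Limits MonoidalCategory

namespace Run7.h292

universe v u

/-- The canonical isomorphism `(X ⊗ Y)** ≅ X** ⊗ Y**` in a monoidal category with right duals
(written `Xᘁ`): both objects are right duals of `(X ⊗ Y)*`, the second one by way of
`(X ⊗ Y)* ≅ Y* ⊗ X*`. -/
noncomputable def doubleDualTensorIso {C : Type u} [Category.{v} C] [MonoidalCategory C]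
    [RightRigidCategory C] (X Y : C) : ((X ⊗ Y)ᘁ)ᘁ ≅ (Xᘁ)ᘁ ⊗ (Yᘁ)ᘁ :=
  rightDualIso (HasRightDual.exact : ExactPairing ((X ⊗ Y)ᘁ) (((X ⊗ Y)ᘁ)ᘁ))
    (exactPairingCongrLeft (rightDualTensorIso X Y))

/-- A pivotal structure: a monoidal natural isomorphism `X ≅ X**`. (Compatibility with the unit
object is automatic.) -/
structure Pivotal (C : Type u) [Category.{v} C] [MonoidalCategory C]
    [RightRigidCategory C] where
  /-- the isomorphism `X ≅ X**` -/
  iso : ∀ X : C, X ≅ (Xᘁ)ᘁ
  /-- it is natural -/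
  naturality : ∀ {X Y : C} (f : X ⟶ Y), f ≫ (iso Y).hom = (iso X).hom ≫ (fᘁ)ᘁ
  /-- it is monoidal -/
  tensor : ∀ X Y : C,
    (iso (X ⊗ Y)).hom ≫ (doubleDualTensorIso X Y).hom = (iso X).hom ⊗ₘ (iso Y).hom

/-- The quantum dimension of `X`, the trace of the pivotal isomorphism of `X`, as an endomorphism
of the unit object: `1 ⟶ X ⊗ X* ⟶ X** ⊗ X* ⟶ 1`. -/
noncomputable def Pivotal.qdim {C : Type u} [Category.{v} C] [MonoidalCategory C]
    [RightRigidCategory C] (p : Pivotal C) (X : C) : 𝟙_ C ⟶ 𝟙_ C :=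
  η_ X (Xᘁ) ≫ (p.iso X).hom ▷ (Xᘁ) ≫ ε_ (Xᘁ) ((Xᘁ)ᘁ)

/-- A pivotal structure is spherical if `X` and `X*` have the same quantum dimension. -/
def Pivotal.IsSpherical {C : Type u} [Category.{v} C] [MonoidalCategory C]
    [RightRigidCategory C] (p : Pivotal C) : Prop :=
  ∀ X : C, p.qdim X = p.qdim (Xᘁ)

/-- A fusion category over `ℂ`: an abelian `ℂ`-linear rigid monoidal category (with bilinear tensor
product) with finite dimensional Hom spaces in which every object is a finite direct sum of simple
objects, there are finitely many isomorphism classes of simple objects, and the unit is simple. -/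
structure IsFusion (C : Type u) [Category.{v} C] [Abelian C] [Linear ℂ C]
    [MonoidalCategory C] [MonoidalPreadditive C] [MonoidalLinear ℂ C] [RigidCategory C] : Prop where
  finiteDimensional_hom : ∀ X Y : C, FiniteDimensional ℂ (X ⟶ Y)
  semisimple : ∀ X : C, ∃ (n : ℕ) (S : Fin n → C) (b : Bicone S), (∀ i, Simple (S i)) ∧
    Nonempty b.IsBilimit ∧ Nonempty (X ≅ b.pt)
  finitely_many_simples : ∃ (n : ℕ) (S : Fin n → C), ∀ Y : C, Simple Y → ∃ i, Nonempty (Y ≅ S i)
  simple_unit : Simple (𝟙_ C)

/-- `S` is a complete list, without repetition, of representatives of the isomorphism classes of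
simple objects. -/
structure IsSimples {C : Type u} [Category.{v} C] [Abelian C] {n : ℕ} (S : Fin n → C) :
    Prop where
  simple : ∀ i, Simple (S i)
  inj : ∀ i j, Nonempty (S i ≅ S j) → i = j
  complete : ∀ Y : C, Simple Y → ∃ i, Nonempty (Y ≅ S i)

/-- The set of global dimensions `∑ dim(X)²` (the sum over the isomorphism classes of simple
objects, identified with a scalar by way of `End(1) = ℂ`) of spherical fusion categories over `ℂ`
which are real numbers. -/
def sphericalGlobalDims : Set ℝ :=
  {x | ∃ (C : Type u) (_ : Category.{v} C) (_ : Abelian C) (_ : Linear ℂ C)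
    (_ : MonoidalCategory C) (_ : MonoidalPreadditive C) (_ : MonoidalLinear ℂ C)
    (_ : RigidCategory C) (p : Pivotal C) (n : ℕ) (S : Fin n → C),
    IsFusion C ∧ p.IsSpherical ∧ IsSimples S ∧
    ∑ i, p.qdim (S i) ≫ p.qdim (S i) = (x : ℂ) • 𝟙 (𝟙_ C)}

end Run7.h292
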