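import Pool.Agent.Run7.h292.Ineq

/-!
Numerical data with duality.
-/

set_option autoImplicit false
set_option linter.unusedSectionVars false

open CategoryTheory CategoryTheory.Limits MonoidalCategory ExactPairing
open Pool.Agent.Helper781.Fusion (Dec IsSimpleList exists_dec finrank_simple hom_zero sum_dec)

namespace Run7.h292

universe v u

section

variable {C : Type u} [Category.{v} C] [Abelian C] [Linear ℂ C]
  [MonoidalCategory C] [MonoidalPreadditive C] [MonoidalLinear ℂ C] [RigidCategory C]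
  [hfd : ∀ X Y : C, FiniteDimensional ℂ (X ⟶ Y)] [Simple (𝟙_ C)] (p : Pivotal C)
variable {n : ℕ} {S : Fin n → C} (hS : IsSimples S) (dec : ∀ Z, Dec S Z) {o : Fin n}
  (uo : S o ≅ 𝟙_ C)

include uo in
lemma mult_unit_right (hS : IsSimples S) (i k : Fin n) :
    mult S i o k = if k = i then 1 else 0 := by
  unfold mult
  have e : S i ⊗ S o ≅ S i := whiskerLeftIso (S i) uo ≪≫ ρ_ (S i)
  have h := NN_iso (S k) e
  unfold NN at h
  rw [h, finrank_simple hS.list]

include uo in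
/-- the unit occurs in `S i ⊗ S j` if and only if `S j` is dual to `S i` -/
lemma mult_dual (hS : IsSimples S) (dec : ∀ Z, Dec S Z)
    {st : Fin n → Fin n} (hst : ∀ i, Nonempty (((S i)ᘁ : C) ≅ S (st i))) (i j : Fin n) :
    mult S i j o = if j = st i then 1 else 0 := by
  rw [mult_frob hst hS dec, mult_unit_right uo hS]

/-- the indicator of a self-dual object does not vanish -/
lemma tr_nu_ne_zero (hS : IsSimples S) (dec : ∀ Z, Dec S Z)
    {st : Fin n → Fin n} (hst : ∀ i, Nonempty (((S i)ᘁ : C) ≅ S (st i))) (k : Fin n)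
    (hk : st k = k) : p.tr (S k) (eta dec (S k) ≫ twX p S dec (S k) ≫
      twX p S dec (S k) ≫ pi' dec uo (S k)) ≠ 0 := by
  have := hS.simple k
  rw [eta_twX2_pi p hS, tr_aU2]
  rcases sum_rot p hS dec uo (S k) with ⟨b, hb, hsum⟩ | ⟨hno, hsum⟩
  · rw [hsum]
    have h1 : (wk uo _ ≫ (dec (S k ⊗ S k)).inc b) ≫ ((dec (S k ⊗ S k)).prj b ≫ vk uo _) =
        𝟙 _ := by
      rw [Category.assoc, ← Category.assoc ((dec (S k ⊗ S k)).inc b), (dec (S k ⊗ S k)).same,
        Category.id_comp, wk_vk uo _ hb]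
    rcases rot_sq p hS dec (S k) _ _ h1 with h | h
    · rw [h]; norm_num
    · rw [h]; norm_num
  · exfalso
    have h1 := mult_dual uo hS dec hst k k
    rw [if_pos hk.symm] at h1
    unfold mult at h1
    rw [← Pool.Agent.Helper781.Fusion.card_idx hS.list (dec (S k ⊗ S k)) o] at h1
    have h2 : (Finset.univ.filter fun b => (dec (S k ⊗ S k)).idx b = o) = ∅ := by
      rw [Finset.filter_eq_empty_iff]
      exact fun b _ => hno b
    rw [h2] at h1
    simp at h1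

/-- The numerical data of a spherical fusion category, with duality. -/
theorem exists_data2 (hS : IsSimples S) (dec : ∀ Z, Dec S Z) (hs : p.IsSpherical)
    (x : ℝ) (hx : gd p S = x) (hx0 : x ≠ 0) :
    ∃ (o : Fin n) (d : Fin n → ℂ) (ν : Fin n → ℤ) (N : Fin n → Fin n → Fin n → ℕ)
      (star : Fin n → Fin n),
      (d o = 1 ∧ ν o = 1 ∧ (∀ i, ν i = 0 ∨ ν i = 1 ∨ ν i = -1) ∧ (∀ i, d i ≠ 0) ∧
      (∀ i j, d i * d j = ∑ k, (N i j k : ℂ) * d k) ∧ ∑ i, d i ^ 2 = (x : ℂ) ∧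
      (∀ (φ : ℂ ≃+* ℂ) (i : Fin n), (φ (d i)).im = 0) ∧
      ∀ φ : ℂ ≃+* ℂ, 8 * ((φ (x : ℂ)).re / x) ^ 2 ≤
        3 * (φ (x : ℂ)).re ^ 2 + 4 * (φ (x : ℂ)).re +
          (φ (x : ℂ)).re * ∑ i, (ν i : ℝ) * (φ (d i)).re) ∧
      (∀ i j, N i j o = if j = star i then 1 else 0) ∧ (∀ i, d (star i) = d i) ∧
      (∀ i, ν i = 0 → star i ≠ i) ∧ (∀ i j k, N i j k = N (star i) k j) ∧
      (∀ i k, N i o k = if k = i then 1 else 0) := by
  obtain ⟨o, ⟨uo'⟩⟩ := hS.complete (𝟙_ C) inferInstance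
  let uo := uo'.symm
  obtain ⟨st, hst⟩ := exists_st dec hS
  obtain ⟨ν, h1, h2, h3⟩ := exists_nu p hS dec uo
  have hc := isChar_dm p uo hS dec hs hst
  obtain ⟨h4, h5⟩ := data_aux p hS dec hs uo hst ν h3 x hx hx0
  refine ⟨o, fun i => p.dm (S i), ν, mult S, st, ⟨hc.one, h2, h1, fun i => ?_, hc.mul, hx, h4,
    h5⟩, fun i j => mult_dual uo hS dec hst i j, hc.star, fun i hi hst' => ?_,
    fun i j k => mult_frob hst hS dec i j k, fun i k => mult_unit_right uo hS i k⟩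
  · have := hS.simple i
    exact p.dm_ne_zero hS dec (S i)
  · refine tr_nu_ne_zero p uo hS dec hst i hst' ?_
    rw [h3, hi]
    simp

end

/-- The numerical data of a spherical fusion category of global dimension `x`, with duality. -/
theorem exists_data3 {x : ℝ} (hx : x ∈ sphericalGlobalDims.{v, u}) :
    ∃ (n : ℕ) (o : Fin n) (d : Fin n → ℂ) (ν : Fin n → ℤ) (N : Fin n → Fin n → Fin n → ℕ)
      (star : Fin n → Fin n),
      (d o = 1 ∧ ν o = 1 ∧ (∀ i, ν i = 0 ∨ ν i = 1 ∨ ν i = -1) ∧ (∀ i, d i ≠ 0) ∧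
      (∀ i j, d i * d j = ∑ k, (N i j k : ℂ) * d k) ∧ ∑ i, d i ^ 2 = (x : ℂ) ∧
      (∀ (φ : ℂ ≃+* ℂ) (i : Fin n), (φ (d i)).im = 0) ∧
      ∀ φ : ℂ ≃+* ℂ, 8 * (φ (x : ℂ)).re ^ 2 / x ^ 2 ≤
        3 * (φ (x : ℂ)).re ^ 2 + 4 * (φ (x : ℂ)).re +
          (φ (x : ℂ)).re * ∑ i, (ν i : ℝ) * (φ (d i)).re) ∧
      (∀ i j, N i j o = if j = star i then 1 else 0) ∧ (∀ i, d (star i) = d i) ∧
      (∀ i, ν i = 0 → star i ≠ i) ∧ (∀ i j k, N i j k = N (star i) k j) ∧
      (∀ i k, N i o k = if k = i then 1 else 0) := by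
  obtain ⟨C, _, _, _, _, _, _, _, p, n, S, hF, hs, hS, hsum⟩ := hx
  have hfd := hF.finiteDimensional_hom
  have hunit := hF.simple_unit
  have dec : ∀ Z, Dec S Z := fun Z => (exists_dec hS.list hF.semisimple Z).some
  have hdm : ∀ X : C, p.qdim X = p.dm X • 𝟙 (𝟙_ C) := by
    intro X
    rw [hs X, ← p.trL_id X]
    exact p.trL_eq_smul (𝟙 X)
  have hgd : gd p S = x := by
    have h1 : ∑ i, p.qdim (S i) ≫ p.qdim (S i) = gd p S • 𝟙 (𝟙_ C) := by
      unfold gd
      rw [Finset.sum_smul]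
      refine Finset.sum_congr rfl fun i _ => ?_
      rw [hdm]
      simp [smul_smul, sq]
    rw [hsum] at h1
    have h2 : (gd p S - x) • 𝟙 (𝟙_ C) = 0 := by rw [sub_smul, h1, sub_self]
    have h3 := (smul_eq_zero.mp h2).resolve_right (id_nonzero (𝟙_ C))
    linear_combination h3
  obtain ⟨o, ⟨uo'⟩⟩ := hS.complete (𝟙_ C) inferInstance
  obtain ⟨st, hst⟩ := exists_st dec hS
  have hc := isChar_dm p uo'.symm hS dec hs hst
  have hreal : ∀ i, (p.dm (S i)).im = 0 :=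
    real_of_fusion (N := mult S) (st := st) (o := o) hc.one hc.mul hc.star
      (fun i j k => mult_frob hst hS dec i j k)
  have hx1 : 1 ≤ x := by
    have h1 : x = ∑ i, (p.dm (S i)).re ^ 2 := by
      have h2 := congrArg Complex.re hgd
      rw [Complex.ofReal_re] at h2
      rw [← h2]
      unfold gd
      rw [Complex.re_sum]
      refine Finset.sum_congr rfl fun i _ => ?_
      rw [sq, Complex.mul_re, hreal i]
      ring
    rw [h1]
    have h3 := Finset.single_le_sum (f := fun i => (p.dm (S i)).re ^ 2)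
      (fun i _ => sq_nonneg _) (Finset.mem_univ o)
    have h4 : p.dm (S o) = 1 := hc.one
    simpa [h4] using h3
  have hx0 : x ≠ 0 := by positivity
  obtain ⟨o, d, ν, N, star, ⟨h1, h2, h3, h4, h5, h6, h7, h8⟩, h9⟩ :=
    exists_data2 p hS dec hs x hgd hx0
  refine ⟨n, o, d, ν, N, star, ⟨h1, h2, h3, h4, h5, h6, h7, fun φ => ?_⟩, h9⟩
  have := h8 φ
  rw [div_pow] at this
  rw [mul_div_assoc]
  exact this

end Run7.h292
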