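import Pool.Agent.Run7.h292.Ineq
import Pool.Agent.Run7.h364.DimFin

/-!
Finiteness of the set of small global dimensions of spherical fusion categories.
-/

set_option autoImplicit false
set_option linter.unusedSectionVars false

open CategoryTheory CategoryTheory.Limits MonoidalCategory ExactPairing
open Pool.Agent.Helper781.Fusion (Dec IsSimpleList exists_dec)

namespace Run7.h292

universe v u

/-- The numerical data of a spherical fusion category of global dimension `x`. -/
theorem exists_dimData {x : ℝ} (hx : x ∈ sphericalGlobalDims.{v, u}) :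
    ∃ n o d ν, Run7.h364.DimData x n o d ν := by
  obtain ⟨C, _, _, _, _, _, _, _, p, n, S, hF, hs, hS, hsum⟩ := hx
  have hfd := hF.finiteDimensional_hom
  have hunit := hF.simple_unit
  have dec : ∀ Z, Dec S Z := fun Z => (exists_dec hS.list hF.semisimple Z).some
  have hdm : ∀ X : C, p.qdim X = p.dm X • 𝟙 (𝟙_ C) := by
    intro X
    rw [hs X, ← p.trL_id X]
    exact p.trL_eq_smul (𝟙 X)
  have hgd : gd p S = x := by
    have h1 : ∑ i, p.qdim (S i) ≫ p.qdim (S i) = gd p S • 𝟙 (𝟙_ C) := by
      unfold gd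
      rw [Finset.sum_smul]
      refine Finset.sum_congr rfl fun i _ => ?_
      rw [hdm]
      simp [smul_smul, sq]
    rw [hsum] at h1
    have h2 : (gd p S - x) • 𝟙 (𝟙_ C) = 0 := by rw [sub_smul, h1, sub_self]
    have h3 := (smul_eq_zero.mp h2).resolve_right (id_nonzero (𝟙_ C))
    linear_combination h3
  obtain ⟨o, ⟨uo'⟩⟩ := hS.complete (𝟙_ C) inferInstance
  obtain ⟨st, hst⟩ := exists_st dec hS
  have hc := isChar_dm p uo'.symm hS dec hs hst
  have hreal : ∀ i, (p.dm (S i)).im = 0 :=
    real_of_fusion (N := mult S) (st := st) (o := o) hc.one hc.mul hc.star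
      (fun i j k => mult_frob hst hS dec i j k)
  have hx1 : 1 ≤ x := by
    have h1 : x = ∑ i, (p.dm (S i)).re ^ 2 := by
      have h2 := congrArg Complex.re hgd
      rw [Complex.ofReal_re] at h2
      rw [← h2]
      unfold gd
      rw [Complex.re_sum]
      refine Finset.sum_congr rfl fun i _ => ?_
      rw [sq, Complex.mul_re, hreal i]
      ring
    rw [h1]
    have h3 := Finset.single_le_sum (f := fun i => (p.dm (S i)).re ^ 2)
      (fun i _ => sq_nonneg _) (Finset.mem_univ o)
    have h4 : p.dm (S o) = 1 := hc.one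
    simpa [h4] using h3
  have hx0 : x ≠ 0 := by positivity
  obtain ⟨o, d, ν, N, h1, h2, h3, h4, h5, h6, h7, h8⟩ := exists_data p hS dec hs x hgd hx0
  refine ⟨n, o, d, ν, h1, h2, h3, h4, ⟨N, h5⟩, h6, h7, fun φ => ?_⟩
  have := h8 φ
  rw [div_pow] at this
  rw [mul_div_assoc]
  exact this

/-- There are only finitely many global dimensions of spherical fusion categories at most
`36 / 25`. -/
theorem finite_small : (sphericalGlobalDims.{v, u} ∩ Set.Iic (36 / 25)).Finite :=
  Run7.h364.finite_dimData.subset fun _ hx => ⟨hx.2, exists_dimData hx.1⟩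

theorem not_accPt_sqrt_two : ¬ AccPt (Real.sqrt 2) (Filter.principal sphericalGlobalDims.{v, u}) := by
  intro h
  have h1 : Set.Iio (36 / 25 : ℝ) ∈ nhds (Real.sqrt 2) := by
    refine Iio_mem_nhds ?_
    rw [Real.sqrt_lt' (by norm_num)]
    norm_num
  have h2 : AccPt (Real.sqrt 2) (Filter.principal
      (sphericalGlobalDims.{v, u} ∩ Set.Iic (36 / 25))) := by
    rw [accPt_iff_nhds] at h ⊢
    intro U hU
    obtain ⟨y, hy, hne⟩ := h (U ∩ Set.Iio (36 / 25)) (Filter.inter_mem hU h1)
    exact ⟨y, ⟨hy.1.1, hy.2, Set.mem_Iic.mpr (le_of_lt (Set.mem_Iio.mp hy.1.2))⟩, hne⟩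
  exact Set.Infinite.of_accPt h2 finite_small

end Run7.h292
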