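import Mathlib

/-!
# The canonical nonclassical Hopf-Galois structure: definitions and basic facts
-/

set_option autoImplicit false

open MonoidAlgebra

noncomputable section

namespace Run7.h292.HG

/-- The left regular representation `λ : G → Perm(G)`, `λ(g)(h) = g h`. -/
def lam (G : Type*) [Group G] : G →* Equiv.Perm G := MulAction.toPermHom G G

/-- The subgroup `N = λ(G)` of `Perm(G)`. -/
abbrev N (G : Type*) [Group G] : Subgroup (Equiv.Perm G) := (lam G).range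

/-- Conjugation `n ↦ λ(g) n λ(g)⁻¹` on `N`. -/
def conjN {G : Type*} [Group G] (g : G) : N G →* N G :=
  (MulAut.conj ((lam G).rangeRestrict g)).toMonoidHom

section defs

variable (K L : Type*) [Field K] [Field L] [Algebra K L]

variable {K L} in
/-- The action of `g ∈ G = Gal(L/K)` on `L[N]`:
`g · ∑ cₙ n = ∑ g(cₙ) λ(g) n λ(g)⁻¹`. -/
def galAct (g : L ≃ₐ[K] L) :
    MonoidAlgebra L (N (L ≃ₐ[K] L)) →ₐ[K] MonoidAlgebra L (N (L ≃ₐ[K] L)) :=
  (mapDomainAlgHom K L (conjN g)).comp (mapAlgHom (N (L ≃ₐ[K] L)) (g : L →ₐ[K] L))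

/-- The `K`-algebra `H_λ = L[N]^G`. -/
def Hlam : Subalgebra K (MonoidAlgebra L (N (L ≃ₐ[K] L))) :=
  ⨅ g : L ≃ₐ[K] L, AlgHom.equalizer (galAct g) (AlgHom.id K _)

variable {K L} in
/-- The action of `h = ∑ cₙ n` on `L`: `h · x = ∑ cₙ (n⁻¹(1_G))(x)`. -/
def act (h : MonoidAlgebra L (N (L ≃ₐ[K] L))) (x : L) : L :=
  h.coeff.sum fun n c => c * ((n⁻¹ : Equiv.Perm (L ≃ₐ[K] L)) 1) x

end defs

section basic

/-- the isomorphism `G ≃ N` -/
def rr (G : Type*) [Group G] : G ≃* N G :=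
  MonoidHom.ofInjective (f := lam G) (fun a b h => by
    have := congrArg (fun e : Equiv.Perm G => e 1) h
    simpa [lam] using this)

lemma rr_coe {G : Type*} [Group G] (g : G) : ((rr G g : N G) : Equiv.Perm G) = lam G g := rfl

lemma rangeRestrict_eq {G : Type*} [Group G] (g : G) : (lam G).rangeRestrict g = rr G g := rfl

lemma conjN_rr {G : Type*} [Group G] (g a : G) : conjN g (rr G a) = rr G (g * a * g⁻¹) := by
  rw [map_mul, map_mul, map_inv]; rfl

variable {K L : Type*} [Field K] [Field L] [Algebra K L]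

lemma conjN_injective {G : Type*} [Group G] (g : G) : Function.Injective (conjN g) :=
  (MulAut.conj ((lam G).rangeRestrict g)).injective

lemma galAct_coeff (g : L ≃ₐ[K] L) (h : MonoidAlgebra L (N (L ≃ₐ[K] L)))
    (n : N (L ≃ₐ[K] L)) : (galAct g h).coeff (conjN g n) = g (h.coeff n) := by
  show (mapDomain (conjN g) (mapAlgHom (N (L ≃ₐ[K] L)) (g : L →ₐ[K] L) h)).coeff (conjN g n) = _
  rw [coeff_mapDomain, Finsupp.mapDomain_apply (conjN_injective g)]
  simp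

lemma mem_Hlam {h : MonoidAlgebra L (N (L ≃ₐ[K] L))} :
    h ∈ Hlam K L ↔ ∀ g a : L ≃ₐ[K] L,
      g (h.coeff (rr _ a)) = h.coeff (rr _ (g * a * g⁻¹)) := by
  simp only [Hlam, Algebra.mem_iInf]
  refine forall_congr' fun g => ?_
  rw [AlgHom.mem_equalizer]
  constructor
  · intro e a
    rw [← galAct_coeff, e, AlgHom.id_apply, conjN_rr]
  · intro e
    refine MonoidAlgebra.ext (Finsupp.ext fun n => ?_)
    obtain ⟨a, rfl⟩ := (rr (L ≃ₐ[K] L)).surjective n
    obtain ⟨b, rfl⟩ : ∃ b, a = g * b * g⁻¹ := ⟨g⁻¹ * a * g, by group⟩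
    rw [AlgHom.id_apply, ← e b, ← conjN_rr, galAct_coeff]

lemma act_eq [Fintype (L ≃ₐ[K] L)] (h : MonoidAlgebra L (N (L ≃ₐ[K] L))) (x : L) :
    act h x = ∑ a : L ≃ₐ[K] L, h.coeff (rr _ a) * a⁻¹ x := by
  classical
  have : Fintype (N (L ≃ₐ[K] L)) := Fintype.ofEquiv _ (rr (L ≃ₐ[K] L)).toEquiv
  rw [act, Finsupp.sum_fintype _ _ (fun n => by rw [zero_mul]),
    ← (rr (L ≃ₐ[K] L)).toEquiv.sum_comp]
  refine Finset.sum_congr rfl fun a _ => ?_
  show h.coeff (rr _ a) * ((((rr _ a : N _) : Equiv.Perm _)⁻¹ : Equiv.Perm (L ≃ₐ[K] L)) 1) x = _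
  have e : (((rr _ a : N _) : Equiv.Perm _)⁻¹ : Equiv.Perm (L ≃ₐ[K] L)) 1 = a⁻¹ := by
    rw [rr_coe, ← map_inv]
    exact mul_one a⁻¹
  rw [e]

/-- the element of `L[N]` with coefficient `c a` at `λ(a)` -/
def mk [Finite (L ≃ₐ[K] L)] (c : (L ≃ₐ[K] L) → L) : MonoidAlgebra L (N (L ≃ₐ[K] L)) :=
  haveI : Finite (N (L ≃ₐ[K] L)) := Finite.of_equiv _ (rr (L ≃ₐ[K] L)).toEquiv
  .ofCoeff (Finsupp.equivFunOnFinite.symm fun n => c ((rr _).symm n))

lemma mk_coeff [Finite (L ≃ₐ[K] L)] (c : (L ≃ₐ[K] L) → L) (a : L ≃ₐ[K] L) :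
    (mk c).coeff (rr _ a) = c a := by
  show c ((rr _).symm (rr _ a)) = c a
  rw [MulEquiv.symm_apply_apply]

lemma act_add (h h' : MonoidAlgebra L (N (L ≃ₐ[K] L))) [Finite (L ≃ₐ[K] L)] (x : L) :
    act (h + h') x = act h x + act h' x := by
  have := Fintype.ofFinite (L ≃ₐ[K] L)
  simp only [act_eq, ← Finset.sum_add_distrib, ← add_mul]
  rfl

lemma act_smul (r : K) (h : MonoidAlgebra L (N (L ≃ₐ[K] L))) [Finite (L ≃ₐ[K] L)] (x : L) :
    act (r • h) x = r • act h x := by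
  have := Fintype.ofFinite (L ≃ₐ[K] L)
  simp only [act_eq, Finset.smul_sum, ← smul_mul_assoc]
  rfl

lemma act_map_add (h : MonoidAlgebra L (N (L ≃ₐ[K] L))) [Finite (L ≃ₐ[K] L)] (x y : L) :
    act h (x + y) = act h x + act h y := by
  have := Fintype.ofFinite (L ≃ₐ[K] L)
  simp only [act_eq, ← Finset.sum_add_distrib, ← mul_add, map_add]

lemma act_map_smul (h : MonoidAlgebra L (N (L ≃ₐ[K] L))) [Finite (L ≃ₐ[K] L)] (r : K) (x : L) :
    act h (r • x) = r • act h x := by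
  have := Fintype.ofFinite (L ≃ₐ[K] L)
  simp only [act_eq, Finset.smul_sum, map_smul, mul_smul_comm]

/-- `act h` as a linear map, linear in `h` -/
def actL [Finite (L ≃ₐ[K] L)] : MonoidAlgebra L (N (L ≃ₐ[K] L)) →ₗ[K] (L →ₗ[K] L) where
  toFun h := { toFun := act h, map_add' := act_map_add h, map_smul' := act_map_smul h }
  map_add' h h' := LinearMap.ext fun x => act_add h h' x
  map_smul' r h := LinearMap.ext fun x => act_smul r h x

@[simp] lemma actL_apply [Finite (L ≃ₐ[K] L)] (h : MonoidAlgebra L (N (L ≃ₐ[K] L))) (x : L) :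
    actL h x = act h x := rfl

lemma act_one [Finite (L ≃ₐ[K] L)] (x : L) :
    act (1 : MonoidAlgebra L (N (L ≃ₐ[K] L))) x = x := by
  rw [act, MonoidAlgebra.one_def, coeff_single, Finsupp.sum_single_index (by rw [zero_mul])]
  simp

lemma act_single [Finite (L ≃ₐ[K] L)] (a : L ≃ₐ[K] L) (c x : L) :
    act (single (rr _ a) c) x = c * a⁻¹ x := by
  rw [act, coeff_single, Finsupp.sum_single_index (by rw [zero_mul])]
  have e : (((rr _ a : N _) : Equiv.Perm _)⁻¹ : Equiv.Perm (L ≃ₐ[K] L)) 1 = a⁻¹ := by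
    rw [rr_coe, ← map_inv]
    exact mul_one a⁻¹
  rw [e]

lemma mul_coeff [Fintype (L ≃ₐ[K] L)] (h h' : MonoidAlgebra L (N (L ≃ₐ[K] L)))
    (x : L) : act (h * h') x = ∑ a : L ≃ₐ[K] L, ∑ b : L ≃ₐ[K] L,
      h.coeff (rr _ a) * h'.coeff (rr _ b) * (a * b)⁻¹ x := by
  classical
  have e : ∀ z : MonoidAlgebra L (N (L ≃ₐ[K] L)),
      z = ∑ a : L ≃ₐ[K] L, single (rr _ a) (z.coeff (rr _ a)) := by
    intro z
    refine MonoidAlgebra.ext (Finsupp.ext fun n => ?_)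
    obtain ⟨a, rfl⟩ := (rr (L ≃ₐ[K] L)).surjective n
    rw [coeff_sum, Finsupp.finsetSum_apply, Finset.sum_eq_single a]
    · simp
    · intro b _ hb
      rw [coeff_single, Finsupp.single_eq_of_ne]
      intro h
      exact hb ((rr _).injective h).symm
    · intro h; exact absurd (Finset.mem_univ _) h
  conv_lhs => rw [e h, e h', Finset.sum_mul_sum]
  rw [← actL_apply, map_sum, LinearMap.sum_apply]
  refine Finset.sum_congr rfl fun a _ => ?_
  rw [map_sum, LinearMap.sum_apply]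
  refine Finset.sum_congr rfl fun b _ => ?_
  rw [single_mul_single, ← map_mul, actL_apply, act_single]

/-- `H_λ` acts on `L` -/
lemma act_mul [Finite (L ≃ₐ[K] L)] (h : MonoidAlgebra L (N (L ≃ₐ[K] L)))
    {h' : MonoidAlgebra L (N (L ≃ₐ[K] L))} (hh' : h' ∈ Hlam K L) (x : L) :
    act (h * h') x = act h (act h' x) := by
  have := Fintype.ofFinite (L ≃ₐ[K] L)
  rw [mem_Hlam] at hh'
  rw [mul_coeff, act_eq]
  refine Finset.sum_congr rfl fun a _ => ?_
  rw [act_eq, map_sum, Finset.mul_sum]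
  refine (Fintype.sum_equiv ((MulAut.conj a⁻¹).toEquiv) _ _ fun b => ?_).symm
  rw [map_mul, hh', mul_assoc]
  have e1 : (MulAut.conj a⁻¹).toEquiv b = a⁻¹ * b * a := by
    show a⁻¹ * b * a⁻¹⁻¹ = _
    rw [inv_inv]
  rw [e1, inv_inv, ← mul_assoc, ← AlgEquiv.mul_apply]
  congr 2
  group

/-- `H_λ` commutes with `G` -/
lemma act_comm [Finite (L ≃ₐ[K] L)] {h : MonoidAlgebra L (N (L ≃ₐ[K] L))} (hh : h ∈ Hlam K L)
    (g : L ≃ₐ[K] L) (x : L) : g (act h x) = act h (g x) := by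
  have := Fintype.ofFinite (L ≃ₐ[K] L)
  rw [mem_Hlam] at hh
  rw [act_eq, act_eq, map_sum]
  refine Fintype.sum_equiv ((MulAut.conj g).toEquiv) _ _ fun b => ?_
  have e1 : (MulAut.conj g).toEquiv b = g * b * g⁻¹ := rfl
  rw [e1, map_mul, hh]
  congr 1
  rw [← AlgEquiv.mul_apply, ← AlgEquiv.mul_apply]
  congr 1
  group

lemma indep [Fintype (L ≃ₐ[K] L)] {c : (L ≃ₐ[K] L) → L}
    (h : ∀ x, ∑ a, c a * a x = 0) : c = 0 := by
  have h1 := linearIndependent_toLinearMap K L L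
  have h2 : LinearIndependent L (fun a : L ≃ₐ[K] L => ((a : L →ₐ[K] L)).toLinearMap) :=
    h1.comp (fun a : L ≃ₐ[K] L => (a : L →ₐ[K] L)) (fun a b e => by
      ext x; exact congrArg (fun f : L →ₐ[K] L => f x) e)
  rw [Fintype.linearIndependent_iff] at h2
  funext a
  refine h2 c (LinearMap.ext fun x => ?_) a
  rw [LinearMap.sum_apply]
  exact h x

/-- the action of `L[N]` on `L` is faithful -/
lemma act_injective [Finite (L ≃ₐ[K] L)] {h : MonoidAlgebra L (N (L ≃ₐ[K] L))}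
    (hh : ∀ x, act h x = 0) : h = 0 := by
  have := Fintype.ofFinite (L ≃ₐ[K] L)
  have h1 : (fun a : L ≃ₐ[K] L => h.coeff (rr _ a⁻¹)) = 0 := by
    refine indep fun x => ?_
    have := hh x
    rw [act_eq, ← Equiv.sum_comp (Equiv.inv (L ≃ₐ[K] L))] at this
    simpa using this
  refine MonoidAlgebra.ext (Finsupp.ext fun n => ?_)
  obtain ⟨a, rfl⟩ := (rr (L ≃ₐ[K] L)).surjective n
  have := congrFun h1 a⁻¹
  simpa using this

/-- every `K`-linear endomorphism of `L` comes from `L[N]` -/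
lemma act_surjective [FiniteDimensional K L] [IsGalois K L] (f : L →ₗ[K] L) :
    ∃ h : MonoidAlgebra L (N (L ≃ₐ[K] L)), ∀ x, act h x = f x := by
  have := Fintype.ofFinite (L ≃ₐ[K] L)
  have h1 := linearIndependent_toLinearMap K L L
  have h2 : LinearIndependent L (fun a : L ≃ₐ[K] L => ((a : L →ₐ[K] L)).toLinearMap) :=
    h1.comp (fun a : L ≃ₐ[K] L => (a : L →ₐ[K] L)) (fun a b e => by
      ext x; exact congrArg (fun f : L →ₐ[K] L => f x) e)
  have h3 : Fintype.card (L ≃ₐ[K] L) = Module.finrank L (L →ₗ[K] L) := by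
    rw [Module.finrank_linearMap_self, ← Nat.card_eq_fintype_card, IsGalois.card_aut_eq_finrank]
  let b := basisOfLinearIndependentOfCardEqFinrank h2 h3
  refine ⟨mk fun a => b.repr f a⁻¹, fun x => ?_⟩
  rw [act_eq, ← Equiv.sum_comp (Equiv.inv (L ≃ₐ[K] L))]
  conv_rhs => rw [← b.sum_repr f]
  rw [LinearMap.sum_apply]
  refine Finset.sum_congr rfl fun a _ => ?_
  rw [mk_coeff]
  simp [b]

/-- the endomorphisms commuting with `G` come from `H_λ` -/
lemma exists_Hlam [FiniteDimensional K L] [IsGalois K L] (f : L →ₗ[K] L)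
    (hf : ∀ (g : L ≃ₐ[K] L) (x : L), g (f x) = f (g x)) :
    ∃ h : Hlam K L, ∀ x, act (h : MonoidAlgebra L (N (L ≃ₐ[K] L))) x = f x := by
  have := Fintype.ofFinite (L ≃ₐ[K] L)
  obtain ⟨h, hh⟩ := act_surjective f
  refine ⟨⟨h, mem_Hlam.2 fun g => ?_⟩, hh⟩
  have key : (fun a : L ≃ₐ[K] L => g (h.coeff (rr _ (g⁻¹ * a⁻¹ * g))) - h.coeff (rr _ a⁻¹)) = 0 := by
    refine indep fun x => ?_
    simp only [sub_mul, Finset.sum_sub_distrib]
    rw [sub_eq_zero]
    have e1 : ∑ a : L ≃ₐ[K] L, h.coeff (rr _ a⁻¹) * a x = f x := by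
      rw [← hh, act_eq, ← Equiv.sum_comp (Equiv.inv (L ≃ₐ[K] L))]
      simp
    rw [e1]
    have e2 : f x = g (f (g⁻¹ x)) := by
      rw [hf, ← AlgEquiv.mul_apply, mul_inv_cancel, AlgEquiv.one_apply]
    rw [e2, ← hh, act_eq, map_sum]
    refine Fintype.sum_equiv ((MulAut.conj g⁻¹).toEquiv.trans (Equiv.inv _)) _ _ fun b => ?_
    have e3 : ((MulAut.conj g⁻¹).toEquiv.trans (Equiv.inv _)) b = g⁻¹ * b⁻¹ * g := by
      show (g⁻¹ * b * g⁻¹⁻¹)⁻¹ = _
      group
    rw [e3, show ∀ u v : L, g (u * v) = g u * g v from fun u v => map_mul g u v,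
      ← AlgEquiv.mul_apply, ← AlgEquiv.mul_apply]
    congr 2
    group
  intro a
  have := congrFun key (g * a⁻¹ * g⁻¹)
  simp only [Pi.zero_apply, sub_eq_zero] at this
  convert this using 3 <;> group

end basic

end Run7.h292.HG
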