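import Pool.Agent.Run7.h292.HG

/-!
# The associated order in `H_λ` and its maximality when `[L : K]` is invertible
-/

set_option autoImplicit false
set_option linter.unusedSectionVars false
set_option linter.unusedVariables false

open MonoidAlgebra Module

noncomputable section

namespace Run7.h292.HG

section orders

variable (O K : Type*) {H : Type*} [CommRing O] [Field K] [Ring H] [Algebra O H] [Algebra K H]

/-- `A ⊆ H` is an `O`-order in the `K`-algebra `H`: a subring containing `O`, finitely generated
as an `O`-module and spanning `H` over `K`. -/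
structure IsOrder (A : Subalgebra O H) : Prop where
  fg : (Subalgebra.toSubmodule A).FG
  span_eq_top : Submodule.span K (A : Set H) = ⊤

/-- `A ⊆ H` is a maximal `O`-order in the `K`-algebra `H`: it is an order and no order properly
contains it. -/
structure IsMaximalOrder (A : Subalgebra O H) : Prop where
  isOrder : IsOrder O K A
  maximal : ∀ B : Subalgebra O H, IsOrder O K B → A ≤ B → B = A

end orders



section trace

open Polynomial

/-- the trace of an integral endomorphism is integral -/
lemma isIntegral_trace_end {O K V : Type*} [CommRing O] [Field K] [Algebra O K]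
    [AddCommGroup V] [Module K V] [FiniteDimensional K V] [Algebra O (End K V)]
    [IsScalarTower O K (End K V)] (f : End K V)
    (hf : IsIntegral O f) : IsIntegral O (LinearMap.trace K V f) := by
  classical
  obtain ⟨q, hq, hq0⟩ := hf
  let b := Module.finBasis K V
  let A : Matrix _ _ K := LinearMap.toMatrix b b f
  let F := AlgebraicClosure K
  have hq1 : aeval f (q.map (algebraMap O K)) = 0 := by
    rw [aeval_map_algebraMap]; exact hq0
  have hA : aeval A (q.map (algebraMap O K)) = 0 := by
    have := congrArg (LinearMap.toMatrixAlgEquiv b) hq1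
    rw [map_zero, ← aeval_algHom_apply] at this
    exact this
  let A' : Matrix _ _ F := A.map (algebraMap K F)
  have hA' : aeval A' ((q.map (algebraMap O K)).map (algebraMap K F)) = 0 := by
    have h1 : A' = (algebraMap K F).mapMatrix A := rfl
    have := congrArg ((algebraMap K F).mapMatrix) hA
    rw [map_zero] at this
    rw [← this, aeval_map_algebraMap]
    have h2 : A' = (Algebra.ofId K F).mapMatrix A := rfl
    rw [h2, aeval_algHom_apply]
    rfl
  have htr : algebraMap K F (LinearMap.trace K V f) = A'.trace := by
    rw [LinearMap.trace_eq_matrix_trace K b, Matrix.trace, Matrix.trace, map_sum]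
    rfl
  have hsplit : A'.charpoly.Splits := IsAlgClosed.splits _
  rw [Matrix.trace_eq_sum_roots_charpoly_of_splits hsplit] at htr
  have hsum : IsIntegral O (A'.charpoly.roots.sum) := by
    refine IsIntegral.multiset_sum fun μ hμ => ?_
    have h1 : μ ∈ spectrum F A' := by
      apply Matrix.mem_spectrum_of_isRoot_charpoly
      exact isRoot_of_mem_roots hμ
    have h2 := spectrum.subset_polynomial_aeval A'
      ((q.map (algebraMap O K)).map (algebraMap K F)) ⟨μ, h1, rfl⟩
    rw [hA', ] at h2
    refine ⟨q, hq, ?_⟩
    by_cases hn : Nonempty (Fin (finrank K V))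
    · rw [spectrum.zero_eq] at h2
      have h3 : eval μ ((q.map (algebraMap O K)).map (algebraMap K F)) = 0 := h2
      rw [Polynomial.map_map, ← IsScalarTower.algebraMap_eq, eval_map] at h3
      exact h3
    · exfalso
      rw [not_nonempty_iff] at hn
      have : Subsingleton (Matrix (Fin (finrank K V)) (Fin (finrank K V)) F) := inferInstance
      rw [spectrum.of_subsingleton] at h1
      exact h1
  rw [← htr] at hsum
  exact (isIntegral_algebraMap_iff (algebraMap K F).injective).1 hsum

end trace

section main

variable {R K L : Type*} [CommRing R] [Field K] [Field L] [Algebra R K] [Algebra R L]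
  [Algebra K L] [IsScalarTower R K L] [FiniteDimensional K L]

lemma isIntegral_iff (x : L) : IsIntegral (integralClosure R K) x ↔ IsIntegral R x := by
  constructor
  · intro h
    exact isIntegral_trans x h
  · intro h
    exact h.tower_top

/-- `act` as an algebra homomorphism from `H_λ` -/
def actHom : Hlam K L →ₐ[K] End K L :=
  AlgHom.ofLinearMap (actL.comp (Hlam K L).val.toLinearMap)
    (LinearMap.ext fun x => act_one x)
    (fun a b => LinearMap.ext fun x => act_mul _ b.2 x)

lemma actHom_apply (h : Hlam K L) (x : L) :
    actHom h x = act (h : MonoidAlgebra L (N (L ≃ₐ[K] L))) x := rfl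

variable [IsGalois K L] [IsPrincipalIdealRing (integralClosure R K)]
  [IsFractionRing (integralClosure R K) K]

/-- an integral basis -/
lemma exists_basis : ∃ (n : ℕ) (b : Basis (Fin n) K L),
    ∀ x : L, IsIntegral R x ↔ ∀ i, IsIntegral R (b.repr x i) := by
  have hdom : IsDomain (integralClosure R K) := inferInstance
  have htf : IsTorsionFree (integralClosure R K) L := by
    have : FaithfulSMul (integralClosure R K) L := inferInstance
    infer_instance
  have hfree : Module.Free (integralClosure R K) (integralClosure (integralClosure R K) L) :=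
    IsIntegralClosure.module_free (integralClosure R K) K L _
  have hfin : Module.Finite (integralClosure R K) (integralClosure (integralClosure R K) L) :=
    IsIntegralClosure.finite (integralClosure R K) K L _
  have hloc : IsLocalization (Algebra.algebraMapSubmonoid
      (integralClosure (integralClosure R K) L) (nonZeroDivisors (integralClosure R K))) L :=
    IsIntegralClosure.isLocalization (integralClosure R K) K L _
  let b0 := Module.finBasis (integralClosure R K) (integralClosure (integralClosure R K) L)
  let b := b0.localizationLocalization K (nonZeroDivisors (integralClosure R K)) L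
  refine ⟨_, b, fun x => ?_⟩
  constructor
  · intro hx i
    have hx' : x ∈ integralClosure (integralClosure R K) L := (isIntegral_iff x).2 hx
    have := b0.localizationLocalization_repr_algebraMap K
      (nonZeroDivisors (integralClosure R K)) L ⟨x, hx'⟩ i
    have h2 : b.repr x i = algebraMap (integralClosure R K) K (b0.repr ⟨x, hx'⟩ i) := this
    rw [h2]
    exact (b0.repr ⟨x, hx'⟩ i).2
  · intro h
    rw [← b.sum_repr x]
    refine IsIntegral.sum _ fun i _ => ?_
    rw [Algebra.smul_def]
    refine (h i).algebraMap.mul ?_
    rw [Module.Basis.localizationLocalization_apply]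
    exact (isIntegral_iff _).1 (b0 i).2

section abs

variable {H : Type*} [Ring H] [Algebra K H] (φ : H →ₐ[K] End K L)

omit [IsGalois K L] [IsPrincipalIdealRing (integralClosure R K)]
  [IsFractionRing (integralClosure R K) K] in
lemma repr_act {n : ℕ} {b : Basis (Fin n) K L} (h : H) (x : L) (j : Fin n) :
    b.repr (φ h x) j = ∑ i, b.repr x i * b.repr (φ h (b i)) j := by
  conv_lhs => rw [← b.sum_repr x]
  simp only [map_sum, map_smul, Finsupp.coe_finsetSum, Finset.sum_apply, Finsupp.coe_smul,
    Pi.smul_apply, smul_eq_mul]

variable {A : Subalgebra (integralClosure R K) H}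
  (hA : ∀ h, h ∈ A ↔ ∀ x, IsIntegral R x → IsIntegral R (φ h x))

include hA in
omit [IsGalois K L] [IsPrincipalIdealRing (integralClosure R K)]
  [IsFractionRing (integralClosure R K) K] in
lemma mem_assoc_iff {n : ℕ} {b : Basis (Fin n) K L}
    (hb : ∀ x : L, IsIntegral R x ↔ ∀ i, IsIntegral R (b.repr x i)) (h : H) :
    h ∈ A ↔ ∀ i j, IsIntegral R (b.repr (φ h (b i)) j) := by
  have hbi : ∀ i, IsIntegral R (b i) := fun i => by
    rw [hb]
    intro j
    rw [b.repr_self, Finsupp.single_apply]
    split_ifs
    · exact isIntegral_one
    · exact isIntegral_zero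
  rw [hA]
  constructor
  · intro hh i j
    exact (hb _).1 (hh _ (hbi i)) j
  · intro hh x hx
    rw [hb]
    intro j
    rw [repr_act]
    exact IsIntegral.sum _ fun i _ => ((hb x).1 hx i).mul (hh i j)

include hA in
/-- `A_λ` is an order -/
lemma assoc_isOrder (hinj : Function.Injective φ) : IsOrder (integralClosure R K) K A := by
  obtain ⟨n, b, hb⟩ := exists_basis (R := R) (K := K) (L := L)
  constructor
  · let Ψ : Subalgebra.toSubmodule A →ₗ[integralClosure R K]
        (Fin n → Fin n → integralClosure R K) :=
      { toFun := fun h i j => ⟨b.repr (φ (h : H) (b i)) j,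
          (mem_assoc_iff φ hA hb h).1 h.2 i j⟩
        map_add' := fun h h' => by
          funext i j
          refine Subtype.ext ?_
          simp
        map_smul' := fun r h => by
          funext i j
          refine Subtype.ext ?_
          show b.repr (φ ((r : K) • (h : H)) (b i)) j =
            (r : K) * b.repr (φ (h : H) (b i)) j
          simp }
    have hΨ : Function.Injective Ψ := by
      intro h h' e
      refine Subtype.ext (hinj ?_)
      refine b.ext fun i => b.repr.injective (Finsupp.ext fun j => ?_)
      exact congrArg Subtype.val (congrFun (congrFun e i) j)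
    have : IsNoetherian (integralClosure R K) (Subalgebra.toSubmodule A) :=
      isNoetherian_of_injective Ψ hΨ
    exact isNoetherian_submodule.1 this _ le_rfl
  · rw [eq_top_iff]
    intro h _
    obtain ⟨d, hd⟩ := IsLocalization.exist_integer_multiples_of_finite
      (nonZeroDivisors (integralClosure R K))
      (fun ij : Fin n × Fin n => b.repr (φ h (b ij.1)) ij.2)
    have hd0 : ((d : integralClosure R K) : K) ≠ 0 := by
      intro e
      exact nonZeroDivisors.ne_zero d.2 (Subtype.ext e)
    have h1 : ((d : integralClosure R K) : K) • h ∈ A := by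
      rw [mem_assoc_iff φ hA hb]
      intro i j
      obtain ⟨r, hr⟩ := hd (i, j)
      rw [map_smul, LinearMap.smul_apply, map_smul, Finsupp.smul_apply]
      have : ((d : integralClosure R K) : K) • (b.repr (φ h (b i))) j = (r : K) := hr.symm
      rw [this]
      exact r.2
    have h2 : h = ((d : integralClosure R K) : K)⁻¹ • (((d : integralClosure R K) : K) • h) := by
      rw [smul_smul, inv_mul_cancel₀ hd0, one_smul]
    rw [h2]
    exact Submodule.smul_mem _ _ (Submodule.subset_span h1)

end abs

/-- a `K`-linear endomorphism averaged over `G` -/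
def avg [Fintype (L ≃ₐ[K] L)] (z : End K L) : End K L :=
  ∑ g : L ≃ₐ[K] L, g.toLinearMap ∘ₗ z ∘ₗ (g⁻¹ : L ≃ₐ[K] L).toLinearMap

lemma avg_apply [Fintype (L ≃ₐ[K] L)] (z : End K L) (x : L) :
    avg z x = ∑ g : L ≃ₐ[K] L, g (z ((g⁻¹ : L ≃ₐ[K] L) x)) := by
  simp [avg]

lemma avg_comm [Fintype (L ≃ₐ[K] L)] (z : End K L) (g : L ≃ₐ[K] L) (x : L) :
    g (avg z x) = avg z (g x) := by
  rw [avg_apply, avg_apply, map_sum]
  refine Fintype.sum_equiv (Equiv.mulLeft g) _ _ fun a => ?_
  show g (a (z (a⁻¹ x))) = (g * a) (z ((g * a)⁻¹ (g x)))
  rw [AlgEquiv.mul_apply, ← AlgEquiv.mul_apply _ g]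
  congr 4
  group

lemma trace_avg [Fintype (L ≃ₐ[K] L)] (z f : End K L)
    (hf : ∀ (g : L ≃ₐ[K] L) (x : L), g (f x) = f (g x)) :
    LinearMap.trace K L (f * avg z) = (finrank K L : K) * LinearMap.trace K L (f * z) := by
  have e : f * avg z = ∑ g : L ≃ₐ[K] L, (g.toLinearEquiv : L ≃ₗ[K] L).conj (f * z) := by
    refine LinearMap.ext fun x => ?_
    rw [LinearMap.sum_apply, Module.End.mul_apply, avg_apply, map_sum]
    refine Finset.sum_congr rfl fun g _ => ?_
    rw [← hf]
    rfl
  rw [e, map_sum]
  simp only [LinearMap.trace_conj']
  rw [Finset.sum_const, Finset.card_univ, ← Nat.card_eq_fintype_card,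
    IsGalois.card_aut_eq_finrank, nsmul_eq_mul]

/-- **Main theorem, general form.** -/
theorem isMaximalOrder_of {H : Type*} [Ring H] [Algebra K H] (φ : H →ₐ[K] End K L)
    (hinj : Function.Injective φ)
    (hcomm : ∀ (h : H) (g : L ≃ₐ[K] L) (x : L), g (φ h x) = φ h (g x))
    (hsurj : ∀ f : End K L, (∀ (g : L ≃ₐ[K] L) (x : L), g (f x) = f (g x)) → ∃ h, φ h = f)
    {A : Subalgebra (integralClosure R K) H}
    (hA : ∀ h, h ∈ A ↔ ∀ x, IsIntegral R x → IsIntegral R (φ h x))
    (hn0 : (finrank K L : K) ≠ 0)
    (hu : IsIntegral R ((finrank K L : K)⁻¹)) :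
    IsMaximalOrder (integralClosure R K) K A := by
  classical
  have := Fintype.ofFinite (L ≃ₐ[K] L)
  refine ⟨assoc_isOrder φ hA hinj, fun B hB hAB => le_antisymm (fun x hx => ?_) hAB⟩
  obtain ⟨n, b, hb⟩ := exists_basis (R := R) (K := K) (L := L)
  rw [mem_assoc_iff φ hA hb]
  intro k i
  -- the rank one endomorphism
  let z : End K L := (b.coord i).smulRight (b k)
  have hbk : IsIntegral R (b k) := by
    rw [hb]
    intro j
    rw [b.repr_self, Finsupp.single_apply]
    split_ifs
    · exact isIntegral_one
    · exact isIntegral_zero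
  have hz : ∀ w : L, IsIntegral R w → IsIntegral R (z w) := by
    intro w hw
    show IsIntegral R (b.repr w i • b k)
    rw [Algebra.smul_def]
    exact ((hb w).1 hw i).algebraMap.mul hbk
  obtain ⟨y, hy⟩ := hsurj (avg z) (fun g w => avg_comm z g w)
  have hyA : y ∈ A := by
    rw [hA]
    intro w hw
    rw [hy, avg_apply]
    refine IsIntegral.sum _ fun g _ => ?_
    refine IsIntegral.map (g.toAlgHom.restrictScalars R) (hz _ ?_)
    exact IsIntegral.map ((g⁻¹ : L ≃ₐ[K] L).toAlgHom.restrictScalars R) hw
  have hxy : x * y ∈ B := mul_mem hx (hAB hyA)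
  have hint : IsIntegral (integralClosure R K) (x * y) := IsIntegral.of_mem_of_fg B hB.fg _ hxy
  have hint2 : IsIntegral (integralClosure R K) (φ (x * y)) :=
    hint.map (φ.restrictScalars (integralClosure R K))
  have htr := isIntegral_trace_end (O := integralClosure R K) _ hint2
  rw [map_mul, hy, trace_avg z (φ x) (fun g w => hcomm x g w)] at htr
  have e2 : LinearMap.trace K L (φ x * z) = b.repr (φ x (b k)) i := by
    have : φ x * z = (b.coord i).smulRight (φ x (b k)) := by
      refine LinearMap.ext fun w => ?_
      show φ x (b.coord i w • b k) = _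
      rw [map_smul]
      rfl
    rw [this, LinearMap.trace_smulRight]
    rfl
  rw [e2] at htr
  have h3 : IsIntegral R ((finrank K L : K) * b.repr (φ x (b k)) i) :=
    isIntegral_trans _ htr
  have h4 := hu.mul h3
  rwa [inv_mul_cancel_left₀ hn0] at h4

end main

end Run7.h292.HG
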