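import Mathlib

/-!
Half-braidings.
-/

set_option autoImplicit false

open CategoryTheory CategoryTheory.Limits MonoidalCategory ExactPairing

namespace Run7.h292

universe v u

variable {C : Type u} [Category.{v} C] [MonoidalCategory C]

/-- (E1) half braiding with the unit. -/
theorem halfBraiding_unit {X : C} (b : HalfBraiding X) :
    (b.β (𝟙_ C)).hom = (ρ_ X).hom ≫ (λ_ X).inv := by
  have h1 := b.monoidal (𝟙_ C) (𝟙_ C)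
  have h2 := b.naturality (λ_ (𝟙_ C)).hom
  rw [h1] at h2
  set b0 : X ⟶ X := (ρ_ X).inv ≫ (b.β (𝟙_ C)).hom ≫ (λ_ X).hom with hb0
  have h3 : (b.β (𝟙_ C)).hom = (ρ_ X).hom ≫ b0 ≫ (λ_ X).inv := by
    rw [hb0]; simp
  rw [h3] at h2
  have h4 : b0 = b0 ≫ b0 := by
    calc b0 = (ρ_ X).inv ≫ X ◁ (λ_ (𝟙_ C)).inv ≫ (X ◁ (λ_ (𝟙_ C)).hom ≫
          (ρ_ X).hom ≫ b0 ≫ (λ_ X).inv) ≫ (λ_ X).hom := by
            simp
      _ = 𝟙 _ ⊗≫ b0 ⊗≫ b0 ⊗≫ 𝟙 _ := by rw [h2]; monoidal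
      _ = _ := by monoidal
  have h5 : IsIso b0 := by rw [hb0]; infer_instance
  have h6 : b0 = 𝟙 _ := by
    rw [← cancel_epi b0, ← h4, Category.comp_id]
  rw [h3, h6]; simp

section rigid

variable {X : C} (β : ∀ U : C, X ⊗ U ⟶ U ⊗ X)

/-- inverse of a lax half-braiding -/
def laxInv (U : C) [HasLeftDual U] : U ⊗ X ⟶ X ⊗ U :=
  𝟙 _ ⊗≫ (U ⊗ X) ◁ η_ (ᘁU : C) U ⊗≫ U ◁ β (ᘁU : C) ▷ U ⊗≫ ε_ (ᘁU : C) U ▷ (X ⊗ U) ⊗≫ 𝟙 _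

variable (nat : ∀ {U V : C} (f : U ⟶ V), X ◁ f ≫ β V = β U ≫ f ▷ X)
    (unit : β (𝟙_ C) = (ρ_ X).hom ≫ (λ_ X).inv)
    (mon : ∀ U V : C, β (U ⊗ V) =
      (α_ _ _ _).inv ≫ (β U ▷ V) ≫ (α_ _ _ _).hom ≫ (U ◁ β V) ≫ (α_ _ _ _).inv)

include nat unit mon in
lemma lax_hom_inv (U : C) [HasLeftDual U] : β U ≫ laxInv β U = 𝟙 _ := by
  unfold laxInv
  calc
    _ = 𝟙 _ ⊗≫ (β U ▷ 𝟙_ C ≫ (U ⊗ X) ◁ η_ (ᘁU : C) U) ⊗≫ U ◁ β (ᘁU : C) ▷ U ⊗≫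
        ε_ (ᘁU : C) U ▷ (X ⊗ U) ⊗≫ 𝟙 _ := by monoidal
    _ = 𝟙 _ ⊗≫ (X ⊗ U) ◁ η_ (ᘁU : C) U ⊗≫
        (((α_ _ _ _).inv ≫ β U ▷ (ᘁU : C) ≫ (α_ _ _ _).hom ≫ U ◁ β (ᘁU : C) ≫ (α_ _ _ _).inv) ≫
        ε_ (ᘁU : C) U ▷ X) ▷ U ⊗≫ 𝟙 _ := by
      rw [← whisker_exchange]; monoidal
    _ = 𝟙 _ ⊗≫ X ◁ (U ◁ η_ (ᘁU : C) U ⊗≫ ε_ (ᘁU : C) U ▷ U) ⊗≫ 𝟙 _ := by
      rw [← mon, ← nat, unit]; monoidal
    _ = _ := by rw [coevaluation_evaluation'']; monoidal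

include nat unit mon in
lemma lax_inv_hom (U : C) [HasLeftDual U] : laxInv β U ≫ β U = 𝟙 _ := by
  unfold laxInv
  calc
    _ = 𝟙 _ ⊗≫ (U ⊗ X) ◁ η_ (ᘁU : C) U ⊗≫ U ◁ β (ᘁU : C) ▷ U ⊗≫
        (ε_ (ᘁU : C) U ▷ (X ⊗ U) ≫ 𝟙_ C ◁ β U) ⊗≫ 𝟙 _ := by monoidal
    _ = 𝟙 _ ⊗≫ U ◁ (X ◁ η_ (ᘁU : C) U ≫
        ((α_ _ _ _).inv ≫ β (ᘁU : C) ▷ U ≫ (α_ _ _ _).hom ≫ (ᘁU : C) ◁ β U ≫ (α_ _ _ _).inv)) ⊗≫
        ε_ (ᘁU : C) U ▷ (U ⊗ X) ⊗≫ 𝟙 _ := by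
      rw [← whisker_exchange]; monoidal
    _ = 𝟙 _ ⊗≫ (U ◁ η_ (ᘁU : C) U ⊗≫ ε_ (ᘁU : C) U ▷ U) ▷ X ⊗≫ 𝟙 _ := by
      rw [← mon, nat, unit]; monoidal
    _ = _ := by rw [coevaluation_evaluation'']; monoidal

/-- (E2) In a rigid category a lax half-braiding is invertible. -/
def mkHalf [LeftRigidCategory C] : HalfBraiding X where
  β U := ⟨β U, laxInv β U, lax_hom_inv β nat unit mon U, lax_inv_hom β nat unit mon U⟩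
  monoidal U V := mon U V
  naturality f := nat f

end rigid

/-- (E3) Splitting an idempotent of the centre. -/
def splitHalf (W : Center C) (e : W ⟶ W) {Q : C} (i : Q ⟶ W.1) (p : W.1 ⟶ Q)
    (h1 : i ≫ p = 𝟙 Q) (h2 : p ≫ i = e.f) : HalfBraiding Q where
  β U :=
    { hom := i ▷ U ≫ (W.2.β U).hom ≫ U ◁ p
      inv := U ◁ i ≫ (W.2.β U).inv ≫ p ▷ U
      hom_inv_id := by
        have h3 := e.comm U
        rw [← h2] at h3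
        have h4 : (W.2.β U).hom ≫ U ◁ p ≫ U ◁ i ≫ (W.2.β U).inv = (p ≫ i) ▷ U := by
          rw [← MonoidalCategory.whiskerLeft_comp_assoc, ← Category.assoc, ← h3, Category.assoc,
            Iso.hom_inv_id, Category.comp_id]
        calc _ = i ▷ U ≫ ((W.2.β U).hom ≫ U ◁ p ≫ U ◁ i ≫ (W.2.β U).inv) ≫ p ▷ U := by
              simp only [Category.assoc]
          _ = (i ≫ p) ▷ U ≫ (i ≫ p) ▷ U := by rw [h4]; simp only [comp_whiskerRight, Category.assoc]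
          _ = _ := by rw [h1]; simp
      inv_hom_id := by
        have h3 := e.comm U
        rw [← h2] at h3
        have h4 : (W.2.β U).inv ≫ p ▷ U ≫ i ▷ U ≫ (W.2.β U).hom = U ◁ (p ≫ i) := by
          rw [← comp_whiskerRight_assoc, h3, Iso.inv_hom_id_assoc]
        calc _ = U ◁ i ≫ ((W.2.β U).inv ≫ p ▷ U ≫ i ▷ U ≫ (W.2.β U).hom) ≫ U ◁ p := by
              simp only [Category.assoc]
          _ = U ◁ (i ≫ p) ≫ U ◁ (i ≫ p) := by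
              rw [h4]; simp only [MonoidalCategory.whiskerLeft_comp, Category.assoc]
          _ = _ := by rw [h1]; simp }
  monoidal U U' := by
    have h3 := e.comm U
    rw [← h2] at h3
    dsimp only
    rw [W.2.monoidal]
    symm
    calc
      _ = 𝟙 _ ⊗≫ i ▷ U ▷ U' ⊗≫ (W.2.β U).hom ▷ U' ⊗≫ U ◁ ((p ≫ i) ▷ U' ≫ (W.2.β U').hom) ⊗≫
          U ◁ U' ◁ p ⊗≫ 𝟙 _ := by monoidal
      _ = 𝟙 _ ⊗≫ i ▷ U ▷ U' ⊗≫ (W.2.β U).hom ▷ U' ⊗≫ U ◁ (W.2.β U').hom ⊗≫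
          U ◁ U' ◁ (p ≫ (i ≫ p)) ⊗≫ 𝟙 _ := by
        have h3' := e.comm U'
        rw [← h2] at h3'
        rw [h3']; monoidal
      _ = _ := by rw [h1]; monoidal
  naturality f := by
    dsimp only
    rw [whisker_exchange_assoc, W.2.naturality_assoc, Category.assoc, Category.assoc,
      whisker_exchange]

lemma exists_split (W : Center C) (e : W ⟶ W) {Q : C} (i : Q ⟶ W.1) (p : W.1 ⟶ Q)
    (h1 : i ≫ p = 𝟙 Q) (h2 : p ≫ i = e.f) :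
    ∃ (Y : Center C) (i' : Y ⟶ W) (p' : W ⟶ Y), i' ≫ p' = 𝟙 Y ∧ p' ≫ i' = e := by
  refine ⟨⟨Q, splitHalf W e i p h1 h2⟩, ⟨i, fun U => ?_⟩, ⟨p, fun U => ?_⟩, ?_, ?_⟩
  · have h3 := e.comm U
    rw [← h2] at h3
    change _ = (i ▷ U ≫ (W.2.β U).hom ≫ U ◁ p) ≫ U ◁ i
    rw [Category.assoc, Category.assoc, ← MonoidalCategory.whiskerLeft_comp, ← h3,
      ← comp_whiskerRight_assoc, ← Category.assoc i p i, h1, Category.id_comp]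
  · have h3 := e.comm U
    rw [← h2] at h3
    change p ▷ U ≫ (i ▷ U ≫ (W.2.β U).hom ≫ U ◁ p) = _
    rw [← comp_whiskerRight_assoc, ← Category.assoc, h3, Category.assoc,
      ← MonoidalCategory.whiskerLeft_comp, Category.assoc p i p, h1, Category.comp_id]
  · ext
    exact h1
  · ext
    exact h2

end Run7.h292
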