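import Pool.Agent.Run7.h292.Ss
import Pool.Agent.Run7.h292.Half
import Mathlib.LinearAlgebra.Eigenspace.Charpoly
import Mathlib.Analysis.SpecialFunctions.Log.Basic
import Mathlib.CategoryTheory.Idempotents.Basic

/-!
Vafa's lemma: the twist has finite order-like behaviour: all its eigenvalues have absolute value
one in every complex embedding.
-/

set_option autoImplicit false
set_option linter.unusedSectionVars false

open CategoryTheory CategoryTheory.Limits MonoidalCategory ExactPairing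

namespace Run7.h292

universe v u

section LA

variable (φ : ℂ ≃+* ℂ) {V : Type*} [AddCommGroup V] [Module ℂ V] [FiniteDimensional ℂ V]

lemma log_det_le (f : Module.End ℂ V) (hi : ℝ) (hf : LinearMap.det f ≠ 0)
    (h : ∀ μ, f.HasEigenvalue μ → Real.log ‖φ μ‖ ≤ hi) :
    Real.log ‖φ (LinearMap.det f)‖ ≤ hi * Module.finrank ℂ V := by
  classical
  have h1 : LinearMap.det f = f.charpoly.roots.prod :=
    Module.End.det_eq_prod_roots_charpoly_of_splits (IsAlgClosed.splits _)
  have h2 : f.charpoly.roots.card = Module.finrank ℂ V := by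
    rw [← LinearMap.charpoly_natDegree f]
    exact (IsAlgClosed.card_roots_eq_natDegree)
  have key : ∀ s : Multiset ℂ, (∀ μ ∈ s, μ ≠ 0 ∧ Real.log ‖φ μ‖ ≤ hi) →
      Real.log ‖φ s.prod‖ ≤ hi * s.card := by
    intro s
    induction s using Multiset.induction_on with
    | empty => intro _; simp
    | cons a s ih =>
      intro hs
      have ha := hs a (Multiset.mem_cons_self _ _)
      have hs' := ih fun μ hμ => hs μ (Multiset.mem_cons_of_mem hμ)
      have hne : s.prod ≠ 0 := Multiset.prod_ne_zero fun h0 =>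
        (hs 0 (Multiset.mem_cons_of_mem h0)).1 rfl
      rw [Multiset.prod_cons, map_mul, norm_mul, Real.log_mul (by simpa using ha.1)
        (by simpa using hne), Multiset.card_cons]
      push_cast
      nlinarith [ha.2]
  rw [h1, ← h2]
  refine key _ fun μ hμ => ?_
  have h3 : f.HasEigenvalue μ := by
    rw [Module.End.hasEigenvalue_iff_isRoot_charpoly]
    exact (Polynomial.mem_roots'.mp hμ).2
  refine ⟨?_, h μ h3⟩
  rintro rfl
  apply hf
  rw [h1]
  exact Multiset.prod_eq_zero hμ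

lemma le_log_det (f : Module.End ℂ V) (lo : ℝ) (hf : LinearMap.det f ≠ 0)
    (h : ∀ μ, f.HasEigenvalue μ → lo ≤ Real.log ‖φ μ‖) :
    lo * Module.finrank ℂ V ≤ Real.log ‖φ (LinearMap.det f)‖ := by
  classical
  have h1 : LinearMap.det f = f.charpoly.roots.prod :=
    Module.End.det_eq_prod_roots_charpoly_of_splits (IsAlgClosed.splits _)
  have h2 : f.charpoly.roots.card = Module.finrank ℂ V := by
    rw [← LinearMap.charpoly_natDegree f]
    exact (IsAlgClosed.card_roots_eq_natDegree)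
  have key : ∀ s : Multiset ℂ, (∀ μ ∈ s, μ ≠ 0 ∧ lo ≤ Real.log ‖φ μ‖) →
      lo * s.card ≤ Real.log ‖φ s.prod‖ := by
    intro s
    induction s using Multiset.induction_on with
    | empty => intro _; simp
    | cons a s ih =>
      intro hs
      have ha := hs a (Multiset.mem_cons_self _ _)
      have hs' := ih fun μ hμ => hs μ (Multiset.mem_cons_of_mem hμ)
      have hne : s.prod ≠ 0 := Multiset.prod_ne_zero fun h0 =>
        (hs 0 (Multiset.mem_cons_of_mem h0)).1 rfl
      rw [Multiset.prod_cons, map_mul, norm_mul, Real.log_mul (by simpa using ha.1)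
        (by simpa using hne), Multiset.card_cons]
      push_cast
      nlinarith [ha.2]
  rw [h1, ← h2]
  refine key _ fun μ hμ => ?_
  have h3 : f.HasEigenvalue μ := by
    rw [Module.End.hasEigenvalue_iff_isRoot_charpoly]
    exact (Polynomial.mem_roots'.mp hμ).2
  refine ⟨?_, h μ h3⟩
  rintro rfl
  apply hf
  rw [h1]
  exact Multiset.prod_eq_zero hμ

end LA

section L

variable {C : Type u} [Category.{v} C] [Abelian C] [Linear ℂ C]
  [hfd : ∀ X Y : C, FiniteDimensional ℂ (X ⟶ Y)] (φ : ℂ ≃+* ℂ)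

/-- the logarithmic determinant -/
noncomputable def LL (G : C) {X : C} (f : X ⟶ X) : ℝ := Real.log ‖φ (LinearMap.det (post G f))‖

lemma det_post_ne_zero (G : C) {X : C} (f : X ⟶ X) [IsIso f] :
    LinearMap.det (post G f) ≠ 0 := by
  have h : LinearMap.det (post G (inv f)) * LinearMap.det (post G f) = 1 := by
    rw [← LinearMap.det_comp, ← post_comp, IsIso.hom_inv_id, post_id, LinearMap.det_id]
  exact right_ne_zero_of_mul_eq_one h

lemma LL_comp (G : C) {X : C} (f g : X ⟶ X) [IsIso f] [IsIso g] :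
    LL φ G (f ≫ g) = LL φ G f + LL φ G g := by
  unfold LL
  rw [post_comp, LinearMap.det_comp, map_mul, norm_mul, Real.log_mul, add_comm]
  · simpa using det_post_ne_zero G g
  · simpa using det_post_ne_zero G f

lemma det_post_conj (G : C) {X Y : C} (i : X ≅ Y) (f : Y ⟶ Y) :
    LinearMap.det (post G (i.hom ≫ f ≫ i.inv)) = LinearMap.det (post G f) := by
  let e : (G ⟶ Y) ≃ₗ[ℂ] (G ⟶ X) := LinearEquiv.ofLinearMap (post G i.inv) (post G i.hom)
    (by rw [← post_comp, i.hom_inv_id, post_id]) (by rw [← post_comp, i.inv_hom_id, post_id])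
  have h := LinearMap.det_conj (post G f) e
  rw [← h]
  congr 1
  ext a
  change a ≫ i.hom ≫ f ≫ i.inv = ((a ≫ i.hom) ≫ f) ≫ i.inv
  simp only [Category.assoc]

lemma LL_conj (G : C) {X Y : C} (i : X ≅ Y) (f : Y ⟶ Y) :
    LL φ G (i.hom ≫ f ≫ i.inv) = LL φ G f := by
  unfold LL
  rw [det_post_conj]

/-- the dimension of the multiplicity space -/
noncomputable def NN (G X : C) : ℕ := Module.finrank ℂ (G ⟶ X)

lemma NN_iso (G : C) {X Y : C} (i : X ≅ Y) : NN G X = NN G Y := by
  let e : (G ⟶ Y) ≃ₗ[ℂ] (G ⟶ X) := LinearEquiv.ofLinearMap (post G i.inv) (post G i.hom)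
    (by rw [← post_comp, i.hom_inv_id, post_id]) (by rw [← post_comp, i.inv_hom_id, post_id])
  exact e.finrank_eq.symm

lemma NN_pos {X : C} (h : 𝟙 X ≠ 0) : 0 < NN X X := by
  unfold NN
  have : Nontrivial (X ⟶ X) := ⟨𝟙 X, 0, h⟩
  exact Module.finrank_pos

variable [MonoidalCategory C] [MonoidalPreadditive C] [MonoidalLinear ℂ C] [RigidCategory C]

/-- the linear form of the duality adjunction -/
noncomputable def rightEquiv (G X B : C) : (G ⊗ (ᘁB : C) ⟶ X) ≃ₗ[ℂ] (G ⟶ X ⊗ B) :=
  { tensorRightHomEquiv G (ᘁB : C) B X with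
    map_add' := fun f g => by
      change (ρ_ _).inv ≫ _ ◁ η_ _ _ ≫ (α_ _ _ _).inv ≫ (f + g) ▷ _ = _
      simp [tensorRightHomEquiv]
    map_smul' := fun c g => by
      change (ρ_ _).inv ≫ _ ◁ η_ _ _ ≫ (α_ _ _ _).inv ≫ (c • g) ▷ _ = _
      simp [tensorRightHomEquiv] }

/-- the linear form of the duality adjunction -/
noncomputable def leftEquiv (G X B : C) : ((Bᘁ : C) ⊗ G ⟶ X) ≃ₗ[ℂ] (G ⟶ B ⊗ X) :=
  { tensorLeftHomEquiv G B (Bᘁ : C) X with
    map_add' := fun f g => by
      change (λ_ _).inv ≫ η_ _ _ ▷ _ ≫ (α_ _ _ _).hom ≫ _ ◁ (f + g) = _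
      simp [tensorLeftHomEquiv]
    map_smul' := fun c g => by
      change (λ_ _).inv ≫ η_ _ _ ▷ _ ≫ (α_ _ _ _).hom ≫ _ ◁ (c • g) = _
      simp [tensorLeftHomEquiv] }

lemma NN_right (G X B : C) : NN G (X ⊗ B) = NN (G ⊗ (ᘁB : C)) X :=
  (rightEquiv G X B).finrank_eq.symm

lemma NN_left (G X B : C) : NN G (B ⊗ X) = NN ((Bᘁ : C) ⊗ G) X :=
  (leftEquiv G X B).finrank_eq.symm

lemma LL_right (G X B : C) (f : X ⟶ X) : LL φ G (f ▷ B) = LL φ (G ⊗ (ᘁB : C)) f := by
  unfold LL
  rw [← LinearMap.det_conj (post (G ⊗ (ᘁB : C)) f) (rightEquiv G X B)]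
  congr 4
  ext a
  obtain ⟨a, rfl⟩ := (rightEquiv G X B).surjective a
  change _ = rightEquiv G X B (((rightEquiv G X B).symm (rightEquiv G X B a)) ≫ f)
  rw [LinearEquiv.symm_apply_apply]
  exact (tensorRightHomEquiv_naturality a f).symm

lemma LL_left (G X B : C) (f : X ⟶ X) : LL φ G (B ◁ f) = LL φ ((Bᘁ : C) ⊗ G) f := by
  unfold LL
  rw [← LinearMap.det_conj (post ((Bᘁ : C) ⊗ G) f) (leftEquiv G X B)]
  congr 4
  ext a
  obtain ⟨a, rfl⟩ := (leftEquiv G X B).surjective a
  change _ = leftEquiv G X B (((leftEquiv G X B).symm (leftEquiv G X B a)) ≫ f)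
  rw [LinearEquiv.symm_apply_apply]
  exact (tensorLeftHomEquiv_naturality a f).symm

end L

end Run7.h292
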