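import Pool.Agent.Run7.h292.Kap
import Pool.Agent.Run7.h292.Vafa

/-!
Idempotents of the centre given by characters of the Grothendieck ring, and reality of
dimensions.
-/

set_option autoImplicit false
set_option linter.unusedSectionVars false

open CategoryTheory CategoryTheory.Limits MonoidalCategory ExactPairing
open Pool.Agent.Helper781.Fusion (Dec IsSimpleList exists_scalar finrank_simple hom_zero sum_dec)

namespace Run7.h292

universe v u

/-- a character of a based ring with duality is real -/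
lemma real_of_fusion {n : ℕ} {N : Fin n → Fin n → Fin n → ℕ} {st : Fin n → Fin n}
    {v : Fin n → ℂ} {o : Fin n} (hv : v o = 1)
    (hmul : ∀ i j, v i * v j = ∑ k, (N i j k : ℂ) * v k) (hst : ∀ i, v (st i) = v i)
    (hN : ∀ i j k, N i j k = N (st i) k j) (i : Fin n) : (v i).im = 0 := by
  have h1 : ∑ j, (starRingEnd ℂ) (v j) * (v i * v j) =
      ∑ k, v k * (starRingEnd ℂ) (v i * v k) := by
    have e1 : ∀ k, v i * v k = ∑ j, (N i j k : ℂ) * v j := by
      intro k
      rw [← hst i, hmul]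
      refine Finset.sum_congr rfl fun j _ => ?_
      rw [← hN]
    have e2 : ∀ k, (starRingEnd ℂ) (v i * v k) = ∑ j, (N i j k : ℂ) * (starRingEnd ℂ) (v j) := by
      intro k
      rw [e1, map_sum]
      refine Finset.sum_congr rfl fun j _ => ?_
      rw [map_mul, Complex.conj_natCast]
    simp_rw [e2, hmul, Finset.mul_sum]
    rw [Finset.sum_comm]
    refine Finset.sum_congr rfl fun k _ => Finset.sum_congr rfl fun j _ => ?_
    ring
  have h2 : (v i - (starRingEnd ℂ) (v i)) * ∑ j, (Complex.normSq (v j) : ℂ) = 0 := by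
    have e3 : ∑ j, (starRingEnd ℂ) (v j) * (v i * v j) = v i * ∑ j, (Complex.normSq (v j) : ℂ) := by
      rw [Finset.mul_sum]
      refine Finset.sum_congr rfl fun j _ => ?_
      rw [← Complex.mul_conj]
      ring
    have e4 : ∑ k, v k * (starRingEnd ℂ) (v i * v k) =
        (starRingEnd ℂ) (v i) * ∑ j, (Complex.normSq (v j) : ℂ) := by
      rw [Finset.mul_sum]
      refine Finset.sum_congr rfl fun j _ => ?_
      rw [← Complex.mul_conj, map_mul]
      ring
    rw [sub_mul, ← e3, ← e4, h1, sub_self]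
  have h3 : ∑ j, (Complex.normSq (v j) : ℂ) ≠ 0 := by
    rw [← Complex.ofReal_sum]
    have : (0 : ℝ) < ∑ j, Complex.normSq (v j) := by
      refine Finset.sum_pos' (fun j _ => Complex.normSq_nonneg _) ⟨o, Finset.mem_univ _, ?_⟩
      rw [hv]; simp
    exact_mod_cast this.ne'
  have h4 := (mul_eq_zero.mp h2).resolve_right h3
  have h5 := congrArg Complex.im h4
  simp at h5
  linarith

section

variable {C : Type u} [Category.{v} C] [Abelian C] [Linear ℂ C]
  [MonoidalCategory C] [MonoidalPreadditive C] [MonoidalLinear ℂ C] [RigidCategory C]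
  [hfd : ∀ X Y : C, FiniteDimensional ℂ (X ⟶ Y)] [Simple (𝟙_ C)] (p : Pivotal C)
variable {n : ℕ} {S : Fin n → C} (hS : IsSimples S) (dec : ∀ Z, Dec S Z) {o : Fin n}
  (uo : S o ≅ 𝟙_ C)

include hS in
lemma finrank_swap {Z : C} (d : Dec S Z) (k : Fin n) :
    Module.finrank ℂ (Z ⟶ S k) = Module.finrank ℂ (S k ⟶ Z) := by
  classical
  let e : (Z ⟶ S k) ≃ₗ[ℂ] (∀ b, (S (d.idx b) ⟶ S k)) :=
    { toFun := fun g b => d.inc b ≫ g
      map_add' := by intro g g'; ext b; simp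
      map_smul' := by intro c g; ext b; simp
      invFun := fun f => ∑ b, d.prj b ≫ f b
      left_inv := by
        intro g
        simp_rw [← Category.assoc]
        rw [← Preadditive.sum_comp, d.sum, Category.id_comp]
      right_inv := by
        intro f
        ext b
        change d.inc b ≫ ∑ b, d.prj b ≫ f b = f b
        rw [Preadditive.comp_sum, Finset.sum_eq_single b]
        · rw [← Category.assoc, d.same, Category.id_comp]
        · intro b' _ hb'
          rw [← Category.assoc, d.diff _ _ hb'.symm, zero_comp]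
        · intro h; exact absurd (Finset.mem_univ _) h }
  rw [e.finrank_eq, Module.finrank_pi_fintype]
  simp_rw [finrank_simple hS.list]
  have h := sum_dec hS.list d (fun i => if i = k then 1 else 0)
  rw [h]
  simp

/-- Frobenius reciprocity -/
lemma mult_frob {st : Fin n → Fin n} (hst : ∀ i, Nonempty (((S i)ᘁ : C) ≅ S (st i)))
    (hS : IsSimples S) (dec : ∀ Z, Dec S Z) (i j k : Fin n) : mult S i j k = mult S (st i) k j := by
  unfold mult
  obtain ⟨e⟩ := hst i
  rw [← (leftEquiv (S k) (S j) (S i)).finrank_eq, finrank_swap hS (dec _)]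
  exact NN_iso (S j) (whiskerRightIso e (S k))

include dec in
lemma exists_st (hS : IsSimples S) : ∃ st : Fin n → Fin n,
    ∀ i, Nonempty (((S i)ᘁ : C) ≅ S (st i)) := by
  have : ∀ i, ∃ j, Nonempty (((S i)ᘁ : C) ≅ S j) := fun i => by
    have := hS.simple i
    exact exists_dual_iso dec (S i)
  choose st hst using this
  exact ⟨st, hst⟩

/-- characters of the Grothendieck ring -/
structure IsChar (S : Fin n → C) (o : Fin n) (st : Fin n → Fin n) (χ : Fin n → ℂ) : Prop where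
  one : χ o = 1
  mul : ∀ i j, χ i * χ j = ∑ k, (mult S i j k : ℂ) * χ k
  star : ∀ i, χ (st i) = χ i

lemma IsChar.map {st : Fin n → Fin n} {χ : Fin n → ℂ} (h : IsChar S o st χ) (φ : ℂ ≃+* ℂ) :
    IsChar S o st (fun i => φ (χ i)) := by
  refine ⟨by simp [h.one], fun i j => ?_, fun i => by rw [h.star]⟩
  rw [← map_mul, h.mul, map_sum]
  refine Finset.sum_congr rfl fun k _ => ?_
  rw [map_mul, map_natCast]

include uo in
lemma isChar_dm (hS : IsSimples S) (dec : ∀ Z, Dec S Z) (hs : p.IsSpherical)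
    {st : Fin n → Fin n} (hst : ∀ i, Nonempty (((S i)ᘁ : C) ≅ S (st i))) :
    IsChar S o st (fun i => p.dm (S i)) := by
  refine ⟨p.dm_of_iso_unit uo, fun i j => ?_, fun i => ?_⟩
  · rw [← p.dm_tensor, p.dm_eq hS dec]
    exact Finset.sum_congr rfl fun k _ => mul_comm _ _
  · obtain ⟨e⟩ := hst i
    rw [← p.dm_iso e, p.dm_dual hs]

variable {st : Fin n → Fin n} (hst : ∀ i, Nonempty (((S i)ᘁ : C) ≅ S (st i)))

/-- the idempotent of a character -/
noncomputable def idm (χ : Fin n → ℂ) : TX S (𝟙_ C) ⟶ TX S (𝟙_ C) :=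
  (∑ k, χ k ^ 2)⁻¹ • ∑ k, χ k • kap p hS dec (S k)

lemma idm_cen (χ : Fin n → ℂ) : Cen dec (𝟙_ C) (𝟙_ C) (idm p hS dec χ) :=
  (Cen.sum _ fun k => (kap_cen p hS dec (S k)).smul _).smul _

include hst in
lemma idm_kap {χ : Fin n → ℂ} (hχ : IsChar S o st χ) (i : Fin n) :
    idm p hS dec χ ≫ kap p hS dec (S i) = χ i • idm p hS dec χ := by
  unfold idm
  rw [Linear.smul_comp, Preadditive.sum_comp, smul_comm]
  congr 1
  simp_rw [Linear.smul_comp, kap_mul, Finset.smul_sum]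
  rw [Finset.sum_comm]
  refine Finset.sum_congr rfl fun l _ => ?_
  rw [smul_smul]
  have h1 : ∀ k, χ k • mult S i k l • kap p hS dec (S l) =
      ((mult S (st i) l k : ℂ) * χ k) • kap p hS dec (S l) := by
    intro k
    rw [mult_frob hst hS dec i k l, ← Nat.cast_smul_eq_nsmul ℂ, smul_smul, mul_comm]
  simp_rw [h1]
  rw [← Finset.sum_smul, ← hχ.mul, hχ.star]

include hst in
lemma idm_cen_comp {χ : Fin n → ℂ} (hχ : IsChar S o st χ) {z : TX S (𝟙_ C) ⟶ TX S (𝟙_ C)}
    (hz : Cen dec (𝟙_ C) (𝟙_ C) z) : ∃ c : ℂ, idm p hS dec χ ≫ z = c • idm p hS dec χ := by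
  obtain ⟨c, hc⟩ := exists_kap p hS dec hz
  refine ⟨∑ k, c k * χ k, ?_⟩
  rw [hc, Preadditive.comp_sum, Finset.sum_smul]
  refine Finset.sum_congr rfl fun k _ => ?_
  rw [Linear.comp_smul, idm_kap p hS dec hst hχ, smul_smul]

include hst in
lemma idm_idm {χ : Fin n → ℂ} (hχ : IsChar S o st χ) (hf : ∑ k, χ k ^ 2 ≠ 0) :
    idm p hS dec χ ≫ idm p hS dec χ = idm p hS dec χ := by
  conv_lhs =>
    congr
    · skip
    · unfold idm
  rw [Linear.comp_smul, Preadditive.comp_sum]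
  simp_rw [Linear.comp_smul, idm_kap p hS dec hst hχ, smul_smul]
  rw [← Finset.sum_smul, smul_smul]
  have : (∑ k, χ k ^ 2)⁻¹ * ∑ k, χ k * χ k = 1 := by
    have : ∑ k, χ k * χ k = ∑ k, χ k ^ 2 := Finset.sum_congr rfl fun k _ => (sq _).symm
    rw [this, inv_mul_cancel₀ hf]
  rw [this, one_smul]

include hS uo in
lemma tr_aK_pi (k : Fin n) : p.tr (𝟙_ C) (aK p S dec (S k) ≫ pi' dec uo (𝟙_ C)) =
    if k = o then 1 else 0 := by
  unfold aK
  rw [← p.ltr_post]
  simp only [Category.assoc]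
  rw [jj_pi hS]
  have h1 : aU dec uo (𝟙_ C) (S k) = aa uo (𝟙_ C) k := ext_simple hS dec _ k
  rw [h1]
  split_ifs with hk
  · subst hk
    unfold aa
    rw [vk_o, wk_o, ← p.tr_ltr]
    have h2 : (ρ_ (S k)).hom ≫ (λ_ (S k)).inv ≫ 𝟙_ C ◁ uo.hom ≫ (ρ_ (𝟙_ C)).hom ≫
        (λ_ (𝟙_ C)).inv ≫ uo.inv ▷ 𝟙_ C = ((ρ_ (S k)).hom ≫ (λ_ (S k)).inv ≫
        𝟙_ C ◁ uo.hom ≫ (ρ_ (𝟙_ C)).hom) ≫ ((λ_ (𝟙_ C)).inv ≫ uo.inv ▷ 𝟙_ C) := by
      simp only [Category.assoc]
    rw [h2, p.tr_comm]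
    have h3 : ((λ_ (𝟙_ C)).inv ≫ uo.inv ▷ 𝟙_ C) ≫ ((ρ_ (S k)).hom ≫ (λ_ (S k)).inv ≫
        𝟙_ C ◁ uo.hom ≫ (ρ_ (𝟙_ C)).hom) = 𝟙 _ := by
      calc
        _ = 𝟙 _ ⊗≫ (uo.inv ≫ uo.hom) ⊗≫ 𝟙 _ := by monoidal
        _ = _ := by rw [Iso.inv_hom_id]; monoidal
    rw [h3]
    exact p.dm_unit
  · unfold aa vk
    rw [dif_neg hk]
    simp [p.ltr_eq, monoidalComp]

include uo in
lemma tr_idm (hs : p.IsSpherical) {χ : Fin n → ℂ} (hχ : IsChar S o st χ) :
    p.tr (TX S (𝟙_ C)) (idm p hS dec χ) = gd p S * (∑ k, χ k ^ 2)⁻¹ := by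
  rw [tr_formula p hS dec uo hs (𝟙_ C) _ (idm_cen p hS dec χ)]
  congr 1
  unfold idm
  rw [Linear.smul_comp, Linear.comp_smul, map_smul, smul_eq_mul]
  have h1 : p.tr (𝟙_ C) (eta dec (𝟙_ C) ≫ (∑ k, χ k • kap p hS dec (S k)) ≫
      pi' dec uo (𝟙_ C)) = 1 := by
    rw [Preadditive.sum_comp, Preadditive.comp_sum, map_sum]
    have h2 : ∀ k, p.tr (𝟙_ C) (eta dec (𝟙_ C) ≫ (χ k • kap p hS dec (S k)) ≫
        pi' dec uo (𝟙_ C)) = χ k * if k = o then 1 else 0 := by
      intro k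
      rw [Linear.smul_comp, Linear.comp_smul, map_smul, smul_eq_mul, ← Category.assoc]
      congr 1
      unfold kap
      rw [eta_lft, tr_aK_pi p hS dec uo]
    simp_rw [h2]
    simp [hχ.one]
  rw [h1, mul_one]

end

end Run7.h292
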