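import Pool.Agent.Run7.h292.Ss
import Pool.Agent.Run7.h292.Half

/-!
The induction functor to the centre.
-/

set_option autoImplicit false
set_option linter.unusedSectionVars false

open CategoryTheory CategoryTheory.Limits MonoidalCategory ExactPairing
open Pool.Agent.Helper781.Fusion (Dec IsSimpleList exists_scalar finrank_simple hom_zero sum_dec)

namespace Run7.h292

universe v u

/-- A direct sum. -/
structure SumData {C : Type u} [Category.{v} C] [Preadditive C] {n : ℕ} (F : Fin n → C) where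
  obj : C
  inc : ∀ k, F k ⟶ obj
  prj : ∀ k, obj ⟶ F k
  same : ∀ k, inc k ≫ prj k = 𝟙 _
  diff : ∀ k l, k ≠ l → inc k ≫ prj l = 0
  sum : ∑ k, prj k ≫ inc k = 𝟙 obj

lemma exists_sumData {C : Type u} [Category.{v} C] [Abelian C] {n : ℕ} (F : Fin n → C) :
    Nonempty (SumData F) := by
  have : HasFiniteBiproducts C := Abelian.hasFiniteBiproducts
  exact ⟨⟨⨁ F, biproduct.ι F, biproduct.π F, fun i => biproduct.ι_π_self F i,
    fun i j h => biproduct.ι_π_ne F h, biproduct.total⟩⟩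

section

variable {C : Type u} [Category.{v} C] [Abelian C] [Linear ℂ C]
  [MonoidalCategory C] [MonoidalPreadditive C] [MonoidalLinear ℂ C] [RightRigidCategory C]
  [hfd : ∀ X Y : C, FiniteDimensional ℂ (X ⟶ Y)]
variable {n : ℕ} {S : Fin n → C} (hS : IsSimples S) (dec : ∀ Z, Dec S Z)

/-- extension of a family of maps from the simple objects to all objects -/
noncomputable def ext (dec : ∀ Z, Dec S Z) {X V : C} (a : ∀ k, X ⊗ S k ⟶ S k ⊗ V) (U : C) :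
    X ⊗ U ⟶ U ⊗ V :=
  ∑ b, X ◁ (dec U).prj b ≫ a ((dec U).idx b) ≫ (dec U).inc b ▷ V

include hS in
lemma simple_nat {X V : C} (a : ∀ k, X ⊗ S k ⟶ S k ⊗ V) (k l : Fin n) (m : S k ⟶ S l) :
    X ◁ m ≫ a l = a k ≫ m ▷ V := by
  by_cases h : k = l
  · subst h
    have := hS.simple k
    rw [sc_spec m]
    simp [MonoidalLinear.whiskerLeft_smul, MonoidalLinear.smul_whiskerRight]
  · rw [hom_zero hS.list h m]
    simp

include hS in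
lemma ext_nat {X V : C} (a : ∀ k, X ⊗ S k ⟶ S k ⊗ V) {U U' : C} (h : U ⟶ U') :
    X ◁ h ≫ ext dec a U' = ext dec a U ≫ h ▷ V := by
  have key : ∀ b b', X ◁ ((dec U).prj b ≫ ((dec U).inc b ≫ h ≫ (dec U').prj b')) ≫
      a ((dec U').idx b') ≫ (dec U').inc b' ▷ V =
      X ◁ (dec U).prj b ≫ a ((dec U).idx b) ≫
        (((dec U).inc b ≫ h ≫ (dec U').prj b') ≫ (dec U').inc b') ▷ V := by
    intro b b'
    rw [MonoidalCategory.whiskerLeft_comp, Category.assoc,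
      ← Category.assoc (X ◁ ((dec U).inc b ≫ h ≫ (dec U').prj b')),
      simple_nat hS a]
    simp only [comp_whiskerRight, Category.assoc]
  have e1 : X ◁ h ≫ ext dec a U' = ∑ b', ∑ b, X ◁ ((dec U).prj b ≫
      ((dec U).inc b ≫ h ≫ (dec U').prj b')) ≫ a ((dec U').idx b') ≫ (dec U').inc b' ▷ V := by
    unfold ext
    rw [Preadditive.comp_sum]
    refine Finset.sum_congr rfl fun b' _ => ?_
    rw [← Preadditive.sum_comp, ← whiskerLeft_sum]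
    have : ∑ b, (dec U).prj b ≫ (dec U).inc b ≫ h ≫ (dec U').prj b' = h ≫ (dec U').prj b' := by
      simp_rw [← Category.assoc]
      rw [← Preadditive.sum_comp, ← Preadditive.sum_comp, (dec U).sum, Category.id_comp]
    rw [this, MonoidalCategory.whiskerLeft_comp, Category.assoc]
  have e2 : ext dec a U ≫ h ▷ V = ∑ b, ∑ b', X ◁ (dec U).prj b ≫ a ((dec U).idx b) ≫
        (((dec U).inc b ≫ h ≫ (dec U').prj b') ≫ (dec U').inc b') ▷ V := by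
    unfold ext
    rw [Preadditive.sum_comp]
    refine Finset.sum_congr rfl fun b _ => ?_
    rw [← Preadditive.comp_sum, ← Preadditive.comp_sum, ← sum_whiskerRight]
    have : ∑ b', ((dec U).inc b ≫ h ≫ (dec U').prj b') ≫ (dec U').inc b' = (dec U).inc b ≫ h := by
      simp only [Category.assoc]
      rw [← Preadditive.comp_sum, ← Preadditive.comp_sum, (dec U').sum, Category.comp_id]
    rw [this, comp_whiskerRight]
    simp only [Category.assoc]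
  rw [e1, e2, Finset.sum_comm]
  exact Finset.sum_congr rfl fun b _ => Finset.sum_congr rfl fun b' _ => key b b'

include hS in
lemma ext_simple {X V : C} (a : ∀ k, X ⊗ S k ⟶ S k ⊗ V) (k : Fin n) :
    ext dec a (S k) = a k := by
  unfold ext
  have : ∀ b, X ◁ (dec (S k)).prj b ≫ a ((dec (S k)).idx b) ≫ (dec (S k)).inc b ▷ V =
      a k ≫ ((dec (S k)).prj b ≫ (dec (S k)).inc b) ▷ V := by
    intro b
    rw [← Category.assoc, simple_nat hS a, comp_whiskerRight, Category.assoc]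
  simp_rw [this]
  rw [← Preadditive.comp_sum, ← sum_whiskerRight, (dec (S k)).sum]
  simp

/-- Extensionality for natural families. -/
lemma nat_ext (dec : ∀ Z, Dec S Z) {X V : C} {a b : ∀ U : C, X ⊗ U ⟶ U ⊗ V}
    (ha : ∀ {U U' : C} (h : U ⟶ U'), X ◁ h ≫ a U' = a U ≫ h ▷ V)
    (hb : ∀ {U U' : C} (h : U ⟶ U'), X ◁ h ≫ b U' = b U ≫ h ▷ V)
    (hab : ∀ k, a (S k) = b (S k)) (U : C) : a U = b U := by
  have key : ∀ (c : ∀ U : C, X ⊗ U ⟶ U ⊗ V)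
    (hc : ∀ {U U' : C} (h : U ⟶ U'), X ◁ h ≫ c U' = c U ≫ h ▷ V),
      c U = ∑ b, X ◁ (dec U).prj b ≫ c (S ((dec U).idx b)) ≫ (dec U).inc b ▷ V := by
    intro c hc
    have : ∀ b, X ◁ (dec U).prj b ≫ c (S ((dec U).idx b)) ≫ (dec U).inc b ▷ V =
        c U ≫ ((dec U).prj b ≫ (dec U).inc b) ▷ V := by
      intro b
      rw [← Category.assoc, hc, comp_whiskerRight, Category.assoc]
    simp_rw [this]
    rw [← Preadditive.comp_sum, ← sum_whiskerRight, (dec U).sum]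
    simp
  rw [key a ha, key b hb]
  refine Finset.sum_congr rfl fun b' _ => ?_
  rw [hab]


/-! ### The universal object -/

/-- the direct sum of the `S k* ⊗ (X ⊗ S k)` -/
noncomputable def TS (S : Fin n → C) (X : C) : SumData (fun k => ((S k)ᘁ : C) ⊗ (X ⊗ S k)) :=
  (exists_sumData _).some

/-- the underlying object of the induced object -/
noncomputable def TX (S : Fin n → C) (X : C) : C := (TS S X).obj

/-- inclusions -/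
noncomputable def tinc (S : Fin n → C) (X : C) (k : Fin n) :
    ((S k)ᘁ : C) ⊗ (X ⊗ S k) ⟶ TX S X := (TS S X).inc k

/-- projections -/
noncomputable def tprj (S : Fin n → C) (X : C) (k : Fin n) :
    TX S X ⟶ ((S k)ᘁ : C) ⊗ (X ⊗ S k) := (TS S X).prj k

lemma tsame (S : Fin n → C) (X : C) (k : Fin n) : tinc S X k ≫ tprj S X k = 𝟙 _ :=
  (TS S X).same k

lemma tdiff (S : Fin n → C) (X : C) (k l : Fin n) (h : k ≠ l) : tinc S X k ≫ tprj S X l = 0 :=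
  (TS S X).diff k l h

lemma tsum (S : Fin n → C) (X : C) : ∑ k, tprj S X k ≫ tinc S X k = 𝟙 (TX S X) :=
  (TS S X).sum

/-- the universal family, on the simple objects -/
noncomputable def js (S : Fin n → C) (X : C) (k : Fin n) : X ⊗ S k ⟶ S k ⊗ TX S X :=
  𝟙 _ ⊗≫ η_ (S k) ((S k)ᘁ : C) ▷ (X ⊗ S k) ⊗≫ S k ◁ tinc S X k

/-- the universal family -/
noncomputable def jj (dec : ∀ Z, Dec S Z) (X U : C) : X ⊗ U ⟶ U ⊗ TX S X :=
  ext dec (js S X) U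

include hS in
lemma jj_nat (X : C) {U U' : C} (h : U ⟶ U') :
    X ◁ h ≫ jj dec X U' = jj dec X U ≫ h ▷ TX S X := ext_nat hS dec _ h

include hS in
lemma jj_simple (X : C) (k : Fin n) : jj dec X (S k) = js S X k := ext_simple hS dec _ k

/-- The map out of `T X ⊗ A` given by a family. -/
noncomputable def ind (X : C) {A B : C} (b : ∀ k, X ⊗ (S k ⊗ A) ⟶ S k ⊗ B) :
    TX S X ⊗ A ⟶ B :=
  ∑ k, (tprj S X k ▷ A ⊗≫ ((S k)ᘁ : C) ◁ b k ⊗≫ ε_ (S k) ((S k)ᘁ : C) ▷ B ⊗≫ 𝟙 _)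

lemma inc_ind (X : C) {A B : C} (b : ∀ k, X ⊗ (S k ⊗ A) ⟶ S k ⊗ B) (k : Fin n) :
    tinc S X k ▷ A ≫ ind X b =
      𝟙 _ ⊗≫ ((S k)ᘁ : C) ◁ b k ⊗≫ ε_ (S k) ((S k)ᘁ : C) ▷ B ⊗≫ 𝟙 _ := by
  unfold ind
  rw [Preadditive.comp_sum, Finset.sum_eq_single k]
  · calc
      _ = (tinc S X k ≫ tprj S X k) ▷ A ⊗≫ ((S k)ᘁ : C) ◁ b k ⊗≫
          ε_ (S k) ((S k)ᘁ : C) ▷ B ⊗≫ 𝟙 _ := by monoidal
      _ = _ := by rw [tsame]; monoidal
  · intro l _ hl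
    calc
      _ = (tinc S X k ≫ tprj S X l) ▷ A ⊗≫ ((S l)ᘁ : C) ◁ b l ⊗≫
          ε_ (S l) ((S l)ᘁ : C) ▷ B ⊗≫ 𝟙 _ := by monoidal
      _ = _ := by rw [tdiff S X k l hl.symm]; simp [monoidalComp]
  · intro h; exact absurd (Finset.mem_univ _) h

lemma js_ind (X : C) {A B : C} (b : ∀ k, X ⊗ (S k ⊗ A) ⟶ S k ⊗ B) (k : Fin n) :
    𝟙 _ ⊗≫ js S X k ▷ A ⊗≫ S k ◁ ind X b = b k := by
  unfold js
  calc
    _ = 𝟙 _ ⊗≫ η_ (S k) ((S k)ᘁ : C) ▷ (X ⊗ S k) ▷ A ⊗≫ S k ◁ (tinc S X k ▷ A ≫ ind X b) := by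
      monoidal
    _ = 𝟙 _ ⊗≫ (η_ (S k) ((S k)ᘁ : C) ▷ (X ⊗ (S k ⊗ A)) ≫ (S k ⊗ ((S k)ᘁ : C)) ◁ b k) ⊗≫
        S k ◁ ε_ (S k) ((S k)ᘁ : C) ▷ B ⊗≫ 𝟙 _ := by
      rw [inc_ind]; monoidal
    _ = b k ⊗≫ (η_ (S k) ((S k)ᘁ : C) ▷ S k ⊗≫ S k ◁ ε_ (S k) ((S k)ᘁ : C)) ▷ B ⊗≫ 𝟙 _ := by
      rw [← whisker_exchange]; monoidal
    _ = _ := by rw [evaluation_coevaluation'']; monoidal

/-- uniqueness of maps out of `T X ⊗ A` -/
lemma ind_unique (X : C) {A B : C} {g g' : TX S X ⊗ A ⟶ B}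
    (h : ∀ k, 𝟙 _ ⊗≫ js S X k ▷ A ⊗≫ S k ◁ g = 𝟙 (X ⊗ (S k ⊗ A)) ⊗≫ js S X k ▷ A ⊗≫ S k ◁ g') :
    g = g' := by
  have key : ∀ g : TX S X ⊗ A ⟶ B, ∀ k, tinc S X k ▷ A ≫ g =
      𝟙 _ ⊗≫ ((S k)ᘁ : C) ◁ (𝟙 (X ⊗ (S k ⊗ A)) ⊗≫ js S X k ▷ A ⊗≫ S k ◁ g) ⊗≫
        ε_ (S k) ((S k)ᘁ : C) ▷ B ⊗≫ 𝟙 _ := by
    intro g k
    unfold js
    symm
    calc
      _ = 𝟙 _ ⊗≫ ((S k)ᘁ : C) ◁ η_ (S k) ((S k)ᘁ : C) ▷ (X ⊗ S k) ▷ A ⊗≫
          ((((S k)ᘁ : C) ⊗ S k) ◁ (tinc S X k ▷ A ≫ g) ≫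
            ε_ (S k) ((S k)ᘁ : C) ▷ B) ⊗≫ 𝟙 _ := by monoidal
      _ = 𝟙 _ ⊗≫ (((S k)ᘁ : C) ◁ η_ (S k) ((S k)ᘁ : C) ⊗≫
          ε_ (S k) ((S k)ᘁ : C) ▷ ((S k)ᘁ : C)) ▷ (X ⊗ S k) ▷ A ⊗≫
          (tinc S X k ▷ A ≫ g) ⊗≫ 𝟙 _ := by
        rw [whisker_exchange]; monoidal
      _ = _ := by rw [coevaluation_evaluation'']; monoidal
  have h2 : ∀ g : TX S X ⊗ A ⟶ B, g = ∑ k, tprj S X k ▷ A ≫ tinc S X k ▷ A ≫ g := by
    intro g
    simp_rw [← Category.assoc, ← comp_whiskerRight]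
    rw [← Preadditive.sum_comp, ← sum_whiskerRight, tsum]
    simp
  rw [h2 g, h2 g']
  refine Finset.sum_congr rfl fun k _ => ?_
  rw [key g, key g', h k]


/-- Extensionality for natural families between additive functors. -/
lemma nat_ext' (dec : ∀ Z, Dec S Z) (F G : C ⥤ C) [F.Additive] [G.Additive]
    {a b : ∀ U : C, F.obj U ⟶ G.obj U}
    (ha : ∀ {U U' : C} (h : U ⟶ U'), F.map h ≫ a U' = a U ≫ G.map h)
    (hb : ∀ {U U' : C} (h : U ⟶ U'), F.map h ≫ b U' = b U ≫ G.map h)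
    (hab : ∀ k, a (S k) = b (S k)) (U : C) : a U = b U := by
  have key : ∀ (c : ∀ U : C, F.obj U ⟶ G.obj U)
    (hc : ∀ {U U' : C} (h : U ⟶ U'), F.map h ≫ c U' = c U ≫ G.map h),
      c U = ∑ b, F.map ((dec U).prj b) ≫ c (S ((dec U).idx b)) ≫ G.map ((dec U).inc b) := by
    intro c hc
    have : ∀ b, F.map ((dec U).prj b) ≫ c (S ((dec U).idx b)) ≫ G.map ((dec U).inc b) =
        c U ≫ G.map ((dec U).prj b ≫ (dec U).inc b) := by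
      intro b
      rw [← Category.assoc, hc, G.map_comp, Category.assoc]
    simp_rw [this]
    rw [← Preadditive.comp_sum, ← G.map_sum, (dec U).sum]
    simp
  rw [key a ha, key b hb]
  refine Finset.sum_congr rfl fun b' _ => ?_
  rw [hab]

include hS in
/-- The map out of `T X ⊗ A` given by a natural family. -/
lemma jj_ind (X : C) {A B : C} (b : ∀ U : C, X ⊗ (U ⊗ A) ⟶ U ⊗ B)
    (hb : ∀ {U U' : C} (h : U ⟶ U'), X ◁ h ▷ A ≫ b U' = b U ≫ h ▷ B) (U : C) :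
    𝟙 _ ⊗≫ jj dec X U ▷ A ⊗≫ U ◁ ind X (fun k => b (S k)) = b U := by
  refine nat_ext' dec (tensorRight A ⋙ tensorLeft X) (tensorRight B)
    (a := fun U => (𝟙 (X ⊗ (U ⊗ A)) ⊗≫ jj dec X U ▷ A ⊗≫ U ◁ ind X (fun k => b (S k)) :
      X ⊗ (U ⊗ A) ⟶ U ⊗ B)) (b := b) ?_ hb ?_ U
  · intro U U' h
    change X ◁ (h ▷ A) ≫ (𝟙 _ ⊗≫ jj dec X U' ▷ A ⊗≫ U' ◁ ind X (fun k => b (S k))) =
      (𝟙 _ ⊗≫ jj dec X U ▷ A ⊗≫ U ◁ ind X (fun k => b (S k))) ≫ h ▷ B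
    calc
      _ = 𝟙 _ ⊗≫ (X ◁ h ≫ jj dec X U') ▷ A ⊗≫ U' ◁ ind X (fun k => b (S k)) := by monoidal
      _ = 𝟙 _ ⊗≫ jj dec X U ▷ A ⊗≫ (h ▷ (TX S X ⊗ A) ≫ U' ◁ ind X (fun k => b (S k))) := by
        rw [jj_nat hS]; monoidal
      _ = _ := by rw [← whisker_exchange]; monoidal
  · intro k
    simp only [jj_simple hS]
    exact js_ind X _ k

include hS in
/-- uniqueness, in terms of all objects -/
lemma jj_unique (X : C) {A B : C} {g g' : TX S X ⊗ A ⟶ B}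
    (h : ∀ U, 𝟙 (X ⊗ (U ⊗ A)) ⊗≫ jj dec X U ▷ A ⊗≫ U ◁ g =
      𝟙 (X ⊗ (U ⊗ A)) ⊗≫ jj dec X U ▷ A ⊗≫ U ◁ g') :
    g = g' := by
  refine ind_unique X fun k => ?_
  have := h (S k)
  rw [jj_simple hS] at this
  exact this

/-- the half-braiding on the induced object -/
noncomputable def bt (dec : ∀ Z, Dec S Z) (X U : C) : TX S X ⊗ U ⟶ U ⊗ TX S X :=
  ind X (fun k => jj dec X (S k ⊗ U) ⊗≫ 𝟙 _)

include hS in
lemma jj_bt (X U V : C) :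
    jj dec X V ▷ U ≫ (α_ _ _ _).hom ≫ V ◁ bt dec X U =
      (α_ _ _ _).hom ≫ jj dec X (V ⊗ U) ≫ (α_ _ _ _).hom := by
  have h : 𝟙 (X ⊗ (V ⊗ U)) ⊗≫ jj dec X V ▷ U ⊗≫ V ◁ bt dec X U =
      jj dec X (V ⊗ U) ⊗≫ 𝟙 (V ⊗ (U ⊗ TX S X)) := by
    refine jj_ind hS dec X (fun V => jj dec X (V ⊗ U) ⊗≫ 𝟙 (V ⊗ (U ⊗ TX S X))) ?_ V
    intro V V' h
    calc
      _ = (X ◁ (h ▷ U) ≫ jj dec X (V' ⊗ U)) ⊗≫ 𝟙 _ := by monoidal
      _ = _ := by rw [jj_nat hS]; monoidal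
  calc
    _ = 𝟙 _ ⊗≫ (𝟙 (X ⊗ (V ⊗ U)) ⊗≫ jj dec X V ▷ U ⊗≫ V ◁ bt dec X U) := by monoidal
    _ = _ := by rw [h]; monoidal

include hS in
lemma bt_nat (X : C) {U V : C} (f : U ⟶ V) :
    TX S X ◁ f ≫ bt dec X V = bt dec X U ≫ f ▷ TX S X := by
  refine jj_unique hS dec X fun W => ?_
  calc
    _ = 𝟙 _ ⊗≫ (jj dec X W ▷ U ≫ (W ⊗ TX S X) ◁ f) ⊗≫ W ◁ bt dec X V := by monoidal
    _ = X ◁ W ◁ f ⊗≫ (jj dec X W ▷ V ≫ (α_ _ _ _).hom ≫ W ◁ bt dec X V) := by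
      rw [← whisker_exchange]; monoidal
    _ = (X ◁ (W ◁ f) ≫ jj dec X (W ⊗ V)) ⊗≫ 𝟙 _ := by rw [jj_bt hS]; monoidal
    _ = 𝟙 _ ⊗≫ ((α_ _ _ _).hom ≫ jj dec X (W ⊗ U) ≫ (α_ _ _ _).hom) ⊗≫ W ◁ f ▷ TX S X := by
      rw [jj_nat hS]; monoidal
    _ = _ := by rw [← jj_bt hS]; monoidal

include hS in
lemma bt_unit (X : C) : bt dec X (𝟙_ C) = (ρ_ (TX S X)).hom ≫ (λ_ (TX S X)).inv := by
  refine jj_unique hS dec X fun W => ?_
  calc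
    _ = 𝟙 _ ⊗≫ (jj dec X W ▷ (𝟙_ C) ≫ (α_ _ _ _).hom ≫ W ◁ bt dec X (𝟙_ C)) := by monoidal
    _ = 𝟙 _ ⊗≫ (jj dec X (W ⊗ 𝟙_ C) ≫ (ρ_ W).hom ▷ TX S X) ⊗≫ 𝟙 _ := by
      rw [jj_bt hS]; monoidal
    _ = _ := by rw [← jj_nat hS]; monoidal

include hS in
lemma bt_mon (X U V : C) : bt dec X (U ⊗ V) =
      (α_ _ _ _).inv ≫ (bt dec X U ▷ V) ≫ (α_ _ _ _).hom ≫ (U ◁ bt dec X V) ≫ (α_ _ _ _).inv := by
  refine jj_unique hS dec X fun W => ?_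
  symm
  calc
    _ = 𝟙 _ ⊗≫ (jj dec X W ▷ U ≫ (α_ _ _ _).hom ≫ W ◁ bt dec X U) ▷ V ⊗≫
        W ◁ U ◁ bt dec X V ⊗≫ 𝟙 _ := by monoidal
    _ = 𝟙 _ ⊗≫ (jj dec X (W ⊗ U) ▷ V ≫ (α_ _ _ _).hom ≫ (W ⊗ U) ◁ bt dec X V) ⊗≫
        𝟙 _ := by rw [jj_bt hS]; monoidal
    _ = 𝟙 _ ⊗≫ (X ◁ (α_ W U V).inv ≫ jj dec X ((W ⊗ U) ⊗ V)) ⊗≫ 𝟙 _ := by
      rw [jj_bt hS]; monoidal
    _ = 𝟙 _ ⊗≫ ((α_ _ _ _).hom ≫ jj dec X (W ⊗ (U ⊗ V)) ≫ (α_ _ _ _).hom) := by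
      rw [jj_nat hS]; monoidal
    _ = _ := by rw [← jj_bt hS]; monoidal

end

/-! ### The induced object of the centre -/

section rigid

variable {C : Type u} [Category.{v} C] [Abelian C] [Linear ℂ C]
  [MonoidalCategory C] [MonoidalPreadditive C] [MonoidalLinear ℂ C] [RigidCategory C]
  [hfd : ∀ X Y : C, FiniteDimensional ℂ (X ⟶ Y)]
variable {n : ℕ} {S : Fin n → C} (hS : IsSimples S) (dec : ∀ Z, Dec S Z)

/-- the induced object -/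
noncomputable def Ind (X : C) : Center C :=
  ⟨TX S X, mkHalf (bt dec X) (bt_nat hS dec X) (bt_unit hS dec X) (bt_mon hS dec X)⟩

lemma Ind_fst (X : C) : (Ind hS dec X).1 = TX S X := rfl

lemma Ind_β (X U : C) : ((Ind hS dec X).2.β U).hom = bt dec X U := rfl

/-- the unit of the adjunction -/
noncomputable def eta (X : C) : X ⟶ TX S X := (ρ_ X).inv ≫ jj dec X (𝟙_ C) ≫ (λ_ _).hom

include hS in
/-- the universal family in terms of the unit of the adjunction -/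
lemma eta_bt (X U : C) : eta dec X ▷ U ≫ bt dec X U = jj dec X U := by
  unfold eta
  calc
    _ = 𝟙 _ ⊗≫ (jj dec X (𝟙_ C) ▷ U ≫ (α_ _ _ _).hom ≫ (𝟙_ C) ◁ bt dec X U) ⊗≫ 𝟙 _ := by monoidal
    _ = 𝟙 _ ⊗≫ (jj dec X (𝟙_ C ⊗ U) ≫ (λ_ U).hom ▷ TX S X) ⊗≫ 𝟙 _ := by
      rw [jj_bt hS]; monoidal
    _ = _ := by rw [← jj_nat hS]; monoidal

/-- the map out of the induced object given by a map in `C`. -/
noncomputable def lift (S : Fin n → C) (W : Center C) {X : C} (a : X ⟶ W.1) : TX S X ⟶ W.1 :=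
  (ρ_ _).inv ≫ ind X (fun k => X ◁ (ρ_ (S k)).hom ≫ a ▷ S k ≫ (W.2.β (S k)).hom)

include hS in
lemma jj_lift (W : Center C) {X : C} (a : X ⟶ W.1) (U : C) :
    jj dec X U ≫ U ◁ lift S W a = a ▷ U ≫ (W.2.β U).hom := by
  have h := jj_ind hS dec X (A := 𝟙_ C) (B := W.1)
    (fun U => X ◁ (ρ_ U).hom ≫ a ▷ U ≫ (W.2.β U).hom) ?_ U
  · calc
      _ = 𝟙 _ ⊗≫ (𝟙 (X ⊗ (U ⊗ 𝟙_ C)) ⊗≫ jj dec X U ▷ (𝟙_ C) ⊗≫ U ◁ ind X (fun k =>
        X ◁ (ρ_ (S k)).hom ≫ a ▷ S k ≫ (W.2.β (S k)).hom)) := by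
          unfold lift; monoidal
      _ = _ := by rw [h]; monoidal
  · intro U U' f
    simp only [Category.assoc]
    rw [← W.2.naturality, ← whisker_exchange_assoc, ← MonoidalCategory.whiskerLeft_comp_assoc,
      rightUnitor_naturality, MonoidalCategory.whiskerLeft_comp_assoc]

include hS in
lemma lift_comm (W : Center C) {X : C} (a : X ⟶ W.1) (U : C) :
    lift S W a ▷ U ≫ (W.2.β U).hom = bt dec X U ≫ U ◁ lift S W a := by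
  refine jj_unique hS dec X fun V => ?_
  symm
  calc
    _ = 𝟙 _ ⊗≫ (jj dec X V ▷ U ≫ (α_ _ _ _).hom ≫ V ◁ bt dec X U) ⊗≫ V ◁ U ◁ lift S W a := by
      monoidal
    _ = 𝟙 _ ⊗≫ (jj dec X (V ⊗ U) ≫ (V ⊗ U) ◁ lift S W a) ⊗≫ 𝟙 _ := by rw [jj_bt hS]; monoidal
    _ = 𝟙 _ ⊗≫ (a ▷ V ≫ (W.2.β V).hom) ▷ U ⊗≫ V ◁ (W.2.β U).hom ⊗≫ 𝟙 _ := by
      rw [jj_lift hS, W.2.monoidal]; monoidal
    _ = _ := by rw [← jj_lift hS dec]; monoidal

/-- the morphism of the centre given by a map in `C`. -/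
noncomputable def liftC (W : Center C) {X : C} (a : X ⟶ W.1) : Ind hS dec X ⟶ W where
  f := lift S W a
  comm U := lift_comm hS dec W a U

include hS in
lemma eta_lift (W : Center C) {X : C} (a : X ⟶ W.1) : eta dec X ≫ lift S W a = a := by
  unfold eta
  calc
    _ = (ρ_ X).inv ≫ (jj dec X (𝟙_ C) ≫ (𝟙_ C) ◁ lift S W a) ≫ (λ_ _).hom := by
      simp
    _ = _ := by rw [jj_lift hS, halfBraiding_unit]; simp

include hS in
lemma lift_unique' (W : Center C) {X : C} (g : TX S X ⟶ W.1)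
    (hg : ∀ U, g ▷ U ≫ (W.2.β U).hom = bt dec X U ≫ U ◁ g) :
    lift S W (eta dec X ≫ g) = g := by
  have h : (ρ_ _).hom ≫ lift S W (eta dec X ≫ g) = (ρ_ _).hom ≫ g := by
    refine jj_unique hS dec X (A := 𝟙_ C) fun V => ?_
    have h1 : jj dec X V ≫ V ◁ lift S W (eta dec X ≫ g) = jj dec X V ≫ V ◁ g := by
      rw [jj_lift hS, comp_whiskerRight, Category.assoc, hg, ← Category.assoc,
        eta_bt hS]
    calc
      _ = 𝟙 _ ⊗≫ (jj dec X V ≫ V ◁ lift S W (eta dec X ≫ g)) := by monoidal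
      _ = _ := by rw [h1]; monoidal
  exact (cancel_epi (ρ_ (TX S X)).hom).mp h

include hS in
lemma lift_unique (W : Center C) {X : C} (g : Ind hS dec X ⟶ W) :
    lift S W (eta dec X ≫ (show TX S X ⟶ W.1 from g.f)) = g.f :=
  lift_unique' hS dec W _ g.comm

end rigid

end Run7.h292
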