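import Pool.Agent.Run7.h292.Alg

/-!
The main inequality.
-/

set_option autoImplicit false
set_option linter.unusedSectionVars false

open CategoryTheory CategoryTheory.Limits MonoidalCategory ExactPairing
open Pool.Agent.Helper781.Fusion (Dec IsSimpleList exists_scalar finrank_simple hom_zero sum_dec)

namespace Run7.h292

universe v u

section

variable {C : Type u} [Category.{v} C] [Abelian C] [Linear ℂ C]
  [MonoidalCategory C] [MonoidalPreadditive C] [MonoidalLinear ℂ C] [RigidCategory C]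
  [hfd : ∀ X Y : C, FiniteDimensional ℂ (X ⟶ Y)] [Simple (𝟙_ C)] (p : Pivotal C)
variable {n : ℕ} {S : Fin n → C} (hS : IsSimples S) (dec : ∀ Z, Dec S Z) {o : Fin n}
  (uo : S o ≅ 𝟙_ C)

/-- the inequality between the traces and the formal codegree of a character -/
lemma main_ineq (hS : IsSimples S) (dec : ∀ Z, Dec S Z) (uo : S o ≅ 𝟙_ C)
    (hs : p.IsSpherical) (hD : gd p S ≠ 0)
    {st : Fin n → Fin n} (hst : ∀ i, Nonempty (((S i)ᘁ : C) ≅ S (st i)))
    {χ : Fin n → ℂ} (hχ : IsChar S o st χ) (hf : ∑ k, χ k ^ 2 ≠ 0)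
    (ν : Fin n → ℤ) (hν : ∀ k, p.tr (S k) (eta dec (S k) ≫ twX p S dec (S k) ≫
      twX p S dec (S k) ≫ pi' dec uo (S k)) = ν k)
    (φ : ℂ ≃+* ℂ) :
    8 * ‖φ (gd p S * (∑ k, χ k ^ 2)⁻¹)‖ ^ 2 ≤
      (φ (3 * gd p S ^ 2 + 4 * gd p S + gd p S * ∑ k, (ν k : ℂ) * p.dm (S k))).re := by
  classical
  obtain ⟨G⟩ := exists_sumData S
  set A := AA (S := S) dec G.obj with hA
  have hss : IsSemisimpleRing A := AA_semisimple p hS dec hs hD G.obj
  let pr : Fin n → A := fun i => pid hS dec (G.inc i) (G.prj i)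
  have hpr : ∀ i, pr i * pr i = pr i := by
    intro i
    apply mf_ext
    change Im hS dec (G.prj i ≫ G.inc i) ≫ Im hS dec (G.prj i ≫ G.inc i) = Im hS dec _
    rw [Im_comp]
    congr 1
    rw [Category.assoc, ← Category.assoc (G.inc i), G.same, Category.id_comp]
  have hd : ∀ i, (φ (p.dm (S i))).im = 0 := by
    have hc := (isChar_dm p uo hS dec hs hst).map φ
    exact real_of_fusion (N := mult S) (st := st) (o := o) hc.one hc.mul hc.star
      (fun i j k => mult_frob hst hS dec i j k)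
  have hτ : ∀ a : A, ta p a = ∑ i, p.dm (S i) *
      LinearMap.trace ℂ A (LinearMap.mulLeftRight ℂ (a, pr i)) := by
    intro a
    unfold ta
    rw [p.tr_eq hS dec]
    refine Finset.sum_congr rfl fun i _ => ?_
    rw [trace_mlr hS dec (G.inc i) (G.prj i) (G.same i) a]
  let t : A := ⟨twX p S dec G.obj, fun U => twX_comm p hS dec _ U⟩
  have ht : ∀ a : A, t * a = a * t := by
    intro a
    apply mf_ext
    change mf a ≫ twX p S dec G.obj = twX p S dec G.obj ≫ mf a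
    exact twX_nat p dec hS (mf_cen a)
  have hθ : ∀ μ : ℂ, Module.End.HasEigenvalue (LinearMap.mulLeft ℂ t) μ → ‖φ μ‖ = 1 := by
    intro μ hμ
    obtain ⟨x, hx⟩ := hμ.exists_hasEigenvector
    refine vafa_tw p hS dec φ G.obj (TX S G.obj) μ
      (Module.End.hasEigenvalue_of_hasEigenvector (x := mf x) ⟨?_, ?_⟩)
    · rw [Module.End.mem_eigenspace_iff]
      exact congrArg mf (Module.End.mem_eigenspace_iff.mp hx.1)
    · intro h0
      exact hx.2 (mf_ext h0)
  let π1 : G.obj ⟶ 𝟙_ C := G.prj o ≫ uo.hom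
  let ι1 : 𝟙_ C ⟶ G.obj := uo.inv ≫ G.inc o
  have hιπ : ι1 ≫ π1 = 𝟙 _ := by
    change (uo.inv ≫ G.inc o) ≫ G.prj o ≫ uo.hom = 𝟙 _
    rw [Category.assoc, ← Category.assoc (G.inc o), G.same, Category.id_comp, Iso.inv_hom_id]
  have hIιπ : Im hS dec ι1 ≫ Im hS dec π1 = 𝟙 _ := by rw [Im_comp, hιπ, Im_id]
  let e : A := ⟨Im hS dec π1 ≫ idm p hS dec χ ≫ Im hS dec ι1,
    (Im_cen hS dec π1).comp ((idm_cen p hS dec χ).comp (Im_cen hS dec ι1))⟩
  have hef : mf e = Im hS dec π1 ≫ idm p hS dec χ ≫ Im hS dec ι1 := rfl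
  have hτe : ta p e = gd p S * (∑ k, χ k ^ 2)⁻¹ := by
    rw [← tr_idm p hS dec uo hs hχ]
    unfold ta
    rw [hef, p.tr_comm, Category.assoc, hIιπ, Category.comp_id]
  have he : e ≠ 0 := by
    intro h0
    have h1 : ta p e = 0 := by
      rw [h0]
      exact map_zero _
    rw [hτe] at h1
    exact mul_ne_zero hD (inv_ne_zero hf) h1
  have hee : e * e = e := by
    apply mf_ext
    rw [mf_mul, hef]
    simp only [Category.assoc]
    rw [← Category.assoc (Im hS dec ι1) (Im hS dec π1), hIιπ, Category.id_comp,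
      ← Category.assoc (idm p hS dec χ) (idm p hS dec χ), idm_idm p hS dec hst hχ hf]
  have het : t * e = e := by
    apply mf_ext
    change mf e ≫ twX p S dec G.obj = mf e
    rw [hef]
    simp only [Category.assoc]
    rw [twX_nat p dec hS (Im_cen hS dec ι1), twX_unit p hS dec, Category.id_comp]
  have hprim : ∀ a, ∃ c : ℂ, e * a * e = c • e := by
    intro a
    obtain ⟨c, hc⟩ := idm_cen_comp p hS dec hst hχ (z := Im hS dec ι1 ≫ mf a ≫ Im hS dec π1)
      ((Im_cen hS dec ι1).comp ((mf_cen a).comp (Im_cen hS dec π1)))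
    refine ⟨c, ?_⟩
    apply mf_ext
    rw [mf_mul, mf_mul, mf_smul, hef]
    have h1 : (Im hS dec π1 ≫ idm p hS dec χ ≫ Im hS dec ι1) ≫ mf a ≫
        Im hS dec π1 ≫ idm p hS dec χ ≫ Im hS dec ι1 = Im hS dec π1 ≫
        (idm p hS dec χ ≫ (Im hS dec ι1 ≫ mf a ≫ Im hS dec π1)) ≫ idm p hS dec χ ≫
        Im hS dec ι1 := by
      simp only [Category.assoc]
    rw [h1, hc, Linear.smul_comp, Linear.comp_smul, ← Category.assoc (idm p hS dec χ),
      idm_idm p hS dec hst hχ hf]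
  have key := block_ineq pr hpr (fun i => p.dm (S i)) φ hd (ta p) hτ t ht hθ e he hee het hprim
  rw [hτe] at key
  refine key.trans (le_of_eq ?_)
  congr 2
  -- traces
  have hpf : ∀ i, mf (pr i) = Im hS dec (G.prj i) ≫ Im hS dec (G.inc i) := by
    intro i
    rw [Im_comp]
    rfl
  have hIip : ∀ i, Im hS dec (G.inc i) ≫ Im hS dec (G.prj i) = 𝟙 _ := by
    intro i
    rw [Im_comp, G.same, Im_id]
  have h0 : ∀ i, ta p (pr i) = gd p S * p.dm (S i) := by
    intro i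
    unfold ta
    rw [hpf, p.tr_comm, hIip, tr_TX_id p hS dec uo hs]
  have h1 : ∀ i, ta p (t * pr i) = gd p S * if i = o then 1 else 0 := by
    intro i
    unfold ta
    rw [mf_mul, hpf, ← tr_TX_tw p hS dec uo hs]
    change p.tr _ ((Im hS dec (G.prj i) ≫ Im hS dec (G.inc i)) ≫ twX p S dec G.obj) = _
    rw [Category.assoc, twX_nat p dec hS (Im_cen hS dec _), p.tr_comm, Category.assoc, hIip,
      Category.comp_id]
  have h2 : ∀ i, ta p (t * t * pr i) = gd p S * ν i := by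
    intro i
    unfold ta
    rw [mf_mul, hpf, ← hν, ← tr_TX_tw2 p hS dec uo hs]
    change p.tr _ ((Im hS dec (G.prj i) ≫ Im hS dec (G.inc i)) ≫ twX p S dec G.obj ≫
      twX p S dec G.obj) = _
    rw [Category.assoc, ← Category.assoc (Im hS dec (G.inc i)) (twX p S dec G.obj),
      twX_nat p dec hS (Im_cen hS dec _), Category.assoc, twX_nat p dec hS (Im_cen hS dec _),
      p.tr_comm]
    simp only [Category.assoc]
    rw [hIip, Category.comp_id]
  simp_rw [h0, h1, h2]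
  have h3 : ∑ i, p.dm (S i) * (3 * (gd p S * p.dm (S i)) +
      4 * (gd p S * if i = o then 1 else 0) + gd p S * ν i) =
      3 * gd p S * (∑ i, p.dm (S i) ^ 2) + 4 * gd p S * (∑ i, p.dm (S i) * if i = o then 1 else 0) +
      gd p S * ∑ k, (ν k : ℂ) * p.dm (S k) := by
    rw [Finset.mul_sum, Finset.mul_sum, Finset.mul_sum, ← Finset.sum_add_distrib,
      ← Finset.sum_add_distrib]
    refine Finset.sum_congr rfl fun i _ => ?_
    ring
  rw [h3]
  have h4 : ∑ i, p.dm (S i) ^ 2 = gd p S := rfl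
  have h5 : ∑ i, p.dm (S i) * (if i = o then (1 : ℂ) else 0) = 1 := by
    simp [p.dm_of_iso_unit uo]
  rw [h4, h5]
  ring

/-- reality and the inequality for a spherical fusion category -/
theorem data_aux (hS : IsSimples S) (dec : ∀ Z, Dec S Z) (hs : p.IsSpherical) (uo : S o ≅ 𝟙_ C)
    {st : Fin n → Fin n} (hst : ∀ i, Nonempty (((S i)ᘁ : C) ≅ S (st i)))
    (ν : Fin n → ℤ) (h3 : ∀ k, p.tr (S k) (eta dec (S k) ≫ twX p S dec (S k) ≫
      twX p S dec (S k) ≫ pi' dec uo (S k)) = ν k)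
    (x : ℝ) (hx : gd p S = x) (hx0 : x ≠ 0) :
      (∀ (φ : ℂ ≃+* ℂ) (i : Fin n), (φ (p.dm (S i))).im = 0) ∧
      ∀ φ : ℂ ≃+* ℂ, 8 * ((φ (x : ℂ)).re / x) ^ 2 ≤
        3 * (φ (x : ℂ)).re ^ 2 + 4 * (φ (x : ℂ)).re +
          (φ (x : ℂ)).re * ∑ i, (ν i : ℝ) * (φ (p.dm (S i))).re := by
  have hc := isChar_dm p uo hS dec hs hst
  have hreal : ∀ (φ : ℂ ≃+* ℂ) (i : Fin n), (φ (p.dm (S i))).im = 0 := by
    intro φ
    have hc' := hc.map φ
    exact real_of_fusion (N := mult S) (st := st) (o := o) hc'.one hc'.mul hc'.star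
      (fun i j k => mult_frob hst hS dec i j k)
  refine ⟨hreal, fun φ => ?_⟩
  have hχ : IsChar S o st (fun i => φ.symm (p.dm (S i))) := hc.map φ.symm
  have hf : ∑ k, (φ.symm (p.dm (S k))) ^ 2 = φ.symm (x : ℂ) := by
    rw [← hx]
    unfold gd
    rw [map_sum]
    simp_rw [map_pow]
  have hxC : (x : ℂ) ≠ 0 := by exact_mod_cast hx0
  have hf0 : ∑ k, (φ.symm (p.dm (S k))) ^ 2 ≠ 0 := by
    rw [hf]
    simpa using hxC
  have hD0 : gd p S ≠ 0 := by rw [hx]; exact hxC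
  have key := main_ineq p hS dec uo hs hD0 hst hχ hf0 ν h3 φ
  rw [hf] at key
  have hφx : (φ (x : ℂ)) = ((φ (x : ℂ)).re : ℂ) := by
    apply Complex.ext
    · simp
    · rw [← hx]
      unfold gd
      rw [map_sum]
      simp only [map_pow, Complex.im_sum, Complex.ofReal_im]
      refine Finset.sum_eq_zero fun i _ => ?_
      rw [sq, Complex.mul_im, hreal φ i]
      simp
  have hφd : ∀ i, φ (p.dm (S i)) = ((φ (p.dm (S i))).re : ℂ) := by
    intro i
    apply Complex.ext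
    · simp
    · simp [hreal φ i]
  have hl : ‖φ (gd p S * (φ.symm (x : ℂ))⁻¹)‖ ^ 2 = ((φ (x : ℂ)).re / x) ^ 2 := by
    rw [hx, map_mul, map_inv₀, RingEquiv.apply_symm_apply, hφx, ← Complex.ofReal_inv,
      ← Complex.ofReal_mul, Complex.norm_real, Complex.ofReal_re, Real.norm_eq_abs, sq_abs,
      div_eq_mul_inv]
  have hr : (φ (3 * gd p S ^ 2 + 4 * gd p S + gd p S * ∑ k, (ν k : ℂ) * p.dm (S k))).re =
      3 * (φ (x : ℂ)).re ^ 2 + 4 * (φ (x : ℂ)).re +
        (φ (x : ℂ)).re * ∑ i, (ν i : ℝ) * (φ (p.dm (S i))).re := by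
    rw [hx]
    simp only [map_add, map_mul, map_pow, map_sum, map_intCast, map_ofNat]
    have e1 : ∑ i, (ν i : ℂ) * φ (p.dm (S i)) =
        ((∑ i, (ν i : ℝ) * (φ (p.dm (S i))).re : ℝ) : ℂ) := by
      push_cast
      refine Finset.sum_congr rfl fun i _ => ?_
      rw [← hφd]
    rw [e1, hφx, Complex.ofReal_re]
    norm_cast
  rw [hl, hr] at key
  exact key

/-- The numerical data of a spherical fusion category. -/
theorem exists_data (hS : IsSimples S) (dec : ∀ Z, Dec S Z) (hs : p.IsSpherical)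
    (x : ℝ) (hx : gd p S = x) (hx0 : x ≠ 0) :
    ∃ (o : Fin n) (d : Fin n → ℂ) (ν : Fin n → ℤ) (N : Fin n → Fin n → Fin n → ℕ),
      d o = 1 ∧ ν o = 1 ∧ (∀ i, ν i = 0 ∨ ν i = 1 ∨ ν i = -1) ∧ (∀ i, d i ≠ 0) ∧
      (∀ i j, d i * d j = ∑ k, (N i j k : ℂ) * d k) ∧ ∑ i, d i ^ 2 = (x : ℂ) ∧
      (∀ (φ : ℂ ≃+* ℂ) (i : Fin n), (φ (d i)).im = 0) ∧
      ∀ φ : ℂ ≃+* ℂ, 8 * ((φ (x : ℂ)).re / x) ^ 2 ≤
        3 * (φ (x : ℂ)).re ^ 2 + 4 * (φ (x : ℂ)).re +
          (φ (x : ℂ)).re * ∑ i, (ν i : ℝ) * (φ (d i)).re := by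
  obtain ⟨o, ⟨uo'⟩⟩ := hS.complete (𝟙_ C) inferInstance
  let uo := uo'.symm
  obtain ⟨st, hst⟩ := exists_st dec hS
  obtain ⟨ν, h1, h2, h3⟩ := exists_nu p hS dec uo
  have hc := isChar_dm p uo hS dec hs hst
  obtain ⟨h4, h5⟩ := data_aux p hS dec hs uo hst ν h3 x hx hx0
  refine ⟨o, fun i => p.dm (S i), ν, mult S, hc.one, h2, h1, fun i => ?_, hc.mul, hx, h4, h5⟩
  have := hS.simple i
  exact p.dm_ne_zero hS dec (S i)

end

end Run7.h292
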