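import Pool.Agent.Run7.h292.Tw4

/-!
The endomorphism algebra of the object induced from the unit, and its idempotents.
-/

set_option autoImplicit false
set_option linter.unusedSectionVars false

open CategoryTheory CategoryTheory.Limits MonoidalCategory ExactPairing
open Pool.Agent.Helper781.Fusion (Dec IsSimpleList exists_scalar finrank_simple hom_zero sum_dec)

namespace Run7.h292

universe v u

section

variable {C : Type u} [Category.{v} C] [Abelian C] [Linear ℂ C]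
  [MonoidalCategory C] [MonoidalPreadditive C] [MonoidalLinear ℂ C] [RigidCategory C]
  [hfd : ∀ X Y : C, FiniteDimensional ℂ (X ⟶ Y)] [Simple (𝟙_ C)] (p : Pivotal C)
variable {n : ℕ} {S : Fin n → C} (hS : IsSimples S) (dec : ∀ Z, Dec S Z) {o : Fin n}
  (uo : S o ≅ 𝟙_ C)

/-- morphisms of the centre between induced objects -/
def Cen (X Y : C) (f : TX S X ⟶ TX S Y) : Prop := ∀ U, f ▷ U ≫ bt dec Y U = bt dec X U ≫ U ◁ f

variable {dec}

lemma Cen.id (X : C) : Cen dec X X (𝟙 _) := fun U => by simp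

lemma Cen.comp {X Y Z : C} {f : TX S X ⟶ TX S Y} {g : TX S Y ⟶ TX S Z} (hf : Cen dec X Y f)
    (hg : Cen dec Y Z g) : Cen dec X Z (f ≫ g) := fun U => by
  rw [comp_whiskerRight, Category.assoc, hg, ← Category.assoc, hf, Category.assoc,
    ← MonoidalCategory.whiskerLeft_comp]

lemma Cen.smul {X Y : C} {f : TX S X ⟶ TX S Y} (hf : Cen dec X Y f) (c : ℂ) :
    Cen dec X Y (c • f) := fun U => by
  rw [MonoidalLinear.smul_whiskerRight, Linear.smul_comp, hf, MonoidalLinear.whiskerLeft_smul,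
    Linear.comp_smul]

lemma Cen.add {X Y : C} {f g : TX S X ⟶ TX S Y} (hf : Cen dec X Y f) (hg : Cen dec X Y g) :
    Cen dec X Y (f + g) := fun U => by
  rw [MonoidalPreadditive.add_whiskerRight, Preadditive.add_comp, hf, hg,
    MonoidalPreadditive.whiskerLeft_add, Preadditive.comp_add]

lemma Cen.sum {X Y : C} {ι : Type*} (s : Finset ι) {f : ι → (TX S X ⟶ TX S Y)}
    (hf : ∀ i, Cen dec X Y (f i)) : Cen dec X Y (∑ i ∈ s, f i) := by
  classical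
  induction s using Finset.induction_on with
  | empty => intro U; simp
  | insert a s ha ih => rw [Finset.sum_insert ha]; exact (hf a).add ih

variable (dec)

include hS in
lemma cen_ext {X Y : C} {f g : TX S X ⟶ TX S Y} (hf : Cen dec X Y f) (hg : Cen dec X Y g)
    (h : eta dec X ≫ f = eta dec X ≫ g) : f = g := by
  have h1 := lift_unique' hS dec (Ind hS dec Y) f hf
  have h2 := lift_unique' hS dec (Ind hS dec Y) g hg
  rw [← h1, ← h2]
  exact congrArg _ h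

/-- the morphism of the centre with given restriction -/
noncomputable def lft {X Y : C} (a : X ⟶ TX S Y) : TX S X ⟶ TX S Y := lift S (Ind hS dec Y) a

lemma lft_cen {X Y : C} (a : X ⟶ TX S Y) : Cen dec X Y (lft hS dec a) :=
  fun U => lift_comm hS dec (Ind hS dec Y) a U

lemma eta_lft {X Y : C} (a : X ⟶ TX S Y) : eta dec X ≫ lft hS dec a = a :=
  eta_lift hS dec (Ind hS dec Y) a

lemma jj_lft {X Y : C} (a : X ⟶ TX S Y) (U : C) :
    jj dec X U ≫ U ◁ lft hS dec a = a ▷ U ≫ bt dec Y U :=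
  jj_lift hS dec (Ind hS dec Y) a U

lemma lft_eta {X Y : C} {f : TX S X ⟶ TX S Y} (hf : Cen dec X Y f) :
    lft hS dec (eta dec X ≫ f) = f :=
  lift_unique' hS dec (Ind hS dec Y) f hf

lemma lft_comp {X Y Z : C} (a : X ⟶ TX S Y) {f : TX S Y ⟶ TX S Z} (hf : Cen dec Y Z f) :
    lft hS dec a ≫ f = lft hS dec (a ≫ f) := by
  refine cen_ext hS dec ((lft_cen hS dec a).comp hf) (lft_cen hS dec _) ?_
  rw [← Category.assoc, eta_lft, eta_lft]

lemma lft_smul {X Y : C} (c : ℂ) (a : X ⟶ TX S Y) : lft hS dec (c • a) = c • lft hS dec a := by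
  refine cen_ext hS dec (lft_cen hS dec _) ((lft_cen hS dec _).smul c) ?_
  rw [eta_lft, Linear.comp_smul, eta_lft]

lemma lft_sum {X Y : C} {ι : Type*} (s : Finset ι) (a : ι → (X ⟶ TX S Y)) :
    lft hS dec (∑ i ∈ s, a i) = ∑ i ∈ s, lft hS dec (a i) := by
  refine cen_ext hS dec (lft_cen hS dec _) (Cen.sum s fun i => lft_cen hS dec _) ?_
  rw [eta_lft, Preadditive.comp_sum]
  exact Finset.sum_congr rfl fun i _ => (eta_lft hS dec _).symm

/-- functoriality of the induced object -/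
noncomputable def Im {X Y : C} (g : X ⟶ Y) : TX S X ⟶ TX S Y := lft hS dec (g ≫ eta dec Y)

lemma Im_cen {X Y : C} (g : X ⟶ Y) : Cen dec X Y (Im hS dec g) := lft_cen hS dec _

lemma eta_Im {X Y : C} (g : X ⟶ Y) : eta dec X ≫ Im hS dec g = g ≫ eta dec Y := eta_lft hS dec _

lemma Im_comp {X Y Z : C} (g : X ⟶ Y) (h : Y ⟶ Z) :
    Im hS dec g ≫ Im hS dec h = Im hS dec (g ≫ h) := by
  refine cen_ext hS dec ((Im_cen hS dec g).comp (Im_cen hS dec h)) (Im_cen hS dec _) ?_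
  rw [← Category.assoc, eta_Im, Category.assoc, eta_Im, eta_Im, Category.assoc]

lemma Im_id (X : C) : Im hS dec (𝟙 X) = 𝟙 (TX S X) := by
  refine cen_ext hS dec (Im_cen hS dec _) (Cen.id X) ?_
  rw [eta_Im, Category.id_comp, Category.comp_id]

/-! ### The object induced from the unit -/

variable (S) in
/-- the endomorphism of the induced object given by `U`, restricted to the unit -/
noncomputable def aK (U : C) : 𝟙_ C ⟶ TX S (𝟙_ C) :=
  p.ltr U ((ρ_ U).hom ≫ (λ_ U).inv ≫ jj dec (𝟙_ C) U)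

/-- the endomorphism of the induced object given by `U` -/
noncomputable def kap (U : C) : TX S (𝟙_ C) ⟶ TX S (𝟙_ C) := lft hS dec (aK p S dec U)

lemma kap_cen (U : C) : Cen dec (𝟙_ C) (𝟙_ C) (kap p hS dec U) := lft_cen hS dec _

lemma kap_comp (U V : C) : kap p hS dec U ≫ kap p hS dec V = kap p hS dec (V ⊗ U) := by
  refine cen_ext hS dec ((kap_cen p hS dec U).comp (kap_cen p hS dec V)) (kap_cen p hS dec _) ?_
  rw [← Category.assoc]
  unfold kap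
  rw [eta_lft, eta_lft]
  conv_lhs => unfold aK
  rw [← p.ltr_post]
  simp only [Category.assoc]
  rw [jj_lft hS dec]
  unfold aK
  rw [← p.ltr_whisker, ← p.ltr_post, ← p.ltr_pre, ← p.ltr_pre, p.ltr_tensor]
  congr 2
  have h := jj_bt hS dec (𝟙_ C) U V
  calc
    _ = 𝟙 _ ⊗≫ (jj dec (𝟙_ C) V ▷ U ≫ (α_ _ _ _).hom ≫ V ◁ bt dec (𝟙_ C) U) := by monoidal
    _ = _ := by rw [h]; monoidal

include hS in
lemma aK_sum (U : C) : aK p S dec U = ∑ b, aK p S dec (S ((dec U).idx b)) := by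
  have e1 : (ρ_ U).hom ≫ (λ_ U).inv ≫ jj dec (𝟙_ C) U =
      ∑ b, ((dec U).prj b) ▷ (𝟙_ C) ≫ ((ρ_ _).hom ≫ (λ_ _).inv ≫ jj dec (𝟙_ C) _ ≫
        ((dec U).inc b) ▷ TX S (𝟙_ C)) := by
    have e2 : ∀ b, ((dec U).prj b) ▷ (𝟙_ C) ≫ ((ρ_ _).hom ≫ (λ_ _).inv ≫ jj dec (𝟙_ C) _ ≫
        ((dec U).inc b) ▷ TX S (𝟙_ C)) = (ρ_ U).hom ≫ (λ_ U).inv ≫
        (𝟙_ C) ◁ ((dec U).prj b ≫ (dec U).inc b) ≫ jj dec (𝟙_ C) U := by
      intro b
      rw [MonoidalCategory.whiskerLeft_comp, Category.assoc, jj_nat hS]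
      simp only [← Category.assoc]
      congr 2
      simp
    simp_rw [e2]
    rw [← Preadditive.comp_sum, ← Preadditive.comp_sum, ← Preadditive.sum_comp]
    congr 2
    have e3 : ∑ b, (𝟙_ C) ◁ ((dec U).prj b ≫ (dec U).inc b) = 𝟙 (𝟙_ C ⊗ U) := by
      rw [← MonoidalCategory.whiskerLeft_id, ← (dec U).sum, whiskerLeft_sum]
    rw [e3, Category.id_comp]
  unfold aK
  rw [e1, p.ltr_sum]
  refine Finset.sum_congr rfl fun b _ => ?_
  rw [p.ltr_slide]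
  congr 1
  simp only [Category.assoc]
  rw [← comp_whiskerRight, (dec U).same, id_whiskerRight, Category.comp_id]

lemma kap_sum (U : C) :
    kap p hS dec U = ∑ k, (Module.finrank ℂ (S k ⟶ U)) • kap p hS dec (S k) := by
  rw [← sum_dec hS.list (dec U) (fun k => kap p hS dec (S k))]
  unfold kap
  rw [← lft_sum, ← aK_sum p hS]

/-- the structure constants of the Grothendieck ring -/
noncomputable def mult (S : Fin n → C) (i j k : Fin n) : ℕ := Module.finrank ℂ (S k ⟶ S i ⊗ S j)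

lemma kap_mul (i j : Fin n) : kap p hS dec (S i) ≫ kap p hS dec (S j) =
    ∑ k, mult S j i k • kap p hS dec (S k) := by
  rw [kap_comp, kap_sum]
  rfl

/-! ### morphisms from the unit -/

lemma coev_multiple (X : C) [Simple X] (r : 𝟙_ C ⟶ (Xᘁ : C) ⊗ X) : ∃ c : ℂ, r = c • p.co' X := by
  refine ⟨sc X (𝟙 _ ⊗≫ X ◁ r ⊗≫ p.ev' X ▷ X ⊗≫ 𝟙 _), ?_⟩
  have h := sc_spec (𝟙 X ⊗≫ X ◁ r ⊗≫ p.ev' X ▷ X ⊗≫ 𝟙 _)
  have key : r = p.co' X ≫ (Xᘁ : C) ◁ (𝟙 X ⊗≫ X ◁ r ⊗≫ p.ev' X ▷ X ⊗≫ 𝟙 _) := by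
    symm
    calc
      _ = 𝟙 _ ⊗≫ (p.co' X ▷ (𝟙_ C) ≫ ((Xᘁ : C) ⊗ X) ◁ r) ⊗≫ (Xᘁ : C) ◁ p.ev' X ▷ X ⊗≫ 𝟙 _ := by
        monoidal
      _ = r ⊗≫ (p.co' X ▷ (Xᘁ : C) ⊗≫ (Xᘁ : C) ◁ p.ev' X) ▷ X ⊗≫ 𝟙 _ := by
        rw [← whisker_exchange]; monoidal
      _ = _ := by rw [p.zig2]; monoidal
  conv_lhs => rw [key, h]
  simp

include hS in
lemma aK_simple (k : Fin n) : aK p S dec (S k) =
    p.co' (S k) ≫ ((S k)ᘁ : C) ◁ (λ_ (S k)).inv ≫ tinc S (𝟙_ C) k := by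
  unfold aK
  rw [jj_simple hS, p.ltr_eq]
  unfold js
  calc
    _ = p.co' (S k) ⊗≫ ((S k)ᘁ : C) ◁ η_ (S k) ((S k)ᘁ : C) ▷ (S k) ⊗≫
        ((((S k)ᘁ : C) ⊗ S k) ◁ (((S k)ᘁ : C) ◁ (λ_ (S k)).inv ≫ tinc S (𝟙_ C) k) ≫
        ε_ (S k) ((S k)ᘁ : C) ▷ TX S (𝟙_ C)) ⊗≫ 𝟙 _ := by monoidal
    _ = p.co' (S k) ⊗≫ (((S k)ᘁ : C) ◁ η_ (S k) ((S k)ᘁ : C) ⊗≫
        ε_ (S k) ((S k)ᘁ : C) ▷ ((S k)ᘁ : C)) ▷ S k ⊗≫
        (((S k)ᘁ : C) ◁ (λ_ (S k)).inv ≫ tinc S (𝟙_ C) k) := by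
      rw [whisker_exchange]; monoidal
    _ = _ := by rw [coevaluation_evaluation'']; monoidal

include hS in
lemma exists_aK (g : 𝟙_ C ⟶ TX S (𝟙_ C)) : ∃ c : Fin n → ℂ, g = ∑ k, c k • aK p S dec (S k) := by
  have h1 : ∀ k, ∃ c : ℂ, g ≫ tprj S (𝟙_ C) k ≫ ((S k)ᘁ : C) ◁ (λ_ (S k)).hom = c • p.co' (S k) := by
    intro k
    have := hS.simple k
    exact coev_multiple p (S k) _
  choose c hc using h1
  refine ⟨c, ?_⟩
  have h2 : ∀ k, g ≫ tprj S (𝟙_ C) k ≫ tinc S (𝟙_ C) k = c k • aK p S dec (S k) := by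
    intro k
    rw [aK_simple p hS, ← Linear.smul_comp, ← hc]
    simp only [Category.assoc]
    rw [← MonoidalCategory.whiskerLeft_comp_assoc, Iso.hom_inv_id]
    simp
  simp_rw [← h2]
  rw [← Preadditive.comp_sum, tsum, Category.comp_id]

lemma exists_kap {z : TX S (𝟙_ C) ⟶ TX S (𝟙_ C)} (hz : Cen dec (𝟙_ C) (𝟙_ C) z) :
    ∃ c : Fin n → ℂ, z = ∑ k, c k • kap p hS dec (S k) := by
  obtain ⟨c, hc⟩ := exists_aK p hS dec (eta dec (𝟙_ C) ≫ z)
  refine ⟨c, ?_⟩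
  rw [← lft_eta hS dec hz, hc, lft_sum]
  simp_rw [lft_smul]
  rfl

include hS in
/-- the twist of the object induced from the unit is trivial -/
lemma twX_unit : twX p S dec (𝟙_ C) = 𝟙 _ := by
  refine cen_ext hS dec (fun U => twX_comm p hS dec _ U) (Cen.id _) ?_
  rw [eta_twX p hS, ← eta_bt hS, bt_unit hS, Category.comp_id]
  have h : eta dec (𝟙_ C) ▷ 𝟙_ C ≫ (ρ_ (TX S (𝟙_ C))).hom ≫ (λ_ (TX S (𝟙_ C))).inv =
      (𝟙_ C) ◁ eta dec (𝟙_ C) := by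
    simp [unitors_equal]
  rw [h, p.ltr_whiskerLeft, p.dm_unit, one_smul]

end

end Run7.h292
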