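import Pool.Agent.Run7.h292.Defs

/-!
Consequences of the pivotal axioms.
-/

set_option autoImplicit false

open CategoryTheory CategoryTheory.Limits MonoidalCategory ExactPairing

namespace Run7.h292

universe v u

section general

variable {C : Type u} [Category.{v} C] [MonoidalCategory C]

/-- The coevaluation is determined by the evaluation. -/
lemma coev_unique {A A' B : C} [ExactPairing A B] [ExactPairing A' B] (i : A ⟶ A')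
    (h : ε_ A B = B ◁ i ≫ ε_ A' B) :
    η_ A B ≫ i ▷ B = η_ A' B := by
  have h1 := coevaluation_evaluation'' A B
  have h2 := evaluation_coevaluation'' A' B
  symm
  calc
    η_ A' B = η_ A' B ⊗≫ A' ◁ (B ◁ η_ A B ⊗≫ ε_ A B ▷ B) ⊗≫ 𝟙 _ := by rw [h1]; monoidal
    _ = 𝟙 _ ⊗≫ (η_ A' B ▷ 𝟙_ C ≫ (A' ⊗ B) ◁ η_ A B) ⊗≫ A' ◁ ε_ A B ▷ B ⊗≫ 𝟙 _ := by monoidal
    _ = 𝟙 _ ⊗≫ (𝟙_ C ◁ η_ A B ≫ η_ A' B ▷ (A ⊗ B)) ⊗≫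
        A' ◁ (B ◁ i ≫ ε_ A' B) ▷ B ⊗≫ 𝟙 _ := by rw [whisker_exchange, h]
    _ = η_ A B ⊗≫ (η_ A' B ▷ A ≫ (A' ⊗ B) ◁ i) ▷ B ⊗≫ A' ◁ ε_ A' B ▷ B ⊗≫ 𝟙 _ := by monoidal
    _ = η_ A B ⊗≫ (𝟙_ C ◁ i ≫ η_ A' B ▷ A') ▷ B ⊗≫ A' ◁ ε_ A' B ▷ B ⊗≫ 𝟙 _ := by
      rw [← whisker_exchange]
    _ = η_ A B ⊗≫ i ▷ B ⊗≫ (η_ A' B ▷ A' ⊗≫ A' ◁ ε_ A' B) ▷ B ⊗≫ 𝟙 _ := by monoidal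
    _ = η_ A B ≫ i ▷ B := by rw [h2]; monoidal

lemma ev_inj {Y Y' W : C} [ExactPairing Y Y'] {f g : W ⟶ Y'}
    (h : f ▷ Y ≫ ε_ Y Y' = g ▷ Y ≫ ε_ Y Y') : f = g := by
  have key : ∀ f : W ⟶ Y', f = 𝟙 _ ⊗≫ W ◁ η_ Y Y' ⊗≫ (f ▷ Y ≫ ε_ Y Y') ▷ Y' ⊗≫ 𝟙 _ := by
    intro f
    symm
    calc
      _ = 𝟙 _ ⊗≫ (W ◁ η_ Y Y' ≫ f ▷ (Y ⊗ Y')) ⊗≫ ε_ Y Y' ▷ Y' ⊗≫ 𝟙 _ := by monoidal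
      _ = f ⊗≫ (Y' ◁ η_ Y Y' ⊗≫ ε_ Y Y' ▷ Y') ⊗≫ 𝟙 _ := by rw [whisker_exchange]; monoidal
      _ = f := by rw [coevaluation_evaluation'']; monoidal
  rw [key f, key g, h]

/-- characterisation of `rightDualIso` -/
lemma rightDualIso_ev {X Y₁ Y₂ : C} (p₁ : ExactPairing X Y₁) (p₂ : ExactPairing X Y₂) :
    (rightDualIso p₁ p₂).hom ▷ X ≫ @evaluation _ _ _ X Y₂ p₂ = @evaluation _ _ _ X Y₁ p₁ := by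
  have := @rightAdjointMate_comp_evaluation C _ _ X X ⟨Y₂⟩ ⟨Y₁⟩ (𝟙 X)
  rw [MonoidalCategory.whiskerLeft_id, Category.id_comp] at this
  exact this

end general

section ri

variable {C : Type u} [Category.{v} C] [MonoidalCategory C] [RightRigidCategory C]

lemma dualTensor_ev (X Y : C) :
    (rightDualTensorIso X Y).hom ▷ (X ⊗ Y) ≫ ε_ (X ⊗ Y) (Yᘁ ⊗ Xᘁ) = ε_ (X ⊗ Y) ((X ⊗ Y)ᘁ) :=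
  rightDualIso_ev _ _

lemma doubleDual_ev (X Y : C) :
    (doubleDualTensorIso X Y).hom ▷ ((X ⊗ Y)ᘁ) ≫ (((Xᘁ)ᘁ ⊗ (Yᘁ)ᘁ) ◁ (rightDualTensorIso X Y).hom ≫
      ε_ (Yᘁ ⊗ Xᘁ) ((Xᘁ)ᘁ ⊗ (Yᘁ)ᘁ)) = ε_ ((X ⊗ Y)ᘁ) (((X ⊗ Y)ᘁ)ᘁ) :=
  rightDualIso_ev _ _

end ri

namespace Pivotal

variable {C : Type u} [Category.{v} C] [MonoidalCategory C] [RightRigidCategory C]
  (p : Pivotal C)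

/-- the coevaluation `1 ⟶ X* ⊗ X` -/
noncomputable def co' (X : C) : 𝟙_ C ⟶ Xᘁ ⊗ X :=
  η_ (Xᘁ) ((Xᘁ)ᘁ) ≫ (Xᘁ) ◁ (p.iso X).inv

/-- the evaluation `X ⊗ X* ⟶ 1` -/
noncomputable def ev' (X : C) : X ⊗ Xᘁ ⟶ 𝟙_ C :=
  (p.iso X).hom ▷ (Xᘁ) ≫ ε_ (Xᘁ) ((Xᘁ)ᘁ)

/-- (F1) `X` is a right dual of `X*`. -/
@[instance_reducible]
noncomputable def pairing (X : C) : ExactPairing (Xᘁ) X :=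
  exactPairingCongrRight (p.iso X)

theorem pairing_coev (X : C) : @ExactPairing.coevaluation _ _ _ _ _ (p.pairing X) = p.co' X := rfl

theorem pairing_ev (X : C) : @ExactPairing.evaluation _ _ _ _ _ (p.pairing X) = p.ev' X := rfl

/-- zigzag identities -/
lemma zig1 (X : C) : X ◁ p.co' X ⊗≫ p.ev' X ▷ X = ⊗𝟙.hom :=
  @coevaluation_evaluation'' _ _ _ (Xᘁ) X (p.pairing X)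

lemma zig2 (X : C) : p.co' X ▷ (Xᘁ) ⊗≫ (Xᘁ) ◁ p.ev' X = ⊗𝟙.hom :=
  @evaluation_coevaluation'' _ _ _ (Xᘁ) X (p.pairing X)

/-- (F2) sliding -/
theorem co'_slide {X Y : C} (f : X ⟶ Y) :
    p.co' X ≫ (Xᘁ) ◁ f = p.co' Y ≫ (fᘁ) ▷ Y := by
  have h1 : (p.iso X).inv ≫ f = (fᘁ)ᘁ ≫ (p.iso Y).inv := by
    rw [Iso.inv_comp_eq, ← Category.assoc, ← p.naturality, Category.assoc, Iso.hom_inv_id,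
      Category.comp_id]
  have h2 := coevaluation_comp_rightAdjointMate (fᘁ)
  unfold co'
  rw [Category.assoc, ← MonoidalCategory.whiskerLeft_comp, h1, MonoidalCategory.whiskerLeft_comp,
    ← Category.assoc, h2, Category.assoc, Category.assoc, whisker_exchange]

theorem ev'_slide {X Y : C} (f : X ⟶ Y) :
    f ▷ (Yᘁ) ≫ p.ev' Y = X ◁ (fᘁ) ≫ p.ev' X := by
  have h2 := rightAdjointMate_comp_evaluation (fᘁ)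
  unfold ev'
  rw [← Category.assoc, ← comp_whiskerRight, p.naturality, comp_whiskerRight, Category.assoc, h2,
    ← Category.assoc, ← whisker_exchange, Category.assoc]

/-- evaluation for a tensor product -/
lemma ev'_tensor (X Y : C) :
    p.ev' (X ⊗ Y) = (X ⊗ Y) ◁ (rightDualTensorIso X Y).hom ⊗≫ X ◁ (p.ev' Y ▷ (Xᘁ)) ⊗≫
      p.ev' X := by
  have h1 := doubleDual_ev X Y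
  unfold ev'
  rw [← h1, ← Category.assoc, ← comp_whiskerRight, p.tensor, ← Category.assoc, ← whisker_exchange,
    Category.assoc, ExactPairing.tensor_evaluation, MonoidalCategory.tensorHom_def]
  calc
    _ = 𝟙 _ ⊗≫ (X ⊗ Y) ◁ (rightDualTensorIso X Y).hom ⊗≫
      (((p.iso X).hom ▷ (Y ⊗ Yᘁ) ≫ ((Xᘁ)ᘁ) ◁ ((p.iso Y).hom ▷ (Yᘁ) ≫ ε_ (Yᘁ) ((Yᘁ)ᘁ))) ▷ (Xᘁ))
       ⊗≫ ε_ (Xᘁ) ((Xᘁ)ᘁ) := by monoidal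
    _ = 𝟙 _ ⊗≫ (X ⊗ Y) ◁ (rightDualTensorIso X Y).hom ⊗≫
      ((X ◁ ((p.iso Y).hom ▷ (Yᘁ) ≫ ε_ (Yᘁ) ((Yᘁ)ᘁ)) ≫ (p.iso X).hom ▷ (𝟙_ C)) ▷ (Xᘁ))
       ⊗≫ ε_ (Xᘁ) ((Xᘁ)ᘁ) := by rw [← whisker_exchange]
    _ = _ := by monoidal

/-- coevaluation for a tensor product -/
lemma co'_tensor (X Y : C) :
    p.co' (X ⊗ Y) ≫ (rightDualTensorIso X Y).hom ▷ (X ⊗ Y) =
      p.co' Y ⊗≫ (Yᘁ) ◁ (p.co' X) ▷ Y ⊗≫ 𝟙 _ := by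
  let P := p.pairing (X ⊗ Y)
  let P1 := p.pairing X
  let P2 := p.pairing Y
  have h := coev_unique (A := (X ⊗ Y)ᘁ) (A' := Yᘁ ⊗ Xᘁ) (B := X ⊗ Y)
    (rightDualTensorIso X Y).hom ?_
  · refine h.trans ?_
    rw [ExactPairing.tensor_coevaluation]
    change p.co' Y ⊗≫ ((Yᘁ : C) ◁ p.co' X) ▷ Y ⊗≫ 𝟙 _ = _
    monoidal
  · refine (p.ev'_tensor X Y).trans ?_
    rw [ExactPairing.tensor_evaluation]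
    change _ = (X ⊗ Y) ◁ (rightDualTensorIso X Y).hom ≫ (𝟙 _ ⊗≫ X ◁ (p.ev' Y ▷ (Xᘁ)) ⊗≫
      p.ev' X)
    monoidal

/-- The left partial trace. -/
noncomputable def ltr (U : C) {A B : C} (f : U ⊗ A ⟶ U ⊗ B) : A ⟶ B :=
  (λ_ A).inv ≫ p.co' U ▷ A ≫ (α_ _ _ _).hom ≫ (Uᘁ : C) ◁ f ≫ (α_ _ _ _).inv ≫ ε_ U (Uᘁ : C) ▷ B ≫
    (λ_ B).hom

lemma ltr_eq (U : C) {A B : C} (f : U ⊗ A ⟶ U ⊗ B) :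
    p.ltr U f = 𝟙 _ ⊗≫ p.co' U ▷ A ⊗≫ (Uᘁ : C) ◁ f ⊗≫ ε_ U (Uᘁ : C) ▷ B ⊗≫ 𝟙 _ := by
  unfold ltr
  monoidal

/-- (F6) sliding for the left partial trace -/
theorem ltr_slide {U V : C} (h : U ⟶ V) {A B : C} (f : V ⊗ A ⟶ U ⊗ B) :
    p.ltr U (h ▷ A ≫ f) = p.ltr V (f ≫ h ▷ B) := by
  rw [ltr_eq, ltr_eq]
  calc
    _ = 𝟙 _ ⊗≫ (p.co' U ≫ (Uᘁ : C) ◁ h) ▷ A ⊗≫ (Uᘁ : C) ◁ f ⊗≫ ε_ U (Uᘁ : C) ▷ B ⊗≫ 𝟙 _ := by monoidal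
    _ = 𝟙 _ ⊗≫ p.co' V ▷ A ⊗≫ ((hᘁ) ▷ (V ⊗ A) ≫ (Uᘁ : C) ◁ f) ⊗≫ ε_ U (Uᘁ : C) ▷ B ⊗≫ 𝟙 _ := by
      rw [p.co'_slide]; monoidal
    _ = 𝟙 _ ⊗≫ p.co' V ▷ A ⊗≫ (Vᘁ : C) ◁ f ⊗≫ ((hᘁ) ▷ U ≫ ε_ U (Uᘁ : C)) ▷ B ⊗≫ 𝟙 _ := by
      rw [← whisker_exchange]; monoidal
    _ = 𝟙 _ ⊗≫ p.co' V ▷ A ⊗≫ (Vᘁ : C) ◁ f ⊗≫ ((Vᘁ : C) ◁ h ≫ ε_ V (Vᘁ : C)) ▷ B ⊗≫ 𝟙 _ := by
      rw [rightAdjointMate_comp_evaluation]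
    _ = _ := by monoidal

/-- (F5) compatibility of the left partial trace with tensor products -/
theorem ltr_tensor (U V : C) {A B : C} (f : (U ⊗ V) ⊗ A ⟶ (U ⊗ V) ⊗ B) :
    p.ltr (U ⊗ V) f = p.ltr V (p.ltr U ((α_ _ _ _).inv ≫ f ≫ (α_ _ _ _).hom)) := by
  have h1 : p.co' (U ⊗ V) = (p.co' V ⊗≫ (Vᘁ : C) ◁ (p.co' U) ▷ V ⊗≫ 𝟙 _) ≫
      (rightDualTensorIso U V).inv ▷ (U ⊗ V) := by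
    rw [← p.co'_tensor, Category.assoc, ← comp_whiskerRight, Iso.hom_inv_id, id_whiskerRight,
      Category.comp_id]
  have h2 := dualTensor_ev U V
  rw [ExactPairing.tensor_evaluation] at h2
  rw [ltr_eq, h1, ← h2]
  calc
    _ = 𝟙 _ ⊗≫ (p.co' V ⊗≫ (Vᘁ : C) ◁ (p.co' U) ▷ V) ▷ A ⊗≫
      ((rightDualTensorIso U V).inv ▷ ((U ⊗ V) ⊗ A) ≫ ((U ⊗ V)ᘁ : C) ◁ f) ⊗≫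
      (rightDualTensorIso U V).hom ▷ (U ⊗ V) ▷ B ⊗≫ (Vᘁ : C) ◁ (ε_ U (Uᘁ : C) ▷ V) ▷ B ⊗≫
        ε_ V (Vᘁ : C) ▷ B ⊗≫ 𝟙 _ := by monoidal
    _ = 𝟙 _ ⊗≫ (p.co' V ⊗≫ (Vᘁ : C) ◁ (p.co' U) ▷ V) ▷ A ⊗≫
      ((Vᘁ : C) ⊗ (Uᘁ : C)) ◁ f ⊗≫ ((rightDualTensorIso U V).inv ≫
      (rightDualTensorIso U V).hom) ▷ (U ⊗ V) ▷ B ⊗≫ (Vᘁ : C) ◁ (ε_ U (Uᘁ : C) ▷ V) ▷ B ⊗≫
        ε_ V (Vᘁ : C) ▷ B ⊗≫ 𝟙 _ := by rw [← whisker_exchange]; monoidal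
    _ = _ := by
      rw [Iso.inv_hom_id]
      unfold ltr
      monoidal


section unit

variable {I : C} (u : I ≅ 𝟙_ C)

/-- the comparison `I* ⟶ 1` for an object isomorphic to the unit -/
noncomputable def e0 : (Iᘁ : C) ⟶ 𝟙_ C := (ρ_ _).inv ≫ (Iᘁ : C) ◁ u.inv ≫ ε_ I (Iᘁ : C)

/-- its inverse -/
noncomputable def e0inv : 𝟙_ C ⟶ (Iᘁ : C) := η_ I (Iᘁ : C) ≫ u.hom ▷ (Iᘁ : C) ≫ (λ_ _).hom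

/-- the other comparison -/
noncomputable def e1 : (Iᘁ : C) ⟶ 𝟙_ C := (λ_ _).inv ≫ u.inv ▷ (Iᘁ : C) ≫ p.ev' I

/-- its inverse -/
noncomputable def e1inv : 𝟙_ C ⟶ (Iᘁ : C) := p.co' I ≫ (Iᘁ : C) ◁ u.hom ≫ (ρ_ _).hom

lemma e0_e0inv : e0 u ≫ e0inv u = 𝟙 _ := by
  unfold e0 e0inv
  calc
    _ = 𝟙 _ ⊗≫ (((Iᘁ : C) ◁ u.inv ≫ ε_ I (Iᘁ : C)) ▷ 𝟙_ C ≫
      𝟙_ C ◁ (η_ I (Iᘁ : C) ≫ u.hom ▷ (Iᘁ : C))) ⊗≫ 𝟙 _ := by monoidal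
    _ = 𝟙 _ ⊗≫ (((Iᘁ : C) ⊗ 𝟙_ C) ◁ (η_ I (Iᘁ : C) ≫ u.hom ▷ (Iᘁ : C)) ≫
      ((Iᘁ : C) ◁ u.inv ≫ ε_ I (Iᘁ : C)) ▷ (𝟙_ C ⊗ (Iᘁ : C))) ⊗≫ 𝟙 _ := by
        rw [← whisker_exchange]
    _ = 𝟙 _ ⊗≫ (Iᘁ : C) ◁ η_ I (Iᘁ : C) ⊗≫ (Iᘁ : C) ◁ ((u.hom ≫ u.inv) ▷ (Iᘁ : C)) ⊗≫
      ε_ I (Iᘁ : C) ▷ (Iᘁ : C) ⊗≫ 𝟙 _ := by monoidal
    _ = 𝟙 _ ⊗≫ ((Iᘁ : C) ◁ η_ I (Iᘁ : C) ⊗≫ ε_ I (Iᘁ : C) ▷ (Iᘁ : C)) ⊗≫ 𝟙 _ := by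
      rw [Iso.hom_inv_id]; monoidal
    _ = _ := by rw [coevaluation_evaluation'']; monoidal

lemma e0inv_e0 : e0inv u ≫ e0 u = 𝟙 _ := by
  unfold e0 e0inv
  calc
    _ = 𝟙 _ ⊗≫ ((η_ I (Iᘁ : C) ≫ u.hom ▷ (Iᘁ : C)) ▷ 𝟙_ C ≫
      (𝟙_ C ⊗ (Iᘁ : C)) ◁ u.inv) ⊗≫ ε_ I (Iᘁ : C) ⊗≫ 𝟙 _ := by monoidal
    _ = 𝟙 _ ⊗≫ u.inv ⊗≫ η_ I (Iᘁ : C) ▷ I ⊗≫ (u.hom ▷ ((Iᘁ : C) ⊗ I) ≫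
      𝟙_ C ◁ ε_ I (Iᘁ : C)) ⊗≫ 𝟙 _ := by
        rw [← whisker_exchange]; monoidal
    _ = 𝟙 _ ⊗≫ u.inv ⊗≫ (η_ I (Iᘁ : C) ▷ I ⊗≫ I ◁ ε_ I (Iᘁ : C)) ⊗≫ u.hom ⊗≫ 𝟙 _ := by
        rw [← whisker_exchange]; monoidal
    _ = u.inv ≫ u.hom := by rw [evaluation_coevaluation'']; monoidal
    _ = _ := by simp

lemma e1_e1inv : p.e1 u ≫ p.e1inv u = 𝟙 _ := by
  unfold e1 e1inv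
  calc
    _ = 𝟙 _ ⊗≫ (𝟙_ C ◁ (u.inv ▷ (Iᘁ : C) ≫ p.ev' I) ≫
      (p.co' I ≫ (Iᘁ : C) ◁ u.hom) ▷ 𝟙_ C) ⊗≫ 𝟙 _ := by monoidal
    _ = 𝟙 _ ⊗≫ ((p.co' I ≫ (Iᘁ : C) ◁ u.hom) ▷ (𝟙_ C ⊗ (Iᘁ : C)) ≫
      ((Iᘁ : C) ⊗ 𝟙_ C) ◁ (u.inv ▷ (Iᘁ : C) ≫ p.ev' I)) ⊗≫ 𝟙 _ := by
        rw [whisker_exchange]
    _ = 𝟙 _ ⊗≫ p.co' I ▷ (Iᘁ : C) ⊗≫ (Iᘁ : C) ◁ ((u.hom ≫ u.inv) ▷ (Iᘁ : C)) ⊗≫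
      (Iᘁ : C) ◁ p.ev' I ⊗≫ 𝟙 _ := by monoidal
    _ = 𝟙 _ ⊗≫ (p.co' I ▷ (Iᘁ : C) ⊗≫ (Iᘁ : C) ◁ p.ev' I) ⊗≫ 𝟙 _ := by
      rw [Iso.hom_inv_id]; monoidal
    _ = _ := by rw [p.zig2]; monoidal

lemma e1inv_e1 : p.e1inv u ≫ p.e1 u = 𝟙 _ := by
  unfold e1 e1inv
  calc
    _ = 𝟙 _ ⊗≫ (𝟙_ C ◁ (p.co' I ≫ (Iᘁ : C) ◁ u.hom) ≫
      u.inv ▷ ((Iᘁ : C) ⊗ 𝟙_ C)) ⊗≫ p.ev' I ⊗≫ 𝟙 _ := by monoidal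
    _ = 𝟙 _ ⊗≫ u.inv ⊗≫ I ◁ p.co' I ⊗≫ ((I ⊗ (Iᘁ : C)) ◁ u.hom ≫
      p.ev' I ▷ 𝟙_ C) ⊗≫ 𝟙 _ := by
        rw [whisker_exchange]; monoidal
    _ = 𝟙 _ ⊗≫ u.inv ⊗≫ (I ◁ p.co' I ⊗≫ p.ev' I ▷ I) ⊗≫ u.hom ⊗≫ 𝟙 _ := by
        rw [whisker_exchange]; monoidal
    _ = u.inv ≫ u.hom := by rw [p.zig1]; monoidal
    _ = _ := by simp

lemma ε_e0 : ε_ I (Iᘁ : C) = (Iᘁ : C) ◁ u.hom ≫ (ρ_ _).hom ≫ e0 u := by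
  unfold e0
  calc
    _ = (Iᘁ : C) ◁ (u.hom ≫ u.inv) ≫ ε_ I (Iᘁ : C) := by simp
    _ = _ := by rw [MonoidalCategory.whiskerLeft_comp]; simp

lemma ev'_e1 : p.ev' I = u.hom ▷ (Iᘁ : C) ≫ (λ_ _).hom ≫ p.e1 u := by
  unfold e1
  calc
    _ = (u.hom ≫ u.inv) ▷ (Iᘁ : C) ≫ p.ev' I := by simp
    _ = _ := by rw [comp_whiskerRight]; simp

/-- the comultiplication of `I*` -/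
noncomputable def mI : (Iᘁ : C) ⟶ (Iᘁ : C) ⊗ (Iᘁ : C) :=
  (((u.hom ⊗ₘ u.hom) ≫ (λ_ _).hom ≫ u.inv)ᘁ) ≫ (rightDualTensorIso I I).hom

lemma mI_e0 : mI u ≫ (e0 u ⊗ₘ e0 u) ≫ (λ_ _).hom = e0 u := by
  set g : I ⊗ I ⟶ I := (u.hom ⊗ₘ u.hom) ≫ (λ_ _).hom ≫ u.inv with hg
  have h1 := rightAdjointMate_comp_evaluation g
  rw [← dualTensor_ev, ← Category.assoc, ← comp_whiskerRight] at h1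
  change (mI u) ▷ (I ⊗ I) ≫ _ = _ at h1
  rw [ExactPairing.tensor_evaluation, ε_e0 u] at h1
  have h2 : (u.inv ⊗ₘ u.inv) ≫ g = (λ_ _).hom ≫ u.inv := by
    rw [hg]; simp
  symm
  calc
    e0 u = 𝟙 _ ⊗≫ (Iᘁ : C) ◁ ((λ_ (𝟙_ C)).hom ≫ (u.inv ≫ u.hom)) ⊗≫ e0 u := by
      rw [Iso.inv_hom_id]; monoidal
    _ = 𝟙 _ ⊗≫ (Iᘁ : C) ◁ ((λ_ _).hom ≫ u.inv) ≫ (Iᘁ : C) ◁ u.hom ⊗≫ e0 u := by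
      monoidal
    _ = 𝟙 _ ⊗≫ (Iᘁ : C) ◁ (u.inv ⊗ₘ u.inv) ≫ ((Iᘁ : C) ◁ g ≫ (Iᘁ : C) ◁ u.hom ≫ (ρ_ _).hom ≫
        e0 u) := by
      rw [← h2]; monoidal
    _ = 𝟙 _ ⊗≫ ((Iᘁ : C) ◁ (u.inv ⊗ₘ u.inv) ≫ (mI u) ▷ (I ⊗ I)) ⊗≫
        (Iᘁ : C) ◁ ((Iᘁ : C) ◁ u.hom ≫ (ρ_ _).hom ≫ e0 u) ▷ I ⊗≫
        ((Iᘁ : C) ◁ u.hom ≫ (ρ_ _).hom ≫ e0 u) := by
      rw [← h1]; monoidal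
    _ = 𝟙 _ ⊗≫ (mI u) ▷ (𝟙_ C ⊗ 𝟙_ C) ⊗≫ (Iᘁ : C) ◁ ((Iᘁ : C) ◁ u.inv) ▷ 𝟙_ C ⊗≫
        (Iᘁ : C) ◁ (((Iᘁ : C) ⊗ I) ◁ u.inv ≫
          ((Iᘁ : C) ◁ u.hom ≫ (ρ_ _).hom ≫ e0 u) ▷ I) ⊗≫
        ((Iᘁ : C) ◁ u.hom ≫ (ρ_ _).hom ≫ e0 u) := by
      rw [whisker_exchange, MonoidalCategory.tensorHom_def]; monoidal
    _ = 𝟙 _ ⊗≫ (mI u) ▷ (𝟙_ C ⊗ 𝟙_ C) ⊗≫ (Iᘁ : C) ◁ ((Iᘁ : C) ◁ (u.inv ≫ u.hom)) ▷ 𝟙_ C ⊗≫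
        (Iᘁ : C) ◁ (e0 u ▷ 𝟙_ C) ⊗≫
        ((Iᘁ : C) ◁ (u.inv ≫ u.hom) ≫ (ρ_ _).hom ≫ e0 u) := by
      rw [whisker_exchange]; monoidal
    _ = 𝟙 _ ⊗≫ (mI u) ⊗≫ ((Iᘁ : C) ◁ e0 u ≫ e0 u ▷ 𝟙_ C) ⊗≫ 𝟙 _ := by
      rw [Iso.inv_hom_id]; monoidal
    _ = _ := by rw [whisker_exchange, MonoidalCategory.tensorHom_def]; monoidal

lemma mI_e1 : mI u ≫ (p.e1 u ⊗ₘ p.e1 u) ≫ (λ_ _).hom = p.e1 u := by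
  set g : I ⊗ I ⟶ I := (u.hom ⊗ₘ u.hom) ≫ (λ_ _).hom ≫ u.inv with hg
  have h1 := p.ev'_slide g
  rw [p.ev'_tensor] at h1
  have h2 : (u.inv ⊗ₘ u.inv) ≫ g = (λ_ _).hom ≫ u.inv := by
    rw [hg]; simp
  have h3 : g ▷ (Iᘁ : C) ≫ p.ev' I = (I ⊗ I) ◁ mI u ⊗≫ I ◁ p.ev' I ▷ (Iᘁ : C) ⊗≫ p.ev' I := by
    rw [h1]
    unfold mI
    rw [← hg]
    monoidal
  rw [p.ev'_e1 u] at h3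
  symm
  calc
    p.e1 u = 𝟙 _ ⊗≫ ((λ_ (𝟙_ C)).hom ≫ (u.inv ≫ u.hom)) ▷ (Iᘁ : C) ⊗≫ p.e1 u := by
      rw [Iso.inv_hom_id]; monoidal
    _ = 𝟙 _ ⊗≫ ((λ_ _).hom ≫ u.inv) ▷ (Iᘁ : C) ≫ u.hom ▷ (Iᘁ : C) ⊗≫ p.e1 u := by
      monoidal
    _ = 𝟙 _ ⊗≫ (u.inv ⊗ₘ u.inv) ▷ (Iᘁ : C) ≫ (g ▷ (Iᘁ : C) ≫ u.hom ▷ (Iᘁ : C) ≫ (λ_ _).hom ≫
        p.e1 u) := by
      rw [← h2]; monoidal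
    _ = 𝟙 _ ⊗≫ ((u.inv ⊗ₘ u.inv) ▷ (Iᘁ : C) ≫ (I ⊗ I) ◁ (mI u)) ⊗≫
        I ◁ (u.hom ▷ (Iᘁ : C) ≫ (λ_ _).hom ≫ p.e1 u) ▷ (Iᘁ : C) ⊗≫
        (u.hom ▷ (Iᘁ : C) ≫ (λ_ _).hom ≫ p.e1 u) := by
      rw [h3]; monoidal
    _ = 𝟙 _ ⊗≫ (𝟙_ C ⊗ 𝟙_ C) ◁ (mI u) ⊗≫ 𝟙_ C ◁ (u.inv ▷ (Iᘁ : C)) ▷ (Iᘁ : C) ⊗≫
        (u.inv ▷ ((I ⊗ (Iᘁ : C))) ≫ I ◁ (u.hom ▷ (Iᘁ : C) ≫ (λ_ _).hom ≫ p.e1 u)) ▷ (Iᘁ : C) ⊗≫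
        (u.hom ▷ (Iᘁ : C) ≫ (λ_ _).hom ≫ p.e1 u) := by
      rw [← whisker_exchange, MonoidalCategory.tensorHom_def']; monoidal
    _ = 𝟙 _ ⊗≫ (𝟙_ C ⊗ 𝟙_ C) ◁ (mI u) ⊗≫ 𝟙_ C ◁ ((u.inv ≫ u.hom) ▷ (Iᘁ : C)) ▷ (Iᘁ : C) ⊗≫
        (𝟙_ C ◁ p.e1 u) ▷ (Iᘁ : C) ⊗≫
        ((u.inv ≫ u.hom) ▷ (Iᘁ : C) ≫ (λ_ _).hom ≫ p.e1 u) := by
      rw [← whisker_exchange]; monoidal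
    _ = 𝟙 _ ⊗≫ (mI u) ⊗≫ (p.e1 u ▷ (Iᘁ : C) ≫ 𝟙_ C ◁ p.e1 u) ⊗≫ 𝟙 _ := by
      rw [Iso.inv_hom_id]; monoidal
    _ = _ := by rw [MonoidalCategory.tensorHom_def]; monoidal

/-- the two comparisons agree -/
lemma e0_eq_e1 : e0 u = p.e1 u := by
  -- `s = e0⁻¹ ≫ e1` satisfies `s = s ≫ s`
  have h0 := mI_e0 u
  have h1 := p.mI_e1 u
  set s : 𝟙_ C ⟶ 𝟙_ C := e0inv u ≫ p.e1 u with hs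
  have h2 : p.e1 u = e0 u ≫ s := by
    rw [hs, ← Category.assoc, e0_e0inv, Category.id_comp]
  have h3 : (s ⊗ₘ s) ≫ (λ_ (𝟙_ C)).hom = (λ_ (𝟙_ C)).hom ≫ s ≫ s := by
    rw [MonoidalCategory.tensorHom_def']
    simp only [Category.assoc]
    rw [unitors_equal, rightUnitor_naturality, ← unitors_equal, leftUnitor_naturality_assoc]
  have h4 : e0 u ≫ s = e0 u ≫ s ≫ s := by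
    calc e0 u ≫ s = mI u ≫ (p.e1 u ⊗ₘ p.e1 u) ≫ (λ_ _).hom := by rw [h1, h2]
      _ = mI u ≫ (e0 u ⊗ₘ e0 u) ≫ (s ⊗ₘ s) ≫ (λ_ _).hom := by
        rw [h2, ← tensorHom_comp_tensorHom_assoc]
      _ = (mI u ≫ (e0 u ⊗ₘ e0 u) ≫ (λ_ _).hom) ≫ s ≫ s := by rw [h3]; simp
      _ = _ := by rw [h0]
  have h5 : s = s ≫ s := by
    have := congrArg (fun x => e0inv u ≫ x) h4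
    simp only [← Category.assoc, e0inv_e0, Category.id_comp] at this
    exact this
  have h6 : p.e1inv u ≫ e0 u ≫ s = 𝟙 _ := by rw [← h2, e1inv_e1]
  have h7 : s = 𝟙 _ := by
    have h8 : s ≫ (p.e1inv u ≫ e0 u) = 𝟙 _ := by
      rw [hs]
      calc (e0inv u ≫ p.e1 u) ≫ p.e1inv u ≫ e0 u = e0inv u ≫ (p.e1 u ≫ p.e1inv u) ≫ e0 u := by
            simp only [Category.assoc]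
        _ = _ := by rw [e1_e1inv, Category.id_comp, e0inv_e0]
    calc s = s ≫ (s ≫ (p.e1inv u ≫ e0 u)) := by rw [h8, Category.comp_id]
      _ = (s ≫ s) ≫ (p.e1inv u ≫ e0 u) := (Category.assoc _ _ _).symm
      _ = s ≫ (p.e1inv u ≫ e0 u) := by rw [← h5]
      _ = _ := h8
  rw [h2, h7, Category.comp_id]

/-- the dual of `ε_X` -/
lemma dual_ev (X : C) : ((ε_ X (Xᘁ : C) ≫ u.inv)ᘁ) ≫ (rightDualTensorIso (Xᘁ : C) X).hom =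
    e0 u ≫ η_ (Xᘁ : C) ((Xᘁ)ᘁ : C) := by
  set f := ε_ X (Xᘁ : C) ≫ u.inv with hf
  apply ev_inj (Y := (Xᘁ : C) ⊗ X)
  rw [comp_whiskerRight, Category.assoc, dualTensor_ev, rightAdjointMate_comp_evaluation,
    ExactPairing.tensor_evaluation, ε_e0 u]
  calc
    _ = (Iᘁ : C) ◁ ε_ X (Xᘁ : C) ≫ (Iᘁ : C) ◁ (u.inv ≫ u.hom) ⊗≫ e0 u ⊗≫ 𝟙 _ := by
      rw [hf]; monoidal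
    _ = 𝟙 _ ⊗≫ ((Iᘁ : C) ◁ ε_ X (Xᘁ : C) ≫ e0 u ▷ 𝟙_ C) ⊗≫ 𝟙 _ := by
      rw [Iso.inv_hom_id]; monoidal
    _ = e0 u ▷ ((Xᘁ : C) ⊗ X) ⊗≫ (η_ (Xᘁ : C) ((Xᘁ)ᘁ : C) ▷ (Xᘁ : C) ⊗≫
        (Xᘁ : C) ◁ ε_ (Xᘁ : C) ((Xᘁ)ᘁ : C)) ▷ X ⊗≫ ε_ X (Xᘁ : C) ⊗≫ 𝟙 _ := by
      rw [whisker_exchange, evaluation_coevaluation'']; monoidal
    _ = _ := by monoidal

end unit

/-- (F3), first form -/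
theorem iso_dual_ev (X : C) :
    ((p.iso (Xᘁ : C)).hom ⊗ₘ (p.iso X).hom) ≫ ε_ ((Xᘁ)ᘁ : C) (((Xᘁ)ᘁ)ᘁ : C) =
      ε_ X (Xᘁ : C) := by
  set u : 𝟙_ C ≅ 𝟙_ C := Iso.refl _ with hu
  have key : ∀ (I : C) (u : I ≅ 𝟙_ C),
    ((p.iso (Xᘁ : C)).hom ⊗ₘ (p.iso X).hom) ≫ ε_ ((Xᘁ)ᘁ : C) (((Xᘁ)ᘁ)ᘁ : C) =
      ε_ X (Xᘁ : C) := by
    intro I u
    set f := ε_ X (Xᘁ : C) ≫ u.inv with hf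
    have h1 := p.ev'_slide f
    rw [p.ev'_tensor] at h1
    have h2 : f ▷ (Iᘁ : C) ≫ p.ev' I = ((Xᘁ : C) ⊗ X) ◁ (e0 u ≫ η_ (Xᘁ : C) ((Xᘁ)ᘁ : C)) ⊗≫
        (Xᘁ : C) ◁ (p.ev' X) ▷ ((Xᘁ)ᘁ : C) ⊗≫ p.ev' (Xᘁ : C) := by
      rw [h1, ← dual_ev u]
      monoidal
    have h3 : f ▷ (Iᘁ : C) ≫ p.ev' I = ((Xᘁ : C) ⊗ X) ◁ e0 u ⊗≫ ε_ X (Xᘁ : C) ⊗≫ 𝟙 _ := by
      rw [p.ev'_e1 u, ← p.e0_eq_e1, hf]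
      calc
        _ = 𝟙 _ ⊗≫ ε_ X (Xᘁ : C) ▷ (Iᘁ : C) ⊗≫ (u.inv ≫ u.hom) ▷ (Iᘁ : C) ⊗≫ e0 u ⊗≫ 𝟙 _ := by
          monoidal
        _ = 𝟙 _ ⊗≫ (ε_ X (Xᘁ : C) ▷ (Iᘁ : C) ≫ 𝟙_ C ◁ e0 u) ⊗≫ 𝟙 _ := by
          rw [Iso.inv_hom_id]; monoidal
        _ = _ := by rw [← whisker_exchange]; monoidal
    have h4 : ((Xᘁ : C) ⊗ X) ◁ (e0 u ≫ η_ (Xᘁ : C) ((Xᘁ)ᘁ : C)) ⊗≫
        (Xᘁ : C) ◁ (p.ev' X) ▷ ((Xᘁ)ᘁ : C) ⊗≫ p.ev' (Xᘁ : C) =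
        ((Xᘁ : C) ⊗ X) ◁ e0 u ⊗≫ ((p.iso (Xᘁ : C)).hom ⊗ₘ (p.iso X).hom) ≫
          ε_ ((Xᘁ)ᘁ : C) (((Xᘁ)ᘁ)ᘁ : C) := by
      unfold ev'
      calc
        _ = ((Xᘁ : C) ⊗ X) ◁ e0 u ⊗≫ (Xᘁ : C) ◁ (X ◁ η_ (Xᘁ : C) ((Xᘁ)ᘁ : C) ≫
            (p.iso X).hom ▷ ((Xᘁ : C) ⊗ ((Xᘁ)ᘁ : C))) ⊗≫
            (Xᘁ : C) ◁ (ε_ (Xᘁ : C) ((Xᘁ)ᘁ : C)) ▷ ((Xᘁ)ᘁ : C) ⊗≫
            (p.iso (Xᘁ : C)).hom ▷ ((Xᘁ)ᘁ : C) ≫ ε_ ((Xᘁ)ᘁ : C) (((Xᘁ)ᘁ)ᘁ : C) := by monoidal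
        _ = ((Xᘁ : C) ⊗ X) ◁ e0 u ⊗≫ (Xᘁ : C) ◁ (p.iso X).hom ⊗≫
            (Xᘁ : C) ◁ (((Xᘁ)ᘁ : C) ◁ η_ (Xᘁ : C) ((Xᘁ)ᘁ : C) ⊗≫
              ε_ (Xᘁ : C) ((Xᘁ)ᘁ : C) ▷ ((Xᘁ)ᘁ : C)) ⊗≫
            (p.iso (Xᘁ : C)).hom ▷ ((Xᘁ)ᘁ : C) ≫ ε_ ((Xᘁ)ᘁ : C) (((Xᘁ)ᘁ)ᘁ : C) := by
          rw [whisker_exchange]; monoidal
        _ = ((Xᘁ : C) ⊗ X) ◁ e0 u ⊗≫ ((Xᘁ : C) ◁ (p.iso X).hom ≫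
            (p.iso (Xᘁ : C)).hom ▷ ((Xᘁ)ᘁ : C)) ≫ ε_ ((Xᘁ)ᘁ : C) (((Xᘁ)ᘁ)ᘁ : C) := by
          rw [coevaluation_evaluation'']; monoidal
        _ = _ := by rw [MonoidalCategory.tensorHom_def']
    rw [h3, h4] at h2
    have h5 : ∀ {a b : (Xᘁ : C) ⊗ X ⟶ 𝟙_ C}, ((Xᘁ : C) ⊗ X) ◁ e0 u ⊗≫ a =
        ((Xᘁ : C) ⊗ X) ◁ e0 u ⊗≫ b → a = b := by
      intro a b h
      have h6 : ∀ a : (Xᘁ : C) ⊗ X ⟶ 𝟙_ C, a = 𝟙 _ ⊗≫ ((Xᘁ : C) ⊗ X) ◁ e0inv u ≫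
          (((Xᘁ : C) ⊗ X) ◁ e0 u ⊗≫ a) := by
        intro a
        calc
          a = 𝟙 _ ⊗≫ ((Xᘁ : C) ⊗ X) ◁ (e0inv u ≫ e0 u) ⊗≫ a := by
            rw [e0inv_e0]; monoidal
          _ = _ := by monoidal
      rw [h6 a, h6 b, h]
    apply h5
    rw [← h2]
    monoidal
  exact key (𝟙_ C) (Iso.refl _)

/-- (F3) the pivotal isomorphism of a dual -/
theorem iso_dual (X : C) : (p.iso (Xᘁ : C)).hom ≫ ((p.iso X).hom)ᘁ = 𝟙 (Xᘁ : C) := by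
  apply ev_inj (Y := X)
  rw [comp_whiskerRight, Category.assoc, rightAdjointMate_comp_evaluation, id_whiskerRight,
    Category.id_comp, ← p.iso_dual_ev X, MonoidalCategory.tensorHom_def, Category.assoc]

/-- (F4) the left dimension of `X` is the (right) dimension of `X*`. -/
theorem co'_ev (X : C) : p.co' X ≫ ε_ X (Xᘁ : C) = p.qdim (Xᘁ : C) := by
  rw [← p.iso_dual_ev X]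
  unfold co' qdim
  rw [MonoidalCategory.tensorHom_def', Category.assoc, Category.assoc,
    ← MonoidalCategory.whiskerLeft_comp_assoc, Iso.inv_hom_id]
  simp

lemma co'_dual (U : C) : p.co' (Uᘁ : C) = η_ U (Uᘁ : C) ≫ (p.iso U).hom ▷ (Uᘁ : C) := by
  have h : (p.iso (Uᘁ : C)).inv = ((p.iso U).hom)ᘁ := by
    rw [← cancel_epi (p.iso (Uᘁ : C)).hom, Iso.hom_inv_id, p.iso_dual]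
  unfold co'
  rw [h, coevaluation_comp_rightAdjointMate]

/-- (F7) zigzag with the dual -/
theorem ltr_dual (U : C) {A B : C} (g : A ⟶ B) :
    p.ltr (Uᘁ : C) ((α_ _ _ _).inv ≫ ε_ U (Uᘁ : C) ▷ A ≫ (λ_ A).hom ≫ g ≫ (λ_ B).inv ≫
      p.co' U ▷ B ≫ (α_ _ _ _).hom) = U ◁ g := by
  rw [ltr_eq, p.co'_dual]
  unfold co'
  calc
    _ = 𝟙 _ ⊗≫ η_ U (Uᘁ : C) ▷ U ▷ A ⊗≫ ((p.iso U).hom ▷ ((Uᘁ : C) ⊗ U) ≫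
          ((Uᘁ)ᘁ : C) ◁ ε_ U (Uᘁ : C)) ▷ A ⊗≫ ((Uᘁ)ᘁ : C) ◁ g ⊗≫
        (((Uᘁ)ᘁ : C) ◁ η_ (Uᘁ : C) ((Uᘁ)ᘁ : C)) ▷ B ⊗≫
        (((Uᘁ)ᘁ : C) ⊗ (Uᘁ : C)) ◁ (p.iso U).inv ▷ B ⊗≫
        ε_ (Uᘁ : C) ((Uᘁ)ᘁ : C) ▷ U ▷ B ⊗≫ 𝟙 _ := by monoidal
    _ = 𝟙 _ ⊗≫ (η_ U (Uᘁ : C) ▷ U ⊗≫ U ◁ ε_ U (Uᘁ : C)) ▷ A ⊗≫ (p.iso U).hom ▷ A ⊗≫
        ((Uᘁ)ᘁ : C) ◁ g ⊗≫
        (((Uᘁ)ᘁ : C) ◁ η_ (Uᘁ : C) ((Uᘁ)ᘁ : C)) ▷ B ⊗≫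
        ((((Uᘁ)ᘁ : C) ⊗ (Uᘁ : C)) ◁ (p.iso U).inv ≫
        ε_ (Uᘁ : C) ((Uᘁ)ᘁ : C) ▷ U) ▷ B ⊗≫ 𝟙 _ := by
      rw [← whisker_exchange]; monoidal
    _ = 𝟙 _ ⊗≫ ((p.iso U).hom ▷ A ≫ ((Uᘁ)ᘁ : C) ◁ g) ⊗≫
        (((Uᘁ)ᘁ : C) ◁ η_ (Uᘁ : C) ((Uᘁ)ᘁ : C) ⊗≫
        ε_ (Uᘁ : C) ((Uᘁ)ᘁ : C) ▷ ((Uᘁ)ᘁ : C)) ▷ B ⊗≫ (p.iso U).inv ▷ B ⊗≫ 𝟙 _ := by
      rw [evaluation_coevaluation'', whisker_exchange]; monoidal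
    _ = 𝟙 _ ⊗≫ U ◁ g ⊗≫ ((p.iso U).hom ≫ (p.iso U).inv) ▷ B ⊗≫ 𝟙 _ := by
      rw [coevaluation_evaluation'', ← whisker_exchange]; monoidal
    _ = _ := by rw [Iso.hom_inv_id]; monoidal

/-! The right partial trace. -/

/-- The right partial trace. -/
noncomputable def rtr (U : C) {A B : C} (f : A ⊗ U ⟶ B ⊗ U) : A ⟶ B :=
  𝟙 _ ⊗≫ A ◁ η_ U (Uᘁ : C) ⊗≫ f ▷ (Uᘁ : C) ⊗≫ B ◁ p.ev' U ⊗≫ 𝟙 _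

/-- The left trace -/
noncomputable def trL {U : C} (f : U ⟶ U) : 𝟙_ C ⟶ 𝟙_ C :=
  p.co' U ≫ (Uᘁ : C) ◁ f ≫ ε_ U (Uᘁ : C)

/-- The right trace -/
noncomputable def trR {U : C} (f : U ⟶ U) : 𝟙_ C ⟶ 𝟙_ C :=
  η_ U (Uᘁ : C) ≫ f ▷ (Uᘁ : C) ≫ p.ev' U

lemma trL_comm {U V : C} (f : U ⟶ V) (g : V ⟶ U) : p.trL (f ≫ g) = p.trL (g ≫ f) := by
  unfold trL
  rw [MonoidalCategory.whiskerLeft_comp, MonoidalCategory.whiskerLeft_comp, Category.assoc,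
    Category.assoc, ← rightAdjointMate_comp_evaluation f, whisker_exchange_assoc,
    ← Category.assoc, p.co'_slide, Category.assoc]

lemma trR_comm {U V : C} (f : U ⟶ V) (g : V ⟶ U) : p.trR (f ≫ g) = p.trR (g ≫ f) := by
  unfold trR
  calc
    _ = (η_ U (Uᘁ : C) ≫ f ▷ (Uᘁ : C)) ≫ g ▷ (Uᘁ : C) ≫ p.ev' U := by
      rw [comp_whiskerRight]; simp only [Category.assoc]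
    _ = η_ V (Vᘁ : C) ≫ (V ◁ (fᘁ) ≫ g ▷ (Uᘁ : C)) ≫ p.ev' U := by
      rw [← coevaluation_comp_rightAdjointMate f]; simp only [Category.assoc]
    _ = η_ V (Vᘁ : C) ≫ g ▷ (Vᘁ : C) ≫ (U ◁ (fᘁ) ≫ p.ev' U) := by
      rw [whisker_exchange]; simp only [Category.assoc]
    _ = _ := by
      rw [← p.ev'_slide f, comp_whiskerRight]; simp only [Category.assoc]

lemma trL_id (U : C) : p.trL (𝟙 U) = p.qdim (Uᘁ : C) := by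
  unfold trL
  rw [MonoidalCategory.whiskerLeft_id, Category.id_comp, p.co'_ev]

lemma trR_id (U : C) : p.trR (𝟙 U) = p.qdim U := by
  unfold trR qdim ev'
  rw [id_whiskerRight, Category.id_comp]

/-- the left trace as a left partial trace -/
lemma trL_eq_ltr {U : C} (f : U ⟶ U) : p.trL f = p.ltr U (f ▷ 𝟙_ C) := by
  rw [ltr_eq]
  unfold trL
  monoidal

/-- the left trace of a tensor product -/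
lemma trL_tensor {U V : C} (f : U ⊗ V ⟶ U ⊗ V) : p.trL f = p.trL (p.ltr U f) := by
  rw [trL_eq_ltr, trL_eq_ltr, ltr_tensor]
  congr 1
  rw [ltr_eq, ltr_eq]
  monoidal

/-- the two partial traces commute -/
lemma trL_rtr {U V : C} (f : U ⊗ V ⟶ U ⊗ V) : p.trL (p.rtr V f) = p.trR (p.ltr U f) := by
  unfold trL rtr trR
  rw [ltr_eq]
  calc
    _ = 𝟙 _ ⊗≫ (p.co' U ▷ 𝟙_ C ≫ ((Uᘁ : C) ⊗ U) ◁ η_ V (Vᘁ : C)) ⊗≫ (Uᘁ : C) ◁ f ▷ (Vᘁ : C) ⊗≫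
        (((Uᘁ : C) ⊗ U) ◁ p.ev' V ≫ ε_ U (Uᘁ : C) ▷ 𝟙_ C) ⊗≫ 𝟙 _ := by monoidal
    _ = 𝟙 _ ⊗≫ η_ V (Vᘁ : C) ⊗≫ p.co' U ▷ (V ⊗ (Vᘁ : C)) ⊗≫ (Uᘁ : C) ◁ f ▷ (Vᘁ : C) ⊗≫
        (((Uᘁ : C) ⊗ U) ◁ p.ev' V ≫ ε_ U (Uᘁ : C) ▷ 𝟙_ C) ⊗≫ 𝟙 _ := by
      rw [← whisker_exchange]; monoidal
    _ = _ := by rw [whisker_exchange]; monoidal

end Pivotal
end Run7.h292
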