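import Pool.Agent.Run7.h292.Piv
import Pool.Agent.Helper781.Fusion.Decomp

/-!
Traces in a semisimple pivotal category.
-/

set_option autoImplicit false
set_option linter.unusedSectionVars false

open CategoryTheory CategoryTheory.Limits MonoidalCategory ExactPairing
open Pool.Agent.Helper781.Fusion (Dec IsSimpleList exists_scalar finrank_simple hom_zero sum_dec)

namespace Run7.h292

universe v u

section lin

variable {C : Type u} [Category.{v} C] [Abelian C] [Linear ℂ C]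

lemma IsSimples.list {n : ℕ} {S : Fin n → C} (h : IsSimples S) : IsSimpleList S :=
  ⟨h.simple, h.inj, h.complete⟩

/-- postcomposition -/
noncomputable def post (G : C) {X Y : C} (f : X ⟶ Y) : (G ⟶ X) →ₗ[ℂ] (G ⟶ Y) :=
  Linear.rightComp ℂ G f

@[simp] lemma post_apply (G : C) {X Y : C} (f : X ⟶ Y) (g : G ⟶ X) : post G f g = g ≫ f := rfl

lemma post_comp (G : C) {X Y Z : C} (f : X ⟶ Y) (g : Y ⟶ Z) :
    post G (f ≫ g) = post G g ∘ₗ post G f := by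
  ext h
  simp

lemma post_id (G X : C) : post G (𝟙 X) = LinearMap.id := by
  ext h
  simp

lemma post_sum (G : C) {X Y : C} {ι : Type*} (s : Finset ι) (f : ι → (X ⟶ Y)) :
    post G (∑ i ∈ s, f i) = ∑ i ∈ s, post G (f i) := by
  ext h
  simp [Preadditive.comp_sum]

lemma post_smul (G : C) {X Y : C} (c : ℂ) (f : X ⟶ Y) :
    post G (c • f) = c • post G f := by
  ext h
  simp

lemma post_add (G : C) {X Y : C} (f g : X ⟶ Y) :
    post G (f + g) = post G f + post G g := by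
  ext h
  simp

variable [hfd : ∀ X Y : C, FiniteDimensional ℂ (X ⟶ Y)]

/-- the scalar of an endomorphism of a simple object -/
noncomputable def sc (X : C) [Simple X] : (X ⟶ X) →ₗ[ℂ] ℂ := (exists_scalar X).choose

lemma sc_spec {X : C} [Simple X] (f : X ⟶ X) : f = sc X f • 𝟙 X :=
  (exists_scalar X).choose_spec.1 f

@[simp] lemma sc_id (X : C) [Simple X] : sc X (𝟙 X) = 1 := (exists_scalar X).choose_spec.2

lemma sc_unique {X : C} [Simple X] {f : X ⟶ X} {c : ℂ} (h : f = c • 𝟙 X) : sc X f = c := by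
  rw [h, map_smul, sc_id, smul_eq_mul, mul_one]

lemma sc_comp {X : C} [Simple X] (f g : X ⟶ X) : sc X (f ≫ g) = sc X f * sc X g := by
  apply sc_unique
  conv_lhs => rw [sc_spec f, sc_spec g]
  rw [Linear.smul_comp, Linear.comp_smul, Category.comp_id, smul_smul]

variable {n : ℕ} {S : Fin n → C}

/-- Trace of postcomposition in terms of a decomposition. -/
lemma trace_post (hS : IsSimples S) {X : C} (d : Dec S X) (i : Fin n) (f : X ⟶ X) :
    LinearMap.trace ℂ _ (post (S i) f) =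
      ∑ b, if i = d.idx b then (haveI := hS.simple (d.idx b)
        sc (S (d.idx b)) (d.inc b ≫ f ≫ d.prj b)) else 0 := by
  have e1 : post (S i) f = ∑ b, (post (S i) (d.inc b ≫ f)) ∘ₗ post (S i) (d.prj b) := by
    have : f = ∑ b, d.prj b ≫ d.inc b ≫ f := by
      simp_rw [← Category.assoc]
      rw [← Preadditive.sum_comp, d.sum, Category.id_comp]
    conv_lhs => rw [this, post_sum]
    simp_rw [← post_comp]
  rw [e1, map_sum]
  refine Finset.sum_congr rfl fun b _ => ?_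
  rw [LinearMap.trace_comp_comm', ← post_comp, Category.assoc]
  have := hS.simple (d.idx b)
  have e2 := sc_spec (d.inc b ≫ f ≫ d.prj b)
  conv_lhs => rw [e2]
  rw [post_smul, post_id, map_smul, LinearMap.trace_id, finrank_simple hS.list]
  split_ifs <;> simp

end lin

section mon

variable {C : Type u} [Category.{v} C] [Abelian C] [Linear ℂ C]
  [MonoidalCategory C] [MonoidalPreadditive C] [MonoidalLinear ℂ C] [RightRigidCategory C]
  [hfd : ∀ X Y : C, FiniteDimensional ℂ (X ⟶ Y)] [Simple (𝟙_ C)] (p : Pivotal C)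

/-- the left trace, as a scalar -/
noncomputable def Pivotal.tr (X : C) : (X ⟶ X) →ₗ[ℂ] ℂ where
  toFun f := sc (𝟙_ C) (p.trL f)
  map_add' f g := by
    rw [← map_add]
    congr 1
    unfold Pivotal.trL
    simp
  map_smul' c f := by
    rw [RingHom.id_apply, ← map_smul]
    congr 1
    unfold Pivotal.trL
    simp

lemma Pivotal.tr_apply {X : C} (f : X ⟶ X) : p.tr X f = sc (𝟙_ C) (p.trL f) := rfl

lemma Pivotal.tr_comm {X Y : C} (f : X ⟶ Y) (g : Y ⟶ X) : p.tr X (f ≫ g) = p.tr Y (g ≫ f) := by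
  rw [Pivotal.tr_apply, Pivotal.tr_apply, p.trL_comm]

lemma Pivotal.trL_eq_smul {X : C} (f : X ⟶ X) : p.trL f = p.tr X f • 𝟙 (𝟙_ C) := sc_spec _

/-- the dimension -/
noncomputable def Pivotal.dm (X : C) : ℂ := p.tr X (𝟙 X)

variable {n : ℕ} {S : Fin n → C}

/-- the categorical trace in terms of linear traces -/
lemma Pivotal.tr_eq (hS : IsSimples S) (dec : ∀ Z, Dec S Z) {X : C} (f : X ⟶ X) :
    p.tr X f = ∑ i, p.dm (S i) * LinearMap.trace ℂ _ (post (S i) f) := by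
  have e1 : f = ∑ b, (dec X).prj b ≫ (dec X).inc b ≫ f := by
    simp_rw [← Category.assoc]
    rw [← Preadditive.sum_comp, (dec X).sum, Category.id_comp]
  have e2 : p.tr X f = ∑ b, p.tr _ ((dec X).inc b ≫ f ≫ (dec X).prj b) := by
    conv_lhs => rw [e1, map_sum]
    refine Finset.sum_congr rfl fun b _ => ?_
    rw [p.tr_comm, Category.assoc]
  rw [e2]
  simp_rw [trace_post hS (dec X)]
  simp_rw [Finset.mul_sum]
  rw [Finset.sum_comm]
  refine Finset.sum_congr rfl fun b _ => ?_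
  rw [Finset.sum_eq_single ((dec X).idx b)]
  · rw [if_pos rfl]
    have := hS.simple ((dec X).idx b)
    have e3 := sc_spec ((dec X).inc b ≫ f ≫ (dec X).prj b)
    conv_lhs => rw [e3]
    rw [map_smul, smul_eq_mul, mul_comm]
    rfl
  · intro i _ hi
    rw [if_neg hi, mul_zero]
  · intro h; exact absurd (Finset.mem_univ _) h

lemma Pivotal.dm_eq (hS : IsSimples S) (dec : ∀ Z, Dec S Z) (X : C) :
    p.dm X = ∑ i, p.dm (S i) * (Module.finrank ℂ (S i ⟶ X) : ℂ) := by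
  unfold Pivotal.dm
  rw [p.tr_eq hS dec]
  simp_rw [post_id, LinearMap.trace_id]
  rfl

lemma Pivotal.dm_iso {X Y : C} (e : X ≅ Y) : p.dm X = p.dm Y := by
  unfold Pivotal.dm
  rw [← e.hom_inv_id, p.tr_comm, e.inv_hom_id]

/-! partial traces of decomposable morphisms -/

lemma Pivotal.ltr_add (U : C) {A B : C} (f g : U ⊗ A ⟶ U ⊗ B) :
    p.ltr U (f + g) = p.ltr U f + p.ltr U g := by
  unfold Pivotal.ltr
  simp only [MonoidalPreadditive.whiskerLeft_add, Preadditive.comp_add, Preadditive.add_comp]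

lemma Pivotal.ltr_smul (U : C) {A B : C} (c : ℂ) (f : U ⊗ A ⟶ U ⊗ B) :
    p.ltr U (c • f) = c • p.ltr U f := by
  unfold Pivotal.ltr
  simp

/-- the left partial trace as a linear map -/
noncomputable def Pivotal.ltrL (U A B : C) : (U ⊗ A ⟶ U ⊗ B) →ₗ[ℂ] (A ⟶ B) where
  toFun f := p.ltr U f
  map_add' f g := p.ltr_add U f g
  map_smul' c f := p.ltr_smul U c f

lemma Pivotal.ltr_sum (U : C) {A B : C} {ι : Type*} (s : Finset ι) (f : ι → (U ⊗ A ⟶ U ⊗ B)) :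
    p.ltr U (∑ i ∈ s, f i) = ∑ i ∈ s, p.ltr U (f i) :=
  map_sum (p.ltrL U A B) f s

lemma Pivotal.ltr_pre (U : C) {A' A B : C} (a : A' ⟶ A) (f : U ⊗ A ⟶ U ⊗ B) :
    p.ltr U (U ◁ a ≫ f) = a ≫ p.ltr U f := by
  rw [p.ltr_eq, p.ltr_eq]
  calc
    _ = 𝟙 _ ⊗≫ (p.co' U ▷ A' ≫ ((Uᘁ : C) ⊗ U) ◁ a) ⊗≫ (Uᘁ : C) ◁ f ⊗≫ ε_ U (Uᘁ : C) ▷ B ⊗≫ 𝟙 _ := by
      monoidal
    _ = _ := by rw [← whisker_exchange]; monoidal

lemma Pivotal.ltr_post (U : C) {A B B' : C} (f : U ⊗ A ⟶ U ⊗ B) (b : B ⟶ B') :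
    p.ltr U (f ≫ U ◁ b) = p.ltr U f ≫ b := by
  rw [p.ltr_eq, p.ltr_eq]
  calc
    _ = 𝟙 _ ⊗≫ p.co' U ▷ A ⊗≫ (Uᘁ : C) ◁ f ⊗≫ (((Uᘁ : C) ⊗ U) ◁ b ≫ ε_ U (Uᘁ : C) ▷ B') ⊗≫ 𝟙 _ := by
      monoidal
    _ = _ := by rw [whisker_exchange]; monoidal

lemma Pivotal.ltr_whisker (U : C) {A B : C} (f : U ⊗ A ⟶ U ⊗ B) (V : C) :
    p.ltr U ((α_ _ _ _).inv ≫ f ▷ V ≫ (α_ _ _ _).hom) = p.ltr U f ▷ V := by
  rw [p.ltr_eq, p.ltr_eq]
  monoidal

lemma Pivotal.ltr_tr {U : C} (f : U ⟶ U) (A : C) : p.ltr U (f ▷ A) = p.tr U f • 𝟙 A := by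
  have h : p.ltr U (f ▷ A) = (λ_ A).inv ≫ (p.trL f) ▷ A ≫ (λ_ A).hom := by
    rw [p.ltr_eq]
    unfold Pivotal.trL
    monoidal
  rw [h, p.trL_eq_smul, MonoidalLinear.smul_whiskerRight]
  simp

lemma Pivotal.ltr_whiskerLeft (U : C) {A B : C} (g : A ⟶ B) : p.ltr U (U ◁ g) = p.dm U • g := by
  have h : U ◁ g = (𝟙 U) ▷ A ≫ U ◁ g := by simp
  rw [h, p.ltr_post, p.ltr_tr]
  simp [Pivotal.dm]

lemma Pivotal.tr_ltr {U V : C} (f : U ⊗ V ⟶ U ⊗ V) : p.tr (U ⊗ V) f = p.tr V (p.ltr U f) := by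
  rw [Pivotal.tr_apply, p.trL_tensor, Pivotal.tr_apply]

lemma Pivotal.dm_tensor (U V : C) : p.dm (U ⊗ V) = p.dm U * p.dm V := by
  unfold Pivotal.dm
  rw [p.tr_ltr, ← MonoidalCategory.id_whiskerRight, p.ltr_tr, map_smul, smul_eq_mul]

lemma Pivotal.dm_of_iso_unit {I : C} (u : I ≅ 𝟙_ C) : p.dm I = 1 := by
  have h : p.trL (𝟙 I) = 𝟙 _ := by
    unfold Pivotal.trL
    rw [MonoidalCategory.whiskerLeft_id, Category.id_comp, Pivotal.ε_e0 u, p.e0_eq_e1,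
      ← p.e1inv_e1 u]
    unfold Pivotal.e1inv
    simp only [Category.assoc]
  unfold Pivotal.dm
  rw [Pivotal.tr_apply, h, sc_id]

lemma Pivotal.dm_unit : p.dm (𝟙_ C) = 1 := p.dm_of_iso_unit (Iso.refl _)

/-- A nonzero map from a simple object splits. -/
lemma exists_retr (hS : IsSimples S) (dec : ∀ Z, Dec S Z) {X Z : C} [Simple X]
    (f : X ⟶ Z) (hf : f ≠ 0) : ∃ s : Z ⟶ X, f ≫ s = 𝟙 X := by
  have h1 : ∃ b, f ≫ (dec Z).prj b ≠ 0 := by
    by_contra hcon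
    push Not at hcon
    apply hf
    have : f = f ≫ ∑ b, (dec Z).prj b ≫ (dec Z).inc b := by rw [(dec Z).sum, Category.comp_id]
    rw [this, Preadditive.comp_sum]
    refine Finset.sum_eq_zero fun b _ => ?_
    rw [← Category.assoc, hcon, zero_comp]
  obtain ⟨b, hb⟩ := h1
  have := hS.simple ((dec Z).idx b)
  have : IsIso (f ≫ (dec Z).prj b) := isIso_of_hom_simple hb
  exact ⟨(dec Z).prj b ≫ inv (f ≫ (dec Z).prj b), by
    rw [← Category.assoc, IsIso.hom_inv_id]⟩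

/-- Every map `X* ⊗ X ⟶ 1` is a multiple of the evaluation for `X` simple. -/
lemma ev_multiple (X : C) [Simple X] (r : (Xᘁ : C) ⊗ X ⟶ 𝟙_ C) : ∃ c : ℂ, r = c • ε_ X (Xᘁ : C) := by
  set E := tensorLeftHomEquiv X X (Xᘁ : C) (𝟙_ C) with hE
  refine ⟨sc X (E r ≫ (ρ_ X).hom), ?_⟩
  have h1 : E r = sc X (E r ≫ (ρ_ X).hom) • (ρ_ X).inv := by
    rw [← cancel_mono (ρ_ X).hom]
    conv_lhs => rw [sc_spec (E r ≫ (ρ_ X).hom)]
    rw [Linear.smul_comp, Iso.inv_hom_id]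
  have h2 : r = E.symm (E r) := by simp
  generalize sc X (E r ≫ (ρ_ X).hom) = c at h1
  rw [h2, h1]
  have h3 : ∀ (c : ℂ) (g : X ⟶ X ⊗ 𝟙_ C), E.symm (c • g) = c • E.symm g := by
    intro c g
    change (Xᘁ : C) ◁ (c • g) ≫ _ = c • ((Xᘁ : C) ◁ g ≫ _)
    rw [MonoidalLinear.whiskerLeft_smul, Linear.smul_comp]
  rw [h3]
  congr 1
  change (Xᘁ : C) ◁ (ρ_ X).inv ≫ (α_ _ _ _).inv ≫ ε_ X (Xᘁ : C) ▷ (𝟙_ C) ≫ (λ_ _).hom = _
  monoidal

lemma Pivotal.co'_ne_zero (X : C) [Simple X] : p.co' X ≠ 0 := by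
  intro h
  have h1 := p.zig1 X
  rw [h] at h1
  have h2 : 𝟙 X = 𝟙 _ ⊗≫ (X ◁ (0 : 𝟙_ C ⟶ (Xᘁ : C) ⊗ X) ⊗≫ p.ev' X ▷ X) ⊗≫ 𝟙 _ := by
    rw [h1]; monoidal
  have h3 : (X ◁ (0 : 𝟙_ C ⟶ (Xᘁ : C) ⊗ X) ⊗≫ p.ev' X ▷ X) = 0 := by
    simp [monoidalComp]
  rw [h3] at h2
  exact id_nonzero X (by rw [h2]; simp [monoidalComp])

lemma Pivotal.dm_ne_zero (hS : IsSimples S) (dec : ∀ Z, Dec S Z) (X : C) [Simple X] :
    p.dm X ≠ 0 := by
  intro h
  obtain ⟨r, hr⟩ := exists_retr hS dec (p.co' X) (p.co'_ne_zero X)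
  obtain ⟨c, hc⟩ := ev_multiple X r
  have h1 : p.co' X ≫ ε_ X (Xᘁ : C) = 0 := by
    have := p.trL_eq_smul (𝟙 X)
    unfold Pivotal.trL at this
    rw [MonoidalCategory.whiskerLeft_id, Category.id_comp] at this
    rw [this]
    change p.dm X • _ = _
    rw [h, zero_smul]
  rw [hc, Linear.comp_smul, h1, smul_zero] at hr
  exact id_nonzero (𝟙_ C) hr.symm

/-- nondegeneracy of the trace -/
lemma Pivotal.tr_nondeg (hS : IsSimples S) (dec : ∀ Z, Dec S Z) {X Y : C} (g : X ⟶ Y)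
    (h : ∀ f : Y ⟶ X, p.tr X (g ≫ f) = 0) : g = 0 := by
  by_contra hg
  have h1 : ∃ b, (dec X).inc b ≫ g ≠ 0 := by
    by_contra hcon
    push Not at hcon
    apply hg
    have : g = (∑ b, (dec X).prj b ≫ (dec X).inc b) ≫ g := by rw [(dec X).sum, Category.id_comp]
    rw [this, Preadditive.sum_comp]
    refine Finset.sum_eq_zero fun b _ => ?_
    rw [Category.assoc, hcon, comp_zero]
  obtain ⟨b, hb⟩ := h1
  have := hS.simple ((dec X).idx b)
  obtain ⟨s, hs⟩ := exists_retr hS dec _ hb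
  have h2 := h (s ≫ (dec X).inc b)
  rw [← Category.assoc, p.tr_comm, ← Category.assoc, hs] at h2
  exact p.dm_ne_zero hS dec _ h2

/-- the right trace, as a scalar -/
noncomputable def Pivotal.tR (X : C) : (X ⟶ X) →ₗ[ℂ] ℂ where
  toFun f := sc (𝟙_ C) (p.trR f)
  map_add' f g := by
    rw [← map_add]
    congr 1
    unfold Pivotal.trR
    simp
  map_smul' c f := by
    rw [RingHom.id_apply, ← map_smul]
    congr 1
    unfold Pivotal.trR
    simp

lemma Pivotal.tR_comm {X Y : C} (f : X ⟶ Y) (g : Y ⟶ X) : p.tR X (f ≫ g) = p.tR Y (g ≫ f) := by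
  change sc _ _ = sc _ _
  rw [p.trR_comm]

/-- left and right traces agree in the spherical case -/
lemma Pivotal.tR_eq (hs : p.IsSpherical) (hS : IsSimples S) (dec : ∀ Z, Dec S Z) {X : C}
    (f : X ⟶ X) : p.tR X f = p.tr X f := by
  have h0 : ∀ Y : C, p.tR Y (𝟙 Y) = p.tr Y (𝟙 Y) := by
    intro Y
    change sc _ (p.trR _) = sc _ (p.trL _)
    rw [p.trR_id, p.trL_id, hs]
  have e1 : f = ∑ b, (dec X).prj b ≫ (dec X).inc b ≫ f := by
    simp_rw [← Category.assoc]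
    rw [← Preadditive.sum_comp, (dec X).sum, Category.id_comp]
  rw [e1, map_sum, map_sum]
  refine Finset.sum_congr rfl fun b _ => ?_
  rw [p.tr_comm, p.tR_comm, Category.assoc]
  have := hS.simple ((dec X).idx b)
  have e3 := sc_spec ((dec X).inc b ≫ f ≫ (dec X).prj b)
  rw [e3, map_smul, map_smul, h0]

lemma Pivotal.tr_rtr (hs : p.IsSpherical) (hS : IsSimples S) (dec : ∀ Z, Dec S Z) {U V : C}
    (f : U ⊗ V ⟶ U ⊗ V) : p.tr U (p.rtr V f) = p.tr (U ⊗ V) f := by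
  rw [p.tr_ltr, ← p.tR_eq hs hS dec (p.ltr U f)]
  change sc _ (p.trL (p.rtr V f)) = sc _ (p.trR _)
  rw [p.trL_rtr]

lemma Pivotal.dm_dual (hs : p.IsSpherical) (X : C) : p.dm (Xᘁ : C) = p.dm X := by
  unfold Pivotal.dm
  rw [Pivotal.tr_apply, Pivotal.tr_apply, p.trL_id, p.trL_id, ← hs]

end mon

end Run7.h292
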