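import Pool.Agent.Run7.h292.Twist2

/-!
Traces of the twist and of its square on induced objects.
-/

set_option autoImplicit false
set_option linter.unusedSectionVars false

open CategoryTheory CategoryTheory.Limits MonoidalCategory ExactPairing
open Pool.Agent.Helper781.Fusion (Dec IsSimpleList exists_scalar finrank_simple hom_zero sum_dec)

namespace Run7.h292

universe v u

section

variable {C : Type u} [Category.{v} C] [Abelian C] [Linear ℂ C]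
  [MonoidalCategory C] [MonoidalPreadditive C] [MonoidalLinear ℂ C] [RigidCategory C]
  [hfd : ∀ X Y : C, FiniteDimensional ℂ (X ⟶ Y)] [Simple (𝟙_ C)] (p : Pivotal C)
variable {n : ℕ} {S : Fin n → C} (hS : IsSimples S) (dec : ∀ Z, Dec S Z) {o : Fin n}
  (uo : S o ≅ 𝟙_ C)

include hS in
lemma eta_twX (X : C) : eta dec X ≫ twX p S dec X = p.ltr X (jj dec X X) := by
  have h := comp_tw p (Ind hS dec X) (eta dec X)
  rw [← eta_bt hS dec X X]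
  exact h

include hS in
lemma eta_twX_pi (X : C) :
    eta dec X ≫ twX p S dec X ≫ pi' dec uo X = p.ltr X (aU dec uo X X) := by
  rw [← Category.assoc, eta_twX p hS, ← p.ltr_post, jj_pi hS]

include hS in
lemma eta_twX2 (X : C) : eta dec X ≫ twX p S dec X ≫ twX p S dec X =
    p.ltr X (p.ltr X (jj dec X (X ⊗ X) ≫ (α_ _ _ _).hom)) := by
  have h := comp_tw p (Ind hS dec X) (eta dec X ≫ twX p S dec X)
  have h' : (eta dec X ≫ twX p S dec X) ≫ twX p S dec X =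
    p.ltr X ((eta dec X ≫ twX p S dec X) ▷ X ≫ bt dec X X) := h
  rw [← Category.assoc, h', eta_twX p hS, ← p.ltr_whisker, ← p.ltr_post]
  congr 2
  simp only [Category.assoc]
  rw [jj_bt hS, Iso.inv_hom_id_assoc]

include hS in
lemma eta_twX2_pi (X : C) : eta dec X ≫ twX p S dec X ≫ twX p S dec X ≫ pi' dec uo X =
    p.ltr X (p.ltr X (aU dec uo X (X ⊗ X) ≫ (α_ _ _ _).hom)) := by
  have h : eta dec X ≫ twX p S dec X ≫ twX p S dec X ≫ pi' dec uo X =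
    (eta dec X ≫ twX p S dec X ≫ twX p S dec X) ≫ pi' dec uo X := by
    simp only [Category.assoc]
  rw [h, eta_twX2 p hS, ← p.ltr_post, ← p.ltr_post, ← jj_pi hS]
  congr 2
  simp

include hS in
lemma tr_aU (k : Fin n) : p.tr (S k) (p.ltr (S k) (aU dec uo (S k) (S k))) =
    if k = o then 1 else 0 := by
  have h1 : aU dec uo (S k) (S k) = aa uo (S k) k := ext_simple hS dec _ k
  rw [← p.tr_ltr, h1]
  split_ifs with hk
  · subst hk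
    unfold aa
    rw [vk_o, wk_o]
    have h2 : S k ◁ uo.hom ≫ (ρ_ (S k)).hom ≫ (λ_ (S k)).inv ≫ uo.inv ▷ S k =
        (S k ◁ uo.hom ≫ (ρ_ (S k)).hom) ≫ ((λ_ (S k)).inv ≫ uo.inv ▷ S k) := by
      simp only [Category.assoc]
    rw [h2, p.tr_comm]
    have h3 : ((λ_ (S k)).inv ≫ uo.inv ▷ S k) ≫ S k ◁ uo.hom ≫ (ρ_ (S k)).hom = 𝟙 _ := by
      calc
        _ = 𝟙 _ ⊗≫ (uo.inv ▷ S k ≫ S k ◁ uo.hom) ⊗≫ 𝟙 _ := by monoidal
        _ = 𝟙 _ ⊗≫ (uo.hom ≫ uo.inv) ⊗≫ 𝟙 _ := by rw [← whisker_exchange]; monoidal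
        _ = _ := by rw [Iso.hom_inv_id]; monoidal
    rw [h3]
    exact p.dm_of_iso_unit uo
  · unfold aa vk
    rw [dif_neg hk]
    simp

/-- the rotation of a copairing and a pairing -/
noncomputable def rot {X : C} (g : 𝟙_ C ⟶ X ⊗ X) (f : X ⊗ X ⟶ 𝟙_ C) : X ⟶ X :=
  (λ_ X).inv ≫ g ▷ X ≫ (α_ X X X).hom ≫ X ◁ f ≫ (ρ_ X).hom

lemma tr_aU2 (X : C) : p.tr X (p.ltr X (p.ltr X (aU dec uo X (X ⊗ X) ≫ (α_ _ _ _).hom))) =
    ∑ b, p.tr X (rot (wk uo _ ≫ (dec (X ⊗ X)).inc b) ((dec (X ⊗ X)).prj b ≫ vk uo _)) := by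
  rw [← p.tr_ltr, ← p.tr_ltr, aU_eq, Preadditive.sum_comp, map_sum]
  refine Finset.sum_congr rfl fun b _ => ?_
  have h2 : (X ◁ ((dec (X ⊗ X)).prj b ≫ vk uo _) ≫ (ρ_ X).hom ≫ (λ_ X).inv ≫
      (wk uo _ ≫ (dec (X ⊗ X)).inc b) ▷ X) ≫ (α_ X X X).hom =
      (X ◁ ((dec (X ⊗ X)).prj b ≫ vk uo _) ≫ (ρ_ X).hom) ≫ ((λ_ X).inv ≫
      (wk uo _ ≫ (dec (X ⊗ X)).inc b) ▷ X ≫ (α_ X X X).hom) := by
    simp only [Category.assoc]
  rw [h2, p.tr_comm]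
  congr 1
  unfold rot
  simp only [Category.assoc]

/-! ### duals of simple objects -/

lemma end_dual (X : C) [Simple X] (f : (Xᘁ : C) ⟶ (Xᘁ : C)) : ∃ c : ℂ, f = c • 𝟙 _ := by
  obtain ⟨c, hc⟩ := ev_multiple X (f ▷ X ≫ ε_ X (Xᘁ : C))
  refine ⟨c, ev_inj (Y := X) (Y' := (Xᘁ : C)) ?_⟩
  rw [hc, MonoidalLinear.smul_whiskerRight, id_whiskerRight, Linear.smul_comp, Category.id_comp]

include dec in
/-- an object whose endomorphisms are scalars is one of the simple objects -/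
lemma exists_iso_of_end {Z : C} (hZ : 𝟙 Z ≠ 0) (h : ∀ f : Z ⟶ Z, ∃ c : ℂ, f = c • 𝟙 Z) :
    ∃ k, Nonempty (Z ≅ S k) := by
  have h1 : ∃ b, (dec Z).prj b ≫ (dec Z).inc b ≠ 0 := by
    by_contra hcon
    push Not at hcon
    apply hZ
    rw [← (dec Z).sum]
    exact Finset.sum_eq_zero fun b _ => hcon b
  obtain ⟨b, hb⟩ := h1
  obtain ⟨c, hc⟩ := h ((dec Z).prj b ≫ (dec Z).inc b)
  have hc0 : c ≠ 0 := by
    rintro rfl
    apply hb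
    rw [hc, zero_smul]
  have h2 : (dec Z).inc b ≫ (dec Z).prj b = 𝟙 _ := (dec Z).same b
  have h3 : c • ((dec Z).prj b ≫ (dec Z).inc b) = (dec Z).prj b ≫ (dec Z).inc b := by
    have : ((dec Z).prj b ≫ (dec Z).inc b) ≫ ((dec Z).prj b ≫ (dec Z).inc b) =
        (dec Z).prj b ≫ (dec Z).inc b := by
      rw [Category.assoc, ← Category.assoc ((dec Z).inc b), h2, Category.id_comp]
    conv_rhs => rw [← this]
    conv_rhs => rw [hc]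
    conv_lhs => rw [hc]
    simp
  refine ⟨(dec Z).idx b, ⟨⟨(dec Z).prj b, (dec Z).inc b, ?_, h2⟩⟩⟩
  have h4 : (c - 1) • ((dec Z).prj b ≫ (dec Z).inc b) = 0 := by
    rw [sub_smul, one_smul, h3, sub_self]
  have h5 := (smul_eq_zero.mp h4).resolve_right hb
  have h6 : c = 1 := by linear_combination h5
  rw [hc, h6, one_smul]

include dec in
/-- the dual of a simple object is one of the simple objects -/
lemma exists_dual_iso (X : C) [Simple X] : ∃ k, Nonempty ((Xᘁ : C) ≅ S k) := by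
  refine exists_iso_of_end dec ?_ (end_dual X)
  intro h
  apply id_nonzero X
  have h2 : 𝟙 X = 𝟙 _ ⊗≫ (η_ X (Xᘁ : C) ▷ X ⊗≫ X ◁ (𝟙 (Xᘁ : C) ▷ X ≫ ε_ X (Xᘁ : C))) ⊗≫ 𝟙 _ := by
    rw [id_whiskerRight, Category.id_comp, evaluation_coevaluation'']; monoidal
  rw [h2, h]
  simp [monoidalComp]

include hS dec in
lemma simple_dual (X : C) [Simple X] : Simple (Xᘁ : C) := by
  obtain ⟨k, ⟨e⟩⟩ := exists_dual_iso dec X
  have := hS.simple k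
  exact Simple.of_iso e

/-- between isomorphic simple objects all morphisms are proportional -/
lemma prop_of_iso {X Y : C} [Simple X] (e : X ≅ Y) (f : X ⟶ Y) : ∃ c : ℂ, f = c • e.hom := by
  refine ⟨sc X (f ≫ e.inv), ?_⟩
  have h := sc_spec (f ≫ e.inv)
  rw [← cancel_mono e.inv, Linear.smul_comp, e.hom_inv_id]
  exact h

lemma exists_ev_form {X : C} (f : X ⊗ X ⟶ 𝟙_ C) : ∃ δ : X ⟶ (Xᘁ : C),
    f = δ ▷ X ≫ ε_ X (Xᘁ : C) := by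
  refine ⟨𝟙 _ ⊗≫ X ◁ η_ X (Xᘁ : C) ⊗≫ f ▷ (Xᘁ : C) ⊗≫ 𝟙 _, ?_⟩
  symm
  calc
    _ = 𝟙 _ ⊗≫ X ◁ η_ X (Xᘁ : C) ▷ X ⊗≫ (f ▷ ((Xᘁ : C) ⊗ X) ≫ (𝟙_ C) ◁ ε_ X (Xᘁ : C)) ⊗≫ 𝟙 _ := by
      monoidal
    _ = 𝟙 _ ⊗≫ X ◁ (η_ X (Xᘁ : C) ▷ X ⊗≫ X ◁ ε_ X (Xᘁ : C)) ⊗≫ f := by
      rw [← whisker_exchange]; monoidal
    _ = _ := by rw [evaluation_coevaluation'']; monoidal

lemma exists_coev_form {X : C} (g : 𝟙_ C ⟶ X ⊗ X) : ∃ γ : (Xᘁ : C) ⟶ X,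
    g = η_ X (Xᘁ : C) ≫ X ◁ γ := by
  refine ⟨𝟙 _ ⊗≫ (Xᘁ : C) ◁ g ⊗≫ ε_ X (Xᘁ : C) ▷ X ⊗≫ 𝟙 _, ?_⟩
  symm
  calc
    _ = 𝟙 _ ⊗≫ (η_ X (Xᘁ : C) ▷ (𝟙_ C) ≫ (X ⊗ (Xᘁ : C)) ◁ g) ⊗≫ X ◁ ε_ X (Xᘁ : C) ▷ X ⊗≫ 𝟙 _ := by
      monoidal
    _ = g ⊗≫ (η_ X (Xᘁ : C) ▷ X ⊗≫ X ◁ ε_ X (Xᘁ : C)) ▷ X ⊗≫ 𝟙 _ := by
      rw [← whisker_exchange]; monoidal
    _ = _ := by rw [evaluation_coevaluation'']; monoidal

lemma mate_smul {X Y : C} (c : ℂ) (f : X ⟶ Y) :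
    rightAdjointMate (c • f) = c • rightAdjointMate f := by
  unfold rightAdjointMate
  simp

include hS dec in
/-- the second Frobenius-Schur indicator is `±1` -/
lemma rot_sq (X : C) [Simple X] (g : 𝟙_ C ⟶ X ⊗ X) (f : X ⊗ X ⟶ 𝟙_ C) (h : g ≫ f = 𝟙 _) :
    p.tr X (rot g f) = 1 ∨ p.tr X (rot g f) = -1 := by
  obtain ⟨δ, hδ⟩ := exists_ev_form f
  obtain ⟨γ, hγ⟩ := exists_coev_form g
  have hX' := simple_dual hS dec X
  have hδ0 : δ ≠ 0 := by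
    rintro rfl
    rw [hδ] at h
    simp at h
    exact id_nonzero (𝟙_ C) h.symm
  have hδi : IsIso δ := isIso_of_hom_simple hδ0
  obtain ⟨c, hc⟩ := end_dual X (γ ≫ δ)
  have hrot : rot g f = c • 𝟙 X := by
    rw [hδ, hγ]
    unfold rot
    calc
      _ = 𝟙 _ ⊗≫ η_ X (Xᘁ : C) ▷ X ⊗≫ X ◁ (γ ≫ δ) ▷ X ⊗≫ X ◁ ε_ X (Xᘁ : C) ⊗≫ 𝟙 _ := by
        monoidal
      _ = c • (𝟙 _ ⊗≫ (η_ X (Xᘁ : C) ▷ X ⊗≫ X ◁ ε_ X (Xᘁ : C)) ⊗≫ 𝟙 _) := by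
        rw [hc]
        simp [monoidalComp]
      _ = _ := by rw [evaluation_coevaluation'']; simp [monoidalComp]
  have htr : p.tr X (rot g f) = c * p.dm X := by
    rw [hrot, map_smul]
    rfl
  obtain ⟨κ, hκ⟩ := prop_of_iso ((asIso δ).trans ((asIso δ).symm.trans (p.iso X)))
    ((p.iso X).hom ≫ (δᘁ) ≫ γ ≫ (p.iso X).hom)
  have hκ' : (p.iso X).hom ≫ (δᘁ) ≫ γ = κ • 𝟙 X := by
    rw [← cancel_mono (p.iso X).hom]
    simp only [Category.assoc, Linear.smul_comp, Category.id_comp]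
    rw [hκ]
    simp
  have hgf : κ * p.dm X = 1 := by
    have h1 : g ≫ f = κ • (p.co' X ≫ ε_ X (Xᘁ : C)) := by
      have e1 : g ≫ f = (η_ X (Xᘁ : C) ≫ δ ▷ (Xᘁ : C)) ≫ (Xᘁ : C) ◁ γ ≫ ε_ X (Xᘁ : C) := by
        rw [hδ, hγ]
        simp only [Category.assoc]
        rw [whisker_exchange_assoc]
      rw [e1, ← coevaluation_comp_rightAdjointMate]
      have e2 : δᘁ ≫ γ = κ • (p.iso X).inv := by
        rw [← cancel_epi (p.iso X).hom, hκ', Linear.comp_smul, Iso.hom_inv_id]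
      have e3 : (η_ (Xᘁ : C) ((Xᘁ)ᘁ : C) ≫ (Xᘁ : C) ◁ (δᘁ)) ≫ (Xᘁ : C) ◁ γ ≫ ε_ X (Xᘁ : C) =
          η_ (Xᘁ : C) ((Xᘁ)ᘁ : C) ≫ (Xᘁ : C) ◁ (δᘁ ≫ γ) ≫ ε_ X (Xᘁ : C) := by
        simp
      rw [e3, e2]
      unfold Pivotal.co'
      simp
    have h2 : p.co' X ≫ ε_ X (Xᘁ : C) = p.dm X • 𝟙 (𝟙_ C) := by
      have := p.trL_eq_smul (𝟙 X)
      unfold Pivotal.trL at this
      rw [MonoidalCategory.whiskerLeft_id, Category.id_comp] at this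
      exact this
    rw [h1, h2, smul_smul] at h
    have h3 : (κ * p.dm X - 1) • 𝟙 (𝟙_ C) = 0 := by
      rw [sub_smul, h, one_smul, sub_self]
    have h4 := (smul_eq_zero.mp h3).resolve_right (id_nonzero (𝟙_ C))
    linear_combination h4
  -- relation (*)
  have s1 : c • ((p.iso X).hom ≫ (δᘁ)) = κ • δ := by
    have e1 : ((p.iso X).hom ≫ (δᘁ) ≫ γ) ≫ δ = κ • δ := by rw [hκ']; simp
    rw [← e1]
    simp only [Category.assoc]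
    rw [hc]
    simp
  have s2 : c • δ = κ • ((p.iso X).hom ≫ (δᘁ)) := by
    have e1 := congrArg (fun z => rightAdjointMate z) s1
    simp only [mate_smul, comp_rightAdjointMate] at e1
    rw [← Linear.comp_smul, ← e1, Linear.comp_smul, ← Category.assoc, ← p.naturality,
      Category.assoc, p.iso_dual, Category.comp_id]
  have s3 : (c * c - κ * κ) • δ = 0 := by
    rw [sub_smul, ← smul_smul, ← smul_smul, s2, ← s1, smul_comm, sub_self]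
  have s4 := (smul_eq_zero.mp s3).resolve_right hδ0
  rw [htr]
  refine mul_self_eq_one_iff.mp ?_
  have s5 : c * c = κ * κ := by linear_combination s4
  calc
    _ = (c * c) * (p.dm X * p.dm X) := by ring
    _ = (κ * p.dm X) * (κ * p.dm X) := by rw [s5]; ring
    _ = 1 := by rw [hgf, one_mul]

/-- for the unit object the indicator is one -/
lemma rot_unit {X : C} (u : X ≅ 𝟙_ C) (g : 𝟙_ C ⟶ X ⊗ X) (f : X ⊗ X ⟶ 𝟙_ C) (h : g ≫ f = 𝟙 _) :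
    p.tr X (rot g f) = 1 := by
  have hf := sc_spec ((λ_ (𝟙_ C)).inv ≫ (u.inv ⊗ₘ u.inv) ≫ f)
  have hg := sc_spec (g ≫ (u.hom ⊗ₘ u.hom) ≫ (λ_ (𝟙_ C)).hom)
  set a := sc _ ((λ_ (𝟙_ C)).inv ≫ (u.inv ⊗ₘ u.inv) ≫ f)
  set b := sc _ (g ≫ (u.hom ⊗ₘ u.hom) ≫ (λ_ (𝟙_ C)).hom)
  have hf' : f = a • ((u.hom ⊗ₘ u.hom) ≫ (λ_ (𝟙_ C)).hom) := by
    rw [← cancel_epi (u.inv ⊗ₘ u.inv), ← cancel_epi (λ_ (𝟙_ C)).inv, hf]
    simp
  have hg' : g = b • ((λ_ (𝟙_ C)).inv ≫ (u.inv ⊗ₘ u.inv)) := by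
    rw [← cancel_mono (u.hom ⊗ₘ u.hom), ← cancel_mono (λ_ (𝟙_ C)).hom, Category.assoc, hg]
    simp
  have hab : a * b = 1 := by
    rw [hf', hg'] at h
    simp only [Linear.comp_smul, Linear.smul_comp, Category.assoc] at h
    have e1 : (λ_ (𝟙_ C)).inv ≫ (u.inv ⊗ₘ u.inv) ≫ (u.hom ⊗ₘ u.hom) ≫ (λ_ (𝟙_ C)).hom = 𝟙 _ := by
      simp
    rw [e1, smul_smul] at h
    have h3 : (a * b - 1) • 𝟙 (𝟙_ C) = 0 := by
      rw [sub_smul, h, one_smul, sub_self]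
    have h4 := (smul_eq_zero.mp h3).resolve_right (id_nonzero (𝟙_ C))
    linear_combination h4
  have hrot : rot g f = (a * b) • 𝟙 X := by
    rw [hf', hg']
    unfold rot
    simp only [MonoidalLinear.smul_whiskerRight, MonoidalLinear.whiskerLeft_smul,
      Linear.comp_smul, Linear.smul_comp, smul_smul]
    congr 1
    calc
      _ = 𝟙 _ ⊗≫ u.inv ▷ (𝟙_ C) ▷ X ⊗≫ X ◁ (u.inv ▷ X ≫ u.hom ▷ X) ⊗≫ X ◁ (𝟙_ C) ◁ u.hom ⊗≫
          𝟙 _ := by rw [MonoidalCategory.tensorHom_def, MonoidalCategory.tensorHom_def]; monoidal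
      _ = 𝟙 _ ⊗≫ (u.inv ▷ X ≫ X ◁ u.hom) ⊗≫ 𝟙 _ := by
        rw [← comp_whiskerRight, Iso.inv_hom_id]; monoidal
      _ = 𝟙 _ ⊗≫ (u.hom ≫ u.inv) ⊗≫ 𝟙 _ := by rw [← whisker_exchange]; monoidal
      _ = _ := by rw [Iso.hom_inv_id]; monoidal
  rw [hrot, hab, one_smul]
  exact p.dm_of_iso_unit u

end

end Run7.h292
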