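import Pool.Agent.Run7.h292.Tw3

/-!
Traces of the twist and of its square on induced objects, conclusion.
-/

set_option autoImplicit false
set_option linter.unusedSectionVars false

open CategoryTheory CategoryTheory.Limits MonoidalCategory ExactPairing
open Pool.Agent.Helper781.Fusion (Dec IsSimpleList exists_scalar finrank_simple hom_zero sum_dec)

namespace Run7.h292

universe v u

section

variable {C : Type u} [Category.{v} C] [Abelian C] [Linear ℂ C]
  [MonoidalCategory C] [MonoidalPreadditive C] [MonoidalLinear ℂ C] [RigidCategory C]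
  [hfd : ∀ X Y : C, FiniteDimensional ℂ (X ⟶ Y)] [Simple (𝟙_ C)] (p : Pivotal C)
variable {n : ℕ} {S : Fin n → C} (hS : IsSimples S) (dec : ∀ Z, Dec S Z) {o : Fin n}
  (uo : S o ≅ 𝟙_ C)

lemma wk_vk (k : Fin n) (h : k = o) : wk uo k ≫ vk uo k = 𝟙 (𝟙_ C) := by
  subst h
  rw [vk_o, wk_o, Iso.inv_hom_id]

lemma vk_zero (k : Fin n) (h : k ≠ o) : vk uo k = 0 := by
  unfold vk
  rw [dif_neg h]

include hS dec in
/-- the term sum has at most one nonzero summand -/
lemma sum_rot (X : C) [Simple X] : (∃ b, (dec (X ⊗ X)).idx b = o ∧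
    (∑ b, p.tr X (rot (wk uo _ ≫ (dec (X ⊗ X)).inc b) ((dec (X ⊗ X)).prj b ≫ vk uo _))) =
      p.tr X (rot (wk uo _ ≫ (dec (X ⊗ X)).inc b) ((dec (X ⊗ X)).prj b ≫ vk uo _))) ∨
    ((∀ b, (dec (X ⊗ X)).idx b ≠ o) ∧
    (∑ b, p.tr X (rot (wk uo _ ≫ (dec (X ⊗ X)).inc b) ((dec (X ⊗ X)).prj b ≫ vk uo _))) = 0) := by
  have hzero : ∀ b, (dec (X ⊗ X)).idx b ≠ o →
      p.tr X (rot (wk uo _ ≫ (dec (X ⊗ X)).inc b) ((dec (X ⊗ X)).prj b ≫ vk uo _)) = 0 := by
    intro b hb
    rw [vk_zero uo _ hb]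
    unfold rot
    simp
  by_cases h : ∃ b, (dec (X ⊗ X)).idx b = o
  · left
    obtain ⟨b, hb⟩ := h
    refine ⟨b, hb, Finset.sum_eq_single b (fun b' _ hb' => ?_) (fun h => absurd (Finset.mem_univ _) h)⟩
    by_cases hb'o : (dec (X ⊗ X)).idx b' = o
    · exfalso
      have h1 : (wk uo _ ≫ (dec (X ⊗ X)).inc b) ≫ ((dec (X ⊗ X)).prj b ≫ vk uo _) = 𝟙 _ := by
        rw [Category.assoc, ← Category.assoc ((dec (X ⊗ X)).inc b), (dec (X ⊗ X)).same,
          Category.id_comp, wk_vk uo _ hb]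
      have h2 : (wk uo _ ≫ (dec (X ⊗ X)).inc b') ≫ ((dec (X ⊗ X)).prj b' ≫ vk uo _) = 𝟙 _ := by
        rw [Category.assoc, ← Category.assoc ((dec (X ⊗ X)).inc b'), (dec (X ⊗ X)).same,
          Category.id_comp, wk_vk uo _ hb'o]
      have h3 : (wk uo _ ≫ (dec (X ⊗ X)).inc b') ≫ ((dec (X ⊗ X)).prj b ≫ vk uo _) = 0 := by
        rw [Category.assoc, ← Category.assoc ((dec (X ⊗ X)).inc b'), (dec (X ⊗ X)).diff _ _ hb',
          zero_comp, comp_zero]
      obtain ⟨δ, hδ⟩ := exists_ev_form ((dec (X ⊗ X)).prj b ≫ vk uo _)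
      obtain ⟨δ', hδ'⟩ := exists_ev_form ((dec (X ⊗ X)).prj b' ≫ vk uo _)
      have hX' := simple_dual hS dec X
      have hδ0 : δ ≠ 0 := by
        rintro rfl
        rw [hδ] at h1
        simp at h1
        exact id_nonzero (𝟙_ C) h1.symm
      have hδi : IsIso δ := isIso_of_hom_simple hδ0
      obtain ⟨c, hc⟩ := prop_of_iso (asIso δ) δ'
      have h4 : (dec (X ⊗ X)).prj b' ≫ vk uo _ = c • ((dec (X ⊗ X)).prj b ≫ vk uo _) := by
        rw [hδ, hδ', hc]
        simp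
      rw [h4, Linear.comp_smul, h3, smul_zero] at h2
      exact id_nonzero (𝟙_ C) h2.symm
    · exact hzero b' hb'o
  · right
    push Not at h
    exact ⟨h, Finset.sum_eq_zero fun b _ => hzero b (h b)⟩

include hS dec in
/-- the second Frobenius-Schur indicators -/
lemma exists_nu : ∃ ν : Fin n → ℤ, (∀ k, ν k = 0 ∨ ν k = 1 ∨ ν k = -1) ∧ ν o = 1 ∧
    ∀ k, p.tr (S k) (eta dec (S k) ≫ twX p S dec (S k) ≫ twX p S dec (S k) ≫ pi' dec uo (S k)) =
      ν k := by
  have key : ∀ k, ∃ ν : ℤ, (ν = 0 ∨ ν = 1 ∨ ν = -1) ∧ (k = o → ν = 1) ∧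
      p.tr (S k) (eta dec (S k) ≫ twX p S dec (S k) ≫ twX p S dec (S k) ≫ pi' dec uo (S k)) =
      ν := by
    intro k
    have := hS.simple k
    rw [eta_twX2_pi p hS, tr_aU2]
    rcases sum_rot p hS dec uo (S k) with ⟨b, hb, hsum⟩ | ⟨hno, hsum⟩
    · rw [hsum]
      have h1 : (wk uo _ ≫ (dec (S k ⊗ S k)).inc b) ≫ ((dec (S k ⊗ S k)).prj b ≫ vk uo _) =
          𝟙 _ := by
        rw [Category.assoc, ← Category.assoc ((dec (S k ⊗ S k)).inc b), (dec (S k ⊗ S k)).same,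
          Category.id_comp, wk_vk uo _ hb]
      by_cases hk : k = o
      · subst hk
        exact ⟨1, by simp, fun _ => rfl, by rw [rot_unit p uo _ _ h1]; simp⟩
      · rcases rot_sq p hS dec (S k) _ _ h1 with h | h
        · exact ⟨1, by simp, fun h => absurd h hk, by rw [h]; simp⟩
        · exact ⟨-1, by simp, fun h => absurd h hk, by rw [h]; simp⟩
    · refine ⟨0, by simp, fun hk => ?_, by rw [hsum]; simp⟩
      exfalso
      subst hk
      let f0 : S k ⊗ S k ⟶ 𝟙_ C := (uo.hom ⊗ₘ uo.hom) ≫ (λ_ (𝟙_ C)).hom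
      have h0 : f0 = 0 := by
        have : f0 = (∑ b, (dec (S k ⊗ S k)).prj b ≫ (dec (S k ⊗ S k)).inc b) ≫ f0 := by
          rw [(dec _).sum, Category.id_comp]
        rw [this, Preadditive.sum_comp]
        refine Finset.sum_eq_zero fun b _ => ?_
        have h2 := hom_zero hS.list (hno b) (((dec (S k ⊗ S k)).inc b ≫ f0) ≫ uo.inv)
        have h3 : (dec (S k ⊗ S k)).inc b ≫ f0 = 0 := by
          rw [← cancel_mono uo.inv, h2, zero_comp]
        rw [Category.assoc, h3, comp_zero]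
      have h1 : 𝟙 (𝟙_ C) = (λ_ (𝟙_ C)).inv ≫ (uo.inv ⊗ₘ uo.inv) ≫ f0 := by simp [f0]
      rw [h0] at h1
      simp at h1
      exact id_nonzero (𝟙_ C) h1
  choose ν h1 h2 h3 using key
  exact ⟨ν, h1, h2 o rfl, h3⟩

include hS dec in
lemma twX_comm (X U : C) : twX p S dec X ▷ U ≫ bt dec X U = bt dec X U ≫ U ◁ twX p S dec X :=
  tw_comm p hS dec (Ind hS dec X) U

include hS dec uo in
lemma tr_TX_id (hs : p.IsSpherical) (X : C) : p.tr (TX S X) (𝟙 _) = gd p S * p.dm X := by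
  rw [tr_formula p hS dec uo hs X (𝟙 _) (fun U => by simp), Category.id_comp, eta_pi hS]
  rfl

include hS dec uo in
lemma tr_TX_tw (hs : p.IsSpherical) (k : Fin n) : p.tr (TX S (S k)) (twX p S dec (S k)) =
    gd p S * if k = o then 1 else 0 := by
  rw [tr_formula p hS dec uo hs (S k) _ (fun U => twX_comm p hS dec (S k) U), eta_twX_pi p hS,
    tr_aU p hS]

include hS dec in
lemma tr_TX_tw2 (hs : p.IsSpherical) (k : Fin n) : p.tr (TX S (S k))
    (twX p S dec (S k) ≫ twX p S dec (S k)) = gd p S * p.tr (S k) (eta dec (S k) ≫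
      twX p S dec (S k) ≫ twX p S dec (S k) ≫ pi' dec uo (S k)) := by
  rw [tr_formula p hS dec uo hs (S k) _ (fun U => by
    rw [comp_whiskerRight, Category.assoc, twX_comm p hS, ← Category.assoc, twX_comm p hS,
      Category.assoc, ← MonoidalCategory.whiskerLeft_comp])]
  simp only [Category.assoc]

end

end Run7.h292
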