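import Pool.Agent.Run7.h292.Avg2

/-!
The twist on the centre.
-/

set_option autoImplicit false
set_option linter.unusedSectionVars false

open CategoryTheory CategoryTheory.Limits MonoidalCategory ExactPairing
open Pool.Agent.Helper781.Fusion (Dec IsSimpleList exists_scalar finrank_simple hom_zero sum_dec)

namespace Run7.h292

universe v u

section

variable {C : Type u} [Category.{v} C] [Abelian C] [Linear ℂ C]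
  [MonoidalCategory C] [MonoidalPreadditive C] [MonoidalLinear ℂ C] [RigidCategory C]
  [hfd : ∀ X Y : C, FiniteDimensional ℂ (X ⟶ Y)] [Simple (𝟙_ C)] (p : Pivotal C)
variable {n : ℕ} {S : Fin n → C} (hS : IsSimples S) (dec : ∀ Z, Dec S Z)

/-- the twist -/
noncomputable def tw (W : Center C) : W.1 ⟶ W.1 := p.ltr W.1 (W.2.β W.1).hom

lemma comp_tw (W : Center C) {X : C} (a : X ⟶ W.1) :
    a ≫ tw p W = p.ltr X (a ▷ X ≫ (W.2.β X).hom) := by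
  unfold tw
  rw [← p.ltr_pre, W.2.naturality, ← p.ltr_slide]

lemma tw_nat {W W' : Center C} (g : W ⟶ W') : g.f ≫ tw p W' = tw p W ≫ g.f := by
  rw [comp_tw, g.comm, p.ltr_post]
  rfl

lemma β_unit (W : Center C) : (W.2.β (𝟙_ C)).hom = (ρ_ W.1).hom ≫ (λ_ W.1).inv :=
  halfBraiding_unit W.2

lemma β_unit_inv (W : Center C) : (W.2.β (𝟙_ C)).inv = (λ_ W.1).hom ≫ (ρ_ W.1).inv := by
  rw [← cancel_epi (W.2.β (𝟙_ C)).hom, Iso.hom_inv_id, β_unit]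
  simp

lemma β_tensor_inv (W : Center C) (V U : C) :
    (W.2.β (V ⊗ U)).inv = (α_ _ _ _).hom ≫ V ◁ (W.2.β U).inv ≫ (α_ _ _ _).inv ≫
      (W.2.β V).inv ▷ U ≫ (α_ _ _ _).hom := by
  rw [← cancel_epi (W.2.β (V ⊗ U)).hom, Iso.hom_inv_id, W.2.monoidal]
  simp

/-- (L7') a loop in `C` passes under a strand of the centre -/
lemma loop_under (W : Center C) {V A B : C} (h : V ⊗ B ⟶ V ⊗ A) :
    p.ltr V ((α_ _ _ _).inv ≫ (W.2.β V).inv ▷ B ≫ (α_ _ _ _).hom ≫ W.1 ◁ h ≫ (α_ _ _ _).inv ≫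
      (W.2.β V).hom ▷ A ≫ (α_ _ _ _).hom) = W.1 ◁ p.ltr V h := by
  have e1 : p.co' V ▷ W.1 ≫ (α_ _ _ _).hom ≫ (Vᘁ : C) ◁ (W.2.β V).inv ≫ (α_ _ _ _).inv ≫
      (W.2.β (Vᘁ : C)).inv ▷ V ≫ (α_ _ _ _).hom = (λ_ _).hom ≫ (ρ_ _).inv ≫ W.1 ◁ p.co' V := by
    rw [← β_tensor_inv, β_inv_nat, β_unit_inv, Category.assoc]
  have e2 : (α_ _ _ _).inv ≫ (W.2.β (Vᘁ : C)).hom ▷ V ≫ (α_ _ _ _).hom ≫
      (Vᘁ : C) ◁ (W.2.β V).hom ≫ (α_ _ _ _).inv ≫ ε_ V (Vᘁ : C) ▷ W.1 =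
      W.1 ◁ ε_ V (Vᘁ : C) ≫ (ρ_ _).hom ≫ (λ_ _).inv := by
    have h1 := W.2.naturality (ε_ V (Vᘁ : C))
    rw [W.2.monoidal, β_unit] at h1
    simp only [Category.assoc] at h1
    exact h1.symm
  rw [p.ltr_eq, p.ltr_eq]
  calc
    _ = 𝟙 _ ⊗≫ p.co' V ▷ W.1 ▷ B ⊗≫ (Vᘁ : C) ◁ (W.2.β V).inv ▷ B ⊗≫
        ((W.2.β (Vᘁ : C)).inv ≫ (W.2.β (Vᘁ : C)).hom) ▷ (V ⊗ B) ⊗≫
        ((Vᘁ : C) ⊗ W.1) ◁ h ⊗≫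
        (Vᘁ : C) ◁ (W.2.β V).hom ▷ A ⊗≫ ε_ V (Vᘁ : C) ▷ W.1 ▷ A ⊗≫ 𝟙 _ := by
      rw [Iso.inv_hom_id]; monoidal
    _ = 𝟙 _ ⊗≫ (p.co' V ▷ W.1 ≫ (α_ _ _ _).hom ≫ (Vᘁ : C) ◁ (W.2.β V).inv ≫ (α_ _ _ _).inv ≫
      (W.2.β (Vᘁ : C)).inv ▷ V ≫ (α_ _ _ _).hom) ▷ B ⊗≫
        ((W.2.β (Vᘁ : C)).hom ▷ (V ⊗ B) ≫ ((Vᘁ : C) ⊗ W.1) ◁ h) ⊗≫
        (Vᘁ : C) ◁ (W.2.β V).hom ▷ A ⊗≫ ε_ V (Vᘁ : C) ▷ W.1 ▷ A ⊗≫ 𝟙 _ := by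
      monoidal
    _ = 𝟙 _ ⊗≫ ((λ_ _).hom ≫ (ρ_ _).inv ≫ W.1 ◁ p.co' V) ▷ B ⊗≫
        (W.1 ⊗ (Vᘁ : C)) ◁ h ⊗≫ ((α_ _ _ _).inv ≫ (W.2.β (Vᘁ : C)).hom ▷ V ≫ (α_ _ _ _).hom ≫
      (Vᘁ : C) ◁ (W.2.β V).hom ≫ (α_ _ _ _).inv ≫ ε_ V (Vᘁ : C) ▷ W.1) ▷ A ⊗≫ 𝟙 _ := by
      rw [e1, ← whisker_exchange]; monoidal
    _ = _ := by
      rw [e2]; monoidal

include hS dec in
/-- (L7) a loop of the centre passes over a strand of `C` -/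
lemma loop_over (W : Center C) {U A B : C} (f : W.1 ⊗ A ⟶ W.1 ⊗ B) :
    p.ltr W.1 ((α_ _ _ _).inv ≫ (W.2.β U).hom ▷ A ≫ (α_ _ _ _).hom ≫ U ◁ f ≫ (α_ _ _ _).inv ≫
      (W.2.β U).inv ▷ B ≫ (α_ _ _ _).hom) = U ◁ p.ltr W.1 f := by
  rw [← sub_eq_zero]
  refine p.tr_nondeg hS dec _ fun h => ?_
  rw [Preadditive.sub_comp, map_sub, sub_eq_zero]
  have e1 : p.tr _ (p.ltr W.1 ((α_ _ _ _).inv ≫ (W.2.β U).hom ▷ A ≫ (α_ _ _ _).hom ≫ U ◁ f ≫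
      (α_ _ _ _).inv ≫ (W.2.β U).inv ▷ B ≫ (α_ _ _ _).hom) ≫ h) =
      p.tr _ (p.ltr W.1 f ≫ p.ltr U h) := by
    rw [← p.ltr_post, ← p.tr_ltr]
    have e2 : ((α_ _ _ _).inv ≫ (W.2.β U).hom ▷ A ≫ (α_ _ _ _).hom ≫ U ◁ f ≫
      (α_ _ _ _).inv ≫ (W.2.β U).inv ▷ B ≫ (α_ _ _ _).hom) ≫ W.1 ◁ h =
      ((α_ _ _ _).inv ≫ (W.2.β U).hom ▷ A ≫ (α_ _ _ _).hom) ≫ (U ◁ f ≫
      (α_ _ _ _).inv ≫ (W.2.β U).inv ▷ B ≫ (α_ _ _ _).hom ≫ W.1 ◁ h) := by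
      simp only [Category.assoc]
    rw [e2, p.tr_comm, p.tr_ltr]
    have e3 : (U ◁ f ≫ (α_ _ _ _).inv ≫ (W.2.β U).inv ▷ B ≫ (α_ _ _ _).hom ≫ W.1 ◁ h) ≫
      (α_ _ _ _).inv ≫ (W.2.β U).hom ▷ A ≫ (α_ _ _ _).hom = U ◁ f ≫
      ((α_ _ _ _).inv ≫ (W.2.β U).inv ▷ B ≫ (α_ _ _ _).hom ≫ W.1 ◁ h ≫
      (α_ _ _ _).inv ≫ (W.2.β U).hom ▷ A ≫ (α_ _ _ _).hom) := by
      simp only [Category.assoc]
    rw [e3, p.ltr_pre, loop_under, p.tr_ltr, p.ltr_post]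
  rw [e1, p.tr_ltr, p.ltr_pre]

include hS dec in
/-- the twist is a morphism of the centre -/
lemma tw_comm (W : Center C) (U : C) :
    tw p W ▷ U ≫ (W.2.β U).hom = (W.2.β U).hom ≫ U ◁ tw p W := by
  have h1 := W.2.naturality (W.2.β U).hom
  have h2 : (α_ _ _ _).inv ≫ (W.2.β W.1).hom ▷ U ≫ (α_ _ _ _).hom ≫ W.1 ◁ (W.2.β U).hom =
      W.1 ◁ (W.2.β U).hom ≫ ((α_ _ _ _).inv ≫ (W.2.β U).hom ▷ W.1 ≫ (α_ _ _ _).hom ≫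
        U ◁ (W.2.β W.1).hom ≫ (α_ _ _ _).inv ≫ (W.2.β U).inv ▷ W.1 ≫ (α_ _ _ _).hom) := by
    rw [W.2.monoidal, W.2.monoidal] at h1
    have h3 := congrArg (fun z => z ≫ (W.2.β U).inv ▷ W.1 ≫ (α_ _ _ _).hom) h1
    simp only [Category.assoc] at h3
    rw [← comp_whiskerRight_assoc, Iso.hom_inv_id] at h3
    simp at h3
    rw [h3]
  unfold tw
  rw [← p.ltr_whisker, ← p.ltr_post]
  simp only [Category.assoc]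
  rw [h2, p.ltr_pre, loop_over p hS dec]

end

end Run7.h292
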