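import Pool.Agent.Run7.h292.Twist
import Mathlib.LinearAlgebra.Eigenspace.Minpoly

/-!
The twist on the centre: ribbon property, invertibility, finiteness of the spectrum.
-/

set_option autoImplicit false
set_option linter.unusedSectionVars false

open CategoryTheory CategoryTheory.Limits MonoidalCategory ExactPairing
open Pool.Agent.Helper781.Fusion (Dec IsSimpleList exists_scalar finrank_simple hom_zero sum_dec)

namespace Run7.h292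

universe v u

section

variable {C : Type u} [Category.{v} C] [Abelian C] [Linear ℂ C]
  [MonoidalCategory C] [MonoidalPreadditive C] [MonoidalLinear ℂ C] [RigidCategory C]
  [hfd : ∀ X Y : C, FiniteDimensional ℂ (X ⟶ Y)] [Simple (𝟙_ C)] (p : Pivotal C)
variable {n : ℕ} {S : Fin n → C} (hS : IsSimples S) (dec : ∀ Z, Dec S Z)

/-- the ribbon property, expanded -/
lemma tw_tensor' (W W' : Center C) :
    tw p (W ⊗ W') = tw p W ▷ W'.1 ≫ (W.2.β W'.1).hom ≫ tw p W' ▷ W.1 ≫ (W'.2.β W.1).hom := by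
  have e0 : ∀ U : C, ((W ⊗ W').2.β U).hom = (α_ W.1 W'.1 U).hom ≫ W.1 ◁ (W'.2.β U).hom ≫
      (α_ _ _ _).inv ≫ (W.2.β U).hom ▷ W'.1 ≫ (α_ _ _ _).hom := fun U => by
    rw [Center.tensor_β]; simp
  have e1 : tw p (W ⊗ W') = p.ltr (W.1 ⊗ W'.1) (A := W.1 ⊗ W'.1) (B := W.1 ⊗ W'.1)
      ((α_ W.1 W'.1 _).hom ≫ W.1 ◁ (W'.2.β _).hom ≫
      (α_ _ _ _).inv ≫ (W.2.β _).hom ▷ W'.1 ≫ (α_ _ _ _).hom) := by
    rw [← e0]; rfl
  have e2 : ((α_ W.1 W'.1 (W.1 ⊗ W'.1)).inv ≫ ((α_ W.1 W'.1 _).hom ≫ W.1 ◁ (W'.2.β _).hom ≫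
      (α_ _ _ _).inv ≫ (W.2.β _).hom ▷ W'.1 ≫ (α_ _ _ _).hom) ≫ (α_ _ _ _).hom) =
      W.1 ◁ (W'.2.β (W.1 ⊗ W'.1)).hom ≫
        ((α_ _ _ _).inv ≫ ((α_ _ _ _).inv ≫ (W.2.β W.1).hom ▷ W'.1 ≫ (α_ _ _ _).hom) ▷ W'.1 ≫
          (α_ _ _ _).hom) ≫ W.1 ◁ ((W.2.β W'.1).hom ▷ W'.1 ≫ (α_ _ _ _).hom) := by
    rw [W.2.monoidal]
    monoidal
  rw [e1, p.ltr_tensor, e2, p.ltr_pre, p.ltr_post, p.ltr_whisker, p.ltr_whisker]
  have e3 : (W'.2.β (W.1 ⊗ W'.1)).hom ≫ p.ltr W.1 (W.2.β W.1).hom ▷ W'.1 ▷ W'.1 ≫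
      (W.2.β W'.1).hom ▷ W'.1 ≫ (α_ W'.1 W.1 W'.1).hom =
      W'.1 ◁ (tw p W ▷ W'.1 ≫ (W.2.β W'.1).hom) ≫
      ((α_ _ _ _).inv ≫ (W'.2.β W'.1).hom ▷ W.1 ≫ (α_ _ _ _).hom) ≫
        W'.1 ◁ (W'.2.β W.1).hom := by
    have h1 := W'.2.naturality (tw p W ▷ W'.1 ≫ (W.2.β W'.1).hom)
    rw [W'.2.monoidal W'.1 W.1] at h1
    have h2 := congrArg (fun z => z ≫ (α_ _ _ _).hom) h1
    simp only [Category.assoc, comp_whiskerRight] at h2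
    rw [Iso.inv_hom_id, Category.comp_id] at h2
    simp only [Category.assoc]
    exact h2.symm
  rw [e3, p.ltr_pre, p.ltr_post, p.ltr_whisker]
  simp only [Category.assoc]
  rfl

/-- the ribbon property -/
lemma tw_tensor (W W' : Center C) :
    tw p (W ⊗ W') = (tw p W ⊗ₘ tw p W') ≫ (W.2.β W'.1).hom ≫ (W'.2.β W.1).hom := by
  rw [tw_tensor', ← W.2.naturality_assoc, MonoidalCategory.tensorHom_def, Category.assoc]

lemma β_ev (W : Center C) (V : C) :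
    (α_ _ _ _).inv ≫ (W.2.β (Vᘁ : C)).hom ▷ V ≫ (α_ _ _ _).hom ≫
      (Vᘁ : C) ◁ (W.2.β V).hom ≫ (α_ _ _ _).inv ≫ ε_ V (Vᘁ : C) ▷ W.1 =
      W.1 ◁ ε_ V (Vᘁ : C) ≫ (ρ_ _).hom ≫ (λ_ _).inv := by
  have h1 := W.2.naturality (ε_ V (Vᘁ : C))
  rw [W.2.monoidal, β_unit] at h1
  simp only [Category.assoc] at h1
  exact h1.symm

/-- another formula for the twist -/
lemma tw_eq (W : Center C) : tw p W = 𝟙 _ ⊗≫ (p.co' W.1 ≫ (W.2.β (W.1ᘁ : C)).inv) ▷ W.1 ⊗≫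
    W.1 ◁ ε_ W.1 (W.1ᘁ : C) ⊗≫ 𝟙 _ := by
  unfold tw
  rw [p.ltr_eq]
  calc
    _ = 𝟙 _ ⊗≫ p.co' W.1 ▷ W.1 ⊗≫ ((W.2.β (W.1ᘁ : C)).inv ≫ (W.2.β (W.1ᘁ : C)).hom) ▷ W.1 ⊗≫
        (W.1ᘁ : C) ◁ (W.2.β W.1).hom ⊗≫ ε_ W.1 (W.1ᘁ : C) ▷ W.1 ⊗≫ 𝟙 _ := by
      rw [Iso.inv_hom_id]; monoidal
    _ = 𝟙 _ ⊗≫ (p.co' W.1 ≫ (W.2.β (W.1ᘁ : C)).inv) ▷ W.1 ⊗≫ ((α_ _ _ _).inv ≫
      (W.2.β (W.1ᘁ : C)).hom ▷ W.1 ≫ (α_ _ _ _).hom ≫
      (W.1ᘁ : C) ◁ (W.2.β W.1).hom ≫ (α_ _ _ _).inv ≫ ε_ W.1 (W.1ᘁ : C) ▷ W.1) ⊗≫ 𝟙 _ := by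
      monoidal
    _ = _ := by rw [β_ev]; monoidal

lemma eta_tw' (W : Center C) :
    η_ W.1 (W.1ᘁ : C) ≫ tw p W ▷ (W.1ᘁ : C) ≫ (W.2.β (W.1ᘁ : C)).hom = p.co' W.1 := by
  have h : η_ W.1 (W.1ᘁ : C) ≫ tw p W ▷ (W.1ᘁ : C) = p.co' W.1 ≫ (W.2.β (W.1ᘁ : C)).inv := by
    rw [tw_eq]
    calc
      _ = 𝟙 _ ⊗≫ (𝟙_ C ◁ η_ W.1 (W.1ᘁ : C) ≫ (p.co' W.1 ≫ (W.2.β (W.1ᘁ : C)).inv) ▷
          (W.1 ⊗ (W.1ᘁ : C))) ⊗≫ W.1 ◁ ε_ W.1 (W.1ᘁ : C) ▷ (W.1ᘁ : C) ⊗≫ 𝟙 _ := by monoidal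
      _ = (p.co' W.1 ≫ (W.2.β (W.1ᘁ : C)).inv) ⊗≫ W.1 ◁ ((W.1ᘁ : C) ◁ η_ W.1 (W.1ᘁ : C) ⊗≫
          ε_ W.1 (W.1ᘁ : C) ▷ (W.1ᘁ : C)) ⊗≫ 𝟙 _ := by
        rw [whisker_exchange]; monoidal
      _ = _ := by rw [coevaluation_evaluation'']; monoidal
  rw [← Category.assoc, h, Category.assoc, Iso.inv_hom_id, Category.comp_id]

/-- the inverse of the twist -/
noncomputable def twi (W : Center C) : W.1 ⟶ W.1 :=
  𝟙 _ ⊗≫ W.1 ◁ (η_ W.1 (W.1ᘁ : C) ≫ (W.2.β (W.1ᘁ : C)).hom) ⊗≫ p.ev' W.1 ▷ W.1 ⊗≫ 𝟙 _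

lemma co'_twi (W : Center C) : p.co' W.1 ≫ (W.1ᘁ : C) ◁ twi p W =
    η_ W.1 (W.1ᘁ : C) ≫ (W.2.β (W.1ᘁ : C)).hom := by
  unfold twi
  calc
    _ = 𝟙 _ ⊗≫ (p.co' W.1 ▷ 𝟙_ C ≫ ((W.1ᘁ : C) ⊗ W.1) ◁
      (η_ W.1 (W.1ᘁ : C) ≫ (W.2.β (W.1ᘁ : C)).hom)) ⊗≫ (W.1ᘁ : C) ◁ p.ev' W.1 ▷ W.1 ⊗≫ 𝟙 _ := by
      monoidal
    _ = (η_ W.1 (W.1ᘁ : C) ≫ (W.2.β (W.1ᘁ : C)).hom) ⊗≫
      (p.co' W.1 ▷ (W.1ᘁ : C) ⊗≫ (W.1ᘁ : C) ◁ p.ev' W.1) ▷ W.1 ⊗≫ 𝟙 _ := by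
      rw [← whisker_exchange]; monoidal
    _ = _ := by rw [p.zig2]; monoidal

lemma co'_inj {X Y : C} (f g : X ⟶ Y) (h : p.co' X ≫ (Xᘁ : C) ◁ f = p.co' X ≫ (Xᘁ : C) ◁ g) :
    f = g := by
  have key : ∀ f : X ⟶ Y, f = 𝟙 _ ⊗≫ X ◁ (p.co' X ≫ (Xᘁ : C) ◁ f) ⊗≫ p.ev' X ▷ Y ⊗≫ 𝟙 _ := by
    intro f
    symm
    calc
      _ = 𝟙 _ ⊗≫ X ◁ p.co' X ⊗≫ ((X ⊗ (Xᘁ : C)) ◁ f ≫ p.ev' X ▷ Y) ⊗≫ 𝟙 _ := by monoidal
      _ = 𝟙 _ ⊗≫ (X ◁ p.co' X ⊗≫ p.ev' X ▷ X) ⊗≫ f ⊗≫ 𝟙 _ := by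
        rw [whisker_exchange]; monoidal
      _ = _ := by rw [p.zig1]; monoidal
  rw [key f, key g, h]

include hS dec in
lemma twi_tw (W : Center C) : twi p W ≫ tw p W = 𝟙 _ := by
  apply co'_inj p
  rw [MonoidalCategory.whiskerLeft_comp, ← Category.assoc, co'_twi, Category.assoc,
    ← tw_comm p hS dec, eta_tw', MonoidalCategory.whiskerLeft_id, Category.comp_id]

include hS dec in
lemma tw_twi (W : Center C) : tw p W ≫ twi p W = 𝟙 _ := by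
  have h1 : Function.Surjective (post W.1 (tw p W)) := fun g => ⟨g ≫ twi p W, by
    rw [post_apply, Category.assoc, twi_tw p hS dec, Category.comp_id]⟩
  have h2 : Function.Injective (post W.1 (tw p W)) := LinearMap.injective_iff_surjective.mpr h1
  apply h2
  rw [post_apply, post_apply, Category.assoc, twi_tw p hS dec]
  simp

/-- the twist as a morphism of the centre -/
noncomputable def twC (W : Center C) : W ⟶ W := ⟨tw p W, fun U => tw_comm p hS dec W U⟩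

lemma twC_f (W : Center C) : (twC p hS dec W).f = tw p W := rfl

/-- the twist as an automorphism -/
noncomputable def twI (W : Center C) : W ≅ W :=
  have : IsIso (twC p hS dec W).f := ⟨twi p W, tw_twi p hS dec W, twi_tw p hS dec W⟩
  Center.isoMk (twC p hS dec W)

lemma twI_f (W : Center C) : (twI p hS dec W).hom.f = tw p W := rfl

lemma twI_nat {W W' : Center C} (f : W ⟶ W') :
    f ≫ (twI p hS dec W').hom = (twI p hS dec W).hom ≫ f := by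
  ext
  rw [Center.comp_f, Center.comp_f, twI_f, twI_f, tw_nat]

lemma twI_rib (W W' : Center C) : (twI p hS dec (W ⊗ W')).hom =
      ((twI p hS dec W).hom ⊗ₘ (twI p hS dec W').hom) ≫ (β_ W W').hom ≫ (β_ W' W).hom := by
  ext
  rw [Center.comp_f, Center.comp_f, Center.tensor_f, twI_f, twI_f, twI_f, tw_tensor]
  rfl

variable (S) in
/-- the twist of the induced object -/
noncomputable def twX (X : C) : TX S X ⟶ TX S X := p.ltr (TX S X) (bt dec X (TX S X))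

lemma tw_Ind (X : C) : tw p (Ind hS dec X) = twX p S dec X := rfl

include hS dec in
/-- the eigenvalues of the twist lie in a finite set -/
lemma exists_spec : ∃ T : Finset ℂ, ∀ (W : Center C) (G : C) (μ : ℂ),
      Module.End.HasEigenvalue (post G (tw p W)) μ → μ ∈ T := by
  classical
  let L : (k : Fin n) → Module.End ℂ (TX S (S k) ⟶ TX S (S k)) := fun k =>
    Linear.leftComp ℂ (TX S (S k)) (twX p S dec (S k))
  refine ⟨Finset.univ.biUnion fun k => (L k).finite_hasEigenvalue.toFinset, fun W G μ hμ => ?_⟩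
  obtain ⟨a, ha⟩ := hμ.exists_hasEigenvector
  have ha1 : a ≫ tw p W = μ • a := Module.End.mem_eigenspace_iff.mp ha.1
  have ha2 : a ≠ 0 := ha.2
  have h1 : ∃ b, (dec G).inc b ≫ a ≠ 0 := by
    by_contra hcon
    push Not at hcon
    apply ha2
    have : a = (∑ b, (dec G).prj b ≫ (dec G).inc b) ≫ a := by rw [(dec G).sum, Category.id_comp]
    rw [this, Preadditive.sum_comp]
    refine Finset.sum_eq_zero fun b _ => ?_
    rw [Category.assoc, hcon, comp_zero]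
  obtain ⟨b, hb⟩ := h1
  set k := (dec G).idx b with hk
  set a' := (dec G).inc b ≫ a with ha'
  have ha3 : a' ≫ tw p W = μ • a' := by rw [ha', Category.assoc, ha1, Linear.comp_smul]
  have hg : lift S W a' ≠ 0 := by
    intro h0
    apply hb
    rw [← eta_lift hS dec W a', h0, comp_zero]
  have h2 : twX p S dec (S k) ≫ lift S W a' = μ • lift S W a' := by
    have h3 := tw_nat p (liftC hS dec W a')
    have h3' : lift S W a' ≫ tw p W = twX p S dec (S k) ≫ lift S W a' := h3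
    have h4 := lift_unique' hS dec W (lift S W a' ≫ tw p W) (fun U => by
      rw [comp_whiskerRight, Category.assoc, tw_comm p hS dec, ← Category.assoc, lift_comm hS dec,
        Category.assoc, ← MonoidalCategory.whiskerLeft_comp])
    have h5 := lift_unique' hS dec W (μ • lift S W a') (fun U => by
      rw [MonoidalLinear.smul_whiskerRight, Linear.smul_comp, lift_comm hS dec,
        MonoidalLinear.whiskerLeft_smul, Linear.comp_smul])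
    rw [← h3', ← h4, ← h5, ← Category.assoc, eta_lift hS, ha3, Linear.comp_smul, eta_lift hS]
  obtain ⟨s, hs⟩ : ∃ s : W.1 ⟶ TX S (S k), lift S W a' ≫ s ≠ 0 := by
    by_contra hcon
    push Not at hcon
    exact hg (p.tr_nondeg hS dec _ fun s => by rw [hcon, map_zero])
  simp only [Finset.mem_biUnion, Finset.mem_univ, true_and, Set.Finite.mem_toFinset,
    Set.mem_ofPred_eq]
  refine ⟨k, Module.End.hasEigenvalue_of_hasEigenvector (x := lift S W a' ≫ s) ⟨?_, hs⟩⟩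
  rw [Module.End.mem_eigenspace_iff]
  change twX p S dec (S k) ≫ lift S W a' ≫ s = μ • (lift S W a' ≫ s)
  rw [← Category.assoc, h2, Linear.smul_comp]

end

end Run7.h292
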