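import Pool.Agent.Run7.h292.Vafa

/-!
Vafa's lemma, second part.
-/

set_option autoImplicit false
set_option linter.unusedSectionVars false

open CategoryTheory CategoryTheory.Limits MonoidalCategory ExactPairing

namespace Run7.h292

universe v u

section alg

variable {C : Type u} [Category.{v} C] [Abelian C] [Linear ℂ C]
  [MonoidalCategory C] [MonoidalPreadditive C] [MonoidalLinear ℂ C]

/-- `post` as an algebra morphism -/
noncomputable def postAlg (G X : C) : End X →ₐ[ℂ] Module.End ℂ (G ⟶ X) where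
  toFun f := post G f
  map_one' := post_id G X
  map_mul' f g := post_comp G g f
  map_zero' := by ext; simp
  map_add' f g := post_add G f g
  commutes' c := by
    ext a
    change a ≫ (c • 𝟙 X) = c • a
    simp

lemma postAlg_apply (G X : C) (f : X ⟶ X) : postAlg G X f = post G f := rfl

/-- endomorphisms of an object of the centre, as a subalgebra -/
def cenAlg (W : Center C) : Subalgebra ℂ (End W.1) where
  carrier := {f | ∀ U, (show W.1 ⟶ W.1 from f) ▷ U ≫ (W.2.β U).hom =
    (W.2.β U).hom ≫ U ◁ (show W.1 ⟶ W.1 from f)}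
  mul_mem' {f g} hf hg U := by
    change ((show W.1 ⟶ W.1 from g) ≫ (show W.1 ⟶ W.1 from f)) ▷ U ≫ _ =
      _ ≫ U ◁ ((show W.1 ⟶ W.1 from g) ≫ (show W.1 ⟶ W.1 from f))
    rw [comp_whiskerRight, MonoidalCategory.whiskerLeft_comp, Category.assoc, hf U,
      ← Category.assoc, hg U, Category.assoc]
  add_mem' {f g} hf hg U := by
    change ((show W.1 ⟶ W.1 from f) + (show W.1 ⟶ W.1 from g)) ▷ U ≫ _ =
      _ ≫ U ◁ ((show W.1 ⟶ W.1 from f) + (show W.1 ⟶ W.1 from g))
    rw [MonoidalPreadditive.add_whiskerRight, MonoidalPreadditive.whiskerLeft_add,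
      Preadditive.add_comp, Preadditive.comp_add, hf U, hg U]
  algebraMap_mem' c U := by
    change (c • 𝟙 W.1) ▷ U ≫ _ = _ ≫ U ◁ (c • 𝟙 W.1)
    rw [MonoidalLinear.smul_whiskerRight, MonoidalLinear.whiskerLeft_smul]
    simp

lemma mem_cenAlg {W : Center C} (f : W.1 ⟶ W.1) :
    f ∈ cenAlg W ↔ ∀ U, f ▷ U ≫ (W.2.β U).hom = (W.2.β U).hom ≫ U ◁ f := Iff.rfl

lemma Hom_mem_cenAlg {W : Center C} (f : W ⟶ W) : f.f ∈ cenAlg W := f.comm

variable [hfd : ∀ X Y : C, FiniteDimensional ℂ (X ⟶ Y)]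

instance (X : C) : FiniteDimensional ℂ (End X) := hfd X X

lemma comp_aeval {G X : C} (t : X ⟶ X) {μ : ℂ} (a : G ⟶ X) (h : a ≫ t = μ • a)
    (R : Polynomial ℂ) :
    a ≫ (show X ⟶ X from Polynomial.aeval (show End X from t) R) = R.eval μ • a := by
  by_cases ha : a = 0
  · rw [ha]; simp
  have h1 : Module.End.HasEigenvector (post G t) μ a :=
    ⟨Module.End.mem_eigenspace_iff.mpr h, ha⟩
  have h2 := Module.End.aeval_apply_of_hasEigenvector (p := R) h1
  rw [← h2, ← postAlg_apply, Polynomial.aeval_algHom_apply]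
  rfl

/-- spectral decomposition in the centre -/
lemma exists_block (θ : ∀ W : Center C, W ≅ W)
    (nat : ∀ {W W' : Center C} (f : W ⟶ W'), f ≫ (θ W').hom = (θ W).hom ≫ f)
    (W : Center C) {μ : ℂ} {G : C} (a : G ⟶ W.1) (ha : a ≠ 0)
    (h : a ≫ (θ W).hom.f = μ • a) :
    ∃ Y : Center C, 𝟙 Y.1 ≠ 0 ∧ ∀ (G : C) (ν : ℂ),
      Module.End.HasEigenvalue (post G (θ Y).hom.f) ν → ν = μ := by
  classical
  set t : End W.1 := (θ W).hom.f with ht
  have hint : IsIntegral ℂ t := Algebra.IsIntegral.isIntegral t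
  set P := minpoly ℂ t with hP
  have hP0 : P ≠ 0 := minpoly.ne_zero hint
  have hPt : Polynomial.aeval t P = 0 := minpoly.aeval ℂ t
  obtain ⟨Q, hPQ, hQ⟩ := Polynomial.exists_eq_pow_rootMultiplicity_mul_and_not_dvd P hP0 μ
  have hroot : P.eval μ = 0 := by
    have h1 := comp_aeval (show W.1 ⟶ W.1 from t) a h P
    have h2 : (show W.1 ⟶ W.1 from Polynomial.aeval (show End W.1 from t) P) = 0 := hPt
    rw [h2, comp_zero] at h1
    exact (smul_eq_zero.mp h1.symm).resolve_right ha
  have hk : 0 < P.rootMultiplicity μ := (Polynomial.rootMultiplicity_pos hP0).mpr hroot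
  set k := P.rootMultiplicity μ with hkdef
  have hcop : IsCoprime ((Polynomial.X - Polynomial.C μ) ^ k) Q :=
    ((Polynomial.irreducible_X_sub_C μ).coprime_iff_not_dvd.mpr hQ).pow_left
  obtain ⟨r, w, hrw⟩ := hcop
  obtain ⟨E, hE⟩ : ∃ E, E = w * Q := ⟨_, rfl⟩
  have hEE : E * E = E - r * w * P := by
    rw [hPQ, hE]
    linear_combination (w * Q) * hrw
  have hEμ : E.eval μ = 1 := by
    have := congrArg (Polynomial.eval μ) hrw
    simp only [Polynomial.eval_add, Polynomial.eval_mul, Polynomial.eval_pow, Polynomial.eval_sub,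
      Polynomial.eval_X, Polynomial.eval_C, sub_self, Polynomial.eval_one] at this
    rw [zero_pow hk.ne', mul_zero, zero_add] at this
    rw [hE, Polynomial.eval_mul, this]
  set e : End W.1 := Polynomial.aeval t E with he
  have hee : e * e = e := by
    rw [he, ← map_mul, hEE, map_sub, map_mul (Polynomial.aeval t) (r * w) P, hPt, mul_zero,
      sub_zero]
  have hemem : e ∈ cenAlg W := by
    rw [he]
    have h1 : Algebra.adjoin ℂ {t} ≤ cenAlg W := by
      rw [Algebra.adjoin_le_iff, Set.singleton_subset_iff]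
      exact Hom_mem_cenAlg (θ W).hom
    exact h1 (Polynomial.aeval_mem_adjoin_singleton ℂ t)
  obtain ⟨Z, i, q, hiq, hqi⟩ :=
    IsIdempotentComplete.idempotents_split W.1 (show W.1 ⟶ W.1 from e) hee
  obtain ⟨Y, i', q', h1, h2⟩ := exists_split W ⟨e, hemem⟩ i q hiq hqi
  have h1f : i'.f ≫ q'.f = 𝟙 Y.1 := congrArg Center.Hom.f h1
  have h2f : q'.f ≫ i'.f = (show W.1 ⟶ W.1 from e) := congrArg Center.Hom.f h2
  refine ⟨Y, fun h0 => ha ?_, fun G' ν hν => ?_⟩
  · have h3 : a ≫ (show W.1 ⟶ W.1 from e) = a := by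
      have := comp_aeval (show W.1 ⟶ W.1 from t) a h E
      rw [hEμ, one_smul] at this
      exact this
    rw [← h3, ← h2f, ← Category.id_comp i'.f, h0]
    simp
  · obtain ⟨c, hc⟩ := hν.exists_hasEigenvector
    have hc1 : c ≫ (θ Y).hom.f = ν • c := Module.End.mem_eigenspace_iff.mp hc.1
    have hc2 : c ≠ 0 := hc.2
    have hn : i'.f ≫ (θ W).hom.f = (θ Y).hom.f ≫ i'.f := congrArg Center.Hom.f (nat i')
    have hc3 : (c ≫ i'.f) ≫ (θ W).hom.f = ν • (c ≫ i'.f) := by
      rw [Category.assoc, hn, ← Category.assoc, hc1, Linear.smul_comp]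
    have hc4 : c ≫ i'.f ≠ 0 := by
      intro h0
      apply hc2
      rw [← Category.comp_id c, ← h1f, ← Category.assoc, h0, zero_comp]
    have h5 := comp_aeval (show W.1 ⟶ W.1 from t) (c ≫ i'.f) hc3 E
    have h6 : (c ≫ i'.f) ≫ (show W.1 ⟶ W.1 from e) = c ≫ i'.f := by
      rw [← h2f, Category.assoc, ← Category.assoc i'.f, h1f, Category.id_comp]
    have h7 : E.eval ν = 1 := by
      have h8 : (1 - E.eval ν) • (c ≫ i'.f) = 0 := by
        rw [sub_smul, one_smul, sub_eq_zero, ← h5]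
        exact h6.symm
      have := (smul_eq_zero.mp h8).resolve_right hc4
      linear_combination -this
    have h9 := comp_aeval (show W.1 ⟶ W.1 from t) (c ≫ i'.f) hc3 P
    have h10 : (show W.1 ⟶ W.1 from Polynomial.aeval (show End W.1 from t) P) = 0 := hPt
    rw [h10, comp_zero] at h9
    have h11 := (smul_eq_zero.mp h9.symm).resolve_right hc4
    rw [hPQ, Polynomial.eval_mul] at h11
    have hQν : Q.eval ν ≠ 0 := by
      intro h0
      rw [hE, Polynomial.eval_mul, h0, mul_zero] at h7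
      exact zero_ne_one h7
    have h12 := (mul_eq_zero.mp h11).resolve_right hQν
    rw [Polynomial.eval_pow] at h12
    have h13 := pow_eq_zero_iff (M₀ := ℂ) hk.ne' |>.mp h12
    rw [Polynomial.eval_sub, Polynomial.eval_X, Polynomial.eval_C, sub_eq_zero] at h13
    exact h13

end alg

end Run7.h292
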